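import Pool.Agent.V7H20.MF.Cls

set_option autoImplicit false
set_option linter.unusedSectionVars false
set_option linter.unusedVariables false

/-! # One ideal -/

namespace Pool.Agent.V7H20.MF

open MvPolynomial Pool.Agent.W574.SM Pool.Agent.W574.CN Pool.Agent.W574.RO Pool.Agent.Y229
open Pool.Agent.W574.HS Pool.Agent.Y230.PS Pool.Agent.TH192.DT Pool.Agent.Y230.TH

/-- The polynomial `Φ(U)`, where `U_t = ∑_J y_{t,J} ∏_i f_{J(i)}(x)`, `J : {1, …, w t} → ι`, is the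
universal form over the power `I ^ w t` of the ideal `I = (f_j)_{j ∈ ι}`. -/
noncomputable def formOver {σ τ ι : Type} [Fintype ι] (w : τ → ℕ) (f : ι → MvPolynomial σ ℂ)
    (Φ : MvPolynomial τ ℂ) : MvPolynomial ((Σ t, (Fin (w t) → ι)) ⊕ σ) ℂ :=
  aeval (fun t => ∑ J : Fin (w t) → ι, X (Sum.inl ⟨t, J⟩) * rename Sum.inr (∏ i, f (J i))) Φ

/-- choices for one ideal -/
def chE (ι : Type) (n : ℕ) : ((q : Σ _ : Unit, Fin n) → (fun _ : Unit => ι) q.1) ≃ (Fin n → ι) where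
  toFun J i := J ⟨(), i⟩
  invFun J q := J q.2
  left_inv J := rfl
  right_inv J := rfl

section

variable {σ τ ι : Type} [Fintype τ] [DecidableEq τ] [Fintype ι] [DecidableEq ι]

theorem one_ideal (At HAt : Fam → RatFunc ℂ → Prop) (c : Bool) (f : ι → MvPolynomial σ ℂ)
    (w : τ → ℕ) (a : ℕ) (ha : 1 ≤ a) (Φ : MvPolynomial τ ℂ)
    (hΦ : ∀ m : τ →₀ ℕ, coeff m Φ ≠ 0 → ∑ t, w t * m t = a) (Z W : RatFunc ℂ)
    (hZ : ∀ q : ℚ, 0 ≤ q → Z.denom.eval (q : ℂ) ≠ 0) (hI : FT At HAt false ⟨σ, ι, f⟩ Z)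
    (hP : FT At HAt c ⟨τ, Fin 1, fun _ => Φ⟩ W) :
    FT At HAt c ⟨(Σ t, (Fin (w t) → ι)) ⊕ σ, Fin 1, fun _ => formOver w f Φ⟩ (dil a Z * W) := by
  classical
  have hK : FT At HAt false (powFam (fun _ : Unit => a) (fun _ : Unit => f)) (dil a Z) := by
    refine FT.equiv false ⟨σ, Fin a → ι, fun J => ∏ i, f (J i)⟩ _ (Equiv.refl σ)
      (chE ι a).symm (fun J => ?_) _ (FT.ipow σ ι f a ha Z hZ hI)
    have h1 : (rename (Equiv.refl σ) : MvPolynomial σ ℂ →ₐ[ℂ] MvPolynomial σ ℂ)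
        (∏ i, f (J i)) = ∏ i, f (J i) := by
      rw [Equiv.coe_refl, rename_id_apply]
    refine Eq.trans ?_ h1.symm
    change (∏ q : Σ _ : Unit, Fin a, f (J q.2)) = _
    rw [Fintype.prod_sigma]
    simp
  have hZ' : ∀ q : ℚ, 0 ≤ q → (dil a Z).denom.eval (q : ℂ) ≠ 0 := by
    intro q hq h1
    have h2 := dil_pole a Z q h1
    have h3 := hZ (a * q) (by positivity)
    push_cast at h3
    exact h3 h2
  have h1 := FT.form c σ τ Unit (fun _ => ι) (fun _ => f) (fun t _ => w t) (fun _ => a)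
    (fun _ => ha) Φ (fun m hm _ => hΦ m hm) (dil a Z) W hZ' hK hP
  refine FT.equiv c _ _ (Equiv.sumCongr (Equiv.sigmaCongrRight fun t => chE ι (w t))
    (Equiv.refl σ)) (Equiv.refl (Fin 1)) (fun _ => ?_) _ h1
  change formOver w f Φ = rename _ (subForm (fun t (_ : Unit) => w t) (fun _ : Unit => f) Φ)
  rw [formOver, subForm, ← AlgHom.comp_apply (rename _), comp_aeval]
  congr 2
  funext t
  rw [blockForm, map_sum]
  refine Fintype.sum_equiv (chE ι (w t)).symm _ _ fun J => ?_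
  rw [map_mul, rename_X, rename_rename]
  congr 1
  have h2 : fP (fun t (_ : Unit) => w t) (fun _ : Unit => f) t ((chE ι (w t)).symm J) =
      ∏ i, f (J i) := by
    change (∏ q : Σ _ : Unit, Fin (w t), f (J q.2)) = _
    rw [Fintype.prod_sigma]
    simp
  rw [h2]
  rfl

end

end Pool.Agent.V7H20.MF
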