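import Pool.Agent.V7H20.MF.Cls
import Pool.Agent.W425.SM.Final
import Pool.Agent.Y228.AT.Top

set_option autoImplicit false
set_option linter.unusedSectionVars false
set_option linter.unusedVariables false

/-! # Classes of ideals and hypersurfaces for which the strong conjecture is known -/

namespace Pool.Agent.V7H20.MF

open Pool.Agent.W574.SM Pool.Agent.W574.HS Pool.Agent.W574.RO Pool.Agent.Y229
  Pool.Agent.TH192.DT Pool.Agent.Y230.TH Pool.Agent.Y228.AT
  Pool.Agent.H628R4.TP Pool.Agent.H628R4.TZ Pool.Agent.W425.SM Pool.Agent.Y230.PS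

/-- `Hypers A Z`: `A` is one of the following hypersurfaces, and `Z` is its topological zeta
function. -/
inductive Hypers : Fam → RatFunc ℂ → Prop
  /-- the hypersurfaces in the class `StrongHyp` of the start library: plane curves, and
  polynomials with very general coefficients at the vertices of the Newton polytope -/
  | known (A : Fam) (Z : RatFunc ℂ) (h : StrongHyp A Z) : Hypers A Z
  /-- polynomials `∑_j a_j x ^ (v j)`, `a_j ≠ 0`, with affinely independent exponents `v j ≠ 0` -/
  | sparse (r N : ℕ) (hr : 2 ≤ r) (v : Fin r → Fin N → ℕ) (a : Fin r → ℂ)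
      (hv : AffineIndependent ℚ (fun j => (fun i => (v j i : ℚ) : Fin N → ℚ)))
      (hv0 : ∀ j, v j ≠ 0) (ha : ∀ j, a j ≠ 0) (R : SmoothFan N) (hR : Principal v R) :
      Hypers ⟨Fin N, Fin 1, fun _ => Pool.Agent.W425.SM.sparse v a⟩ (topZetaSparse v R)

/-- the ideals of the start library -/
theorem ideals_strong (A : Fam) (Z : RatFunc ℂ) (h : AllGlobal A Z) : Strong false A Z :=
  ⟨ag_fin A Z h, (allGlobal_poles A Z h).1, fun s hs b hb => (allGlobal_poles A Z h).2 s hs b hb,
    fun h1 => absurd h1 Bool.false_ne_true⟩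

theorem sparse_ne {r N : ℕ} (hr : 2 ≤ r) (v : Fin r → Fin N → ℕ) (a : Fin r → ℂ)
    (hv : AffineIndependent ℚ (fun j => (fun i => (v j i : ℚ) : Fin N → ℚ)))
    (ha : ∀ j, a j ≠ 0) : Pool.Agent.W425.SM.sparse v a ≠ 0 := by
  classical
  have hinj : Function.Injective v := by
    intro j j' h
    exact AffineIndependent.injective hv (by simp [h])
  intro h
  set e : Fin r → Fin N →₀ ℕ := fun j => Finsupp.equivFunOnFinite.symm (v j) with he
  have he1 : ∀ j, (MvPolynomial.C (a j) * ∏ i, MvPolynomial.X i ^ v j i : MvPolynomial (Fin N) ℂ) =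
      MvPolynomial.monomial (e j) (a j) := by
    intro j
    rw [MvPolynomial.monomial_eq, Finsupp.prod_fintype _ _ fun _ => pow_zero _]
    rfl
  have h1 := congrArg (MvPolynomial.coeff (e ⟨0, by omega⟩)) h
  rw [Pool.Agent.W425.SM.sparse, MvPolynomial.coeff_sum, Finset.sum_eq_single ⟨0, by omega⟩] at h1
  · rw [he1, MvPolynomial.coeff_monomial, if_pos rfl, MvPolynomial.coeff_zero] at h1
    exact ha _ h1
  · intro j _ hj
    rw [he1, MvPolynomial.coeff_monomial, if_neg]
    intro h2
    apply hj
    apply hinj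
    funext i
    exact congrArg (fun m : Fin N →₀ ℕ => m i) h2
  · intro h2
    exact absurd (Finset.mem_univ _) h2

/-- the hypersurfaces in the list -/
theorem hypers_strong (A : Fam) (Z : RatFunc ℂ) (h : Hypers A Z) : Strong true A Z := by
  classical
  cases h with
  | known A Z h => exact strong_of_cl _ _ _ (strongHyp_cl ⊥ A Z h)
  | sparse r N hr v a hv hv0 ha R hR =>
    exact strong_of_cl _ _ _ (cl_of_bz ⊥ _ _ (inferInstanceAs (Finite (Fin N)))
      ⟨(0 : Fin 1), sparse_ne hr v a hv ha⟩ fun b hb =>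
        Pool.Agent.W425.SM.main hr v a hv hv0 ha R hR b (isB_of_single _ b hb))

end Pool.Agent.V7H20.MF
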