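import Mathlib

set_option autoImplicit false
set_option linter.unusedSectionVars false
set_option linter.unusedVariables false

/-! # The coefficients of the powers of a polynomial near the multiples of a vertex -/

namespace Pool.Agent.V7H20.MF

open MvPolynomial

section Vertex

variable {τ : Type} [Fintype τ] [DecidableEq τ]

/-- the weight of an exponent -/
def wt (w : τ → ℕ) (m : τ →₀ ℕ) : ℕ := ∑ t, w t * m t

theorem wt_add (w : τ → ℕ) (m m' : τ →₀ ℕ) : wt w (m + m') = wt w m + wt w m' := by
  rw [wt, wt, wt, ← Finset.sum_add_distrib]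
  refine Finset.sum_congr rfl fun t _ => ?_
  rw [Finsupp.add_apply, mul_add]

/-- `v` is the only exponent of `Φ` of maximal weight -/
structure IsTop (w : τ → ℕ) (Φ : MvPolynomial τ ℂ) (v : τ →₀ ℕ) : Prop where
  ne : coeff v Φ ≠ 0
  lt : ∀ m, coeff m Φ ≠ 0 → m ≠ v → wt w m < wt w v

theorem exists_top (Φ : MvPolynomial τ ℂ) (h : Φ ≠ 0) :
    ∃ (w : τ → ℕ) (v : τ →₀ ℕ), IsTop w Φ v := by
  classical
  have hsep : ∃ w : τ → ℕ, ∀ m ∈ Φ.support, ∀ m' ∈ Φ.support, m ≠ m' → wt w m ≠ wt w m' := by
    set G : MvPolynomial τ ℂ := ∏ p ∈ (Φ.support ×ˢ Φ.support).filter (fun p => p.1 ≠ p.2),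
      ∑ t, C ((p.1 t : ℂ) - p.2 t) * X t with hG
    have hG0 : G ≠ 0 := by
      refine Finset.prod_ne_zero_iff.2 fun p hp h0 => ?_
      have hne := (Finset.mem_filter.1 hp).2
      apply hne
      ext t
      have h1 := congrArg (eval (fun s => if s = t then (1 : ℂ) else 0)) h0
      rw [map_sum, map_zero, Finset.sum_eq_single t] at h1
      · rw [map_mul, eval_C, eval_X, if_pos rfl, mul_one, sub_eq_zero] at h1
        exact_mod_cast h1
      · intro s _ hs
        rw [map_mul, eval_X, if_neg hs, mul_zero]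
      · intro h2
        exact absurd (Finset.mem_univ _) h2
    by_contra hcon
    push Not at hcon
    apply hG0
    apply MvPolynomial.funext_set (fun _ : τ => Set.range fun n : ℕ => (n : ℂ))
      (fun _ => Set.infinite_range_of_injective Nat.cast_injective)
    intro x hx
    have hx' : ∀ t, ∃ n : ℕ, (n : ℂ) = x t := fun t => hx t (Set.mem_univ t)
    choose w hw using hx'
    obtain ⟨m, hm, m', hm', hne, he⟩ := hcon w
    rw [hG, map_prod, map_zero]
    refine Finset.prod_eq_zero (i := (m, m')) (Finset.mem_filter.2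
      ⟨Finset.mem_product.2 ⟨hm, hm'⟩, hne⟩) ?_
    rw [map_sum]
    have h1 : ∀ t, eval x (C ((m t : ℂ) - m' t) * X t) = (w t * m t : ℕ) - (w t * m' t : ℕ) := by
      intro t
      rw [map_mul, eval_C, eval_X, ← hw t]
      push_cast
      ring
    simp only [h1]
    rw [Finset.sum_sub_distrib, ← Nat.cast_sum, ← Nat.cast_sum, sub_eq_zero]
    exact congrArg _ he
  obtain ⟨w, hw⟩ := hsep
  obtain ⟨v, hv, hmax⟩ := Finset.exists_max_image Φ.support (wt w)
    (by rwa [Finset.nonempty_iff_ne_empty, Ne, MvPolynomial.support_eq_empty])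
  refine ⟨w, v, mem_support_iff.1 hv, fun m hm hne => ?_⟩
  exact lt_of_le_of_ne (hmax m (mem_support_iff.2 hm)) (hw m (mem_support_iff.2 hm) v hv hne)

variable {w : τ → ℕ} {Φ : MvPolynomial τ ℂ} {v : τ →₀ ℕ}

/-- the rest of the polynomial -/
noncomputable def rest (Φ : MvPolynomial τ ℂ) (v : τ →₀ ℕ) : MvPolynomial τ ℂ :=
  Φ - monomial v (coeff v Φ)

theorem rest_lt (hT : IsTop w Φ v) (m : τ →₀ ℕ) (hm : coeff m (rest Φ v) ≠ 0) :
    wt w m + 1 ≤ wt w v := by
  classical
  rw [rest, coeff_sub, coeff_monomial] at hm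
  by_cases h : v = m
  · subst h
    rw [if_pos rfl, sub_self] at hm
    exact absurd rfl hm
  · rw [if_neg h, sub_zero] at hm
    exact hT.lt m hm (Ne.symm h)

theorem rest_pow (hT : IsTop w Φ v) (l : ℕ) : ∀ m : τ →₀ ℕ, coeff m (rest Φ v ^ l) ≠ 0 →
    wt w m + l ≤ l * wt w v := by
  classical
  induction l with
  | zero =>
    intro m hm
    rw [pow_zero, coeff_one] at hm
    by_cases h : 0 = m
    · subst h
      simp [wt]
    · rw [if_neg h] at hm
      exact absurd rfl hm
  | succ l ih =>
    intro m hm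
    rw [pow_succ, coeff_mul] at hm
    obtain ⟨⟨m1, m2⟩, h1, h2⟩ := Finset.exists_ne_zero_of_sum_ne_zero hm
    rw [Finset.HasAntidiagonal.mem_antidiagonal] at h1
    simp only at h1 h2
    have h3 := ih m1 (left_ne_zero_of_mul h2)
    have h4 := rest_lt hT m2 (right_ne_zero_of_mul h2)
    rw [← h1, wt_add, Nat.succ_mul]
    omega

/-- the coefficients which occur -/
noncomputable def qc (Φ : MvPolynomial τ ℂ) (v : τ →₀ ℕ) (δ : τ → ℤ) (l : ℕ) : ℂ :=
  if (∀ t, 0 ≤ (l : ℤ) * v t + δ t) then coeff (Finsupp.equivFunOnFinite.symm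
    fun t => ((l : ℤ) * v t + δ t).toNat) (rest Φ v ^ l) else 0

theorem qc_zero (hT : IsTop w Φ v) (δ : τ → ℤ) (l : ℕ) (hl : (-∑ t, (w t : ℤ) * δ t).toNat < l) :
    qc Φ v δ l = 0 := by
  by_contra hne
  rw [qc] at hne
  split_ifs at hne with h
  · have h1 := rest_pow hT l _ hne
    have h2 : ((wt w (Finsupp.equivFunOnFinite.symm fun t => ((l : ℤ) * v t + δ t).toNat) : ℕ) : ℤ) =
        l * wt w v + ∑ t, (w t : ℤ) * δ t := by
      rw [wt, wt]
      push_cast
      rw [Finset.mul_sum, ← Finset.sum_add_distrib]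
      refine Finset.sum_congr rfl fun t _ => ?_
      rw [Finsupp.equivFunOnFinite_symm_apply_apply, Int.toNat_of_nonneg (h t)]
      ring
    have h3 : ((wt w (Finsupp.equivFunOnFinite.symm fun t => ((l : ℤ) * v t + δ t).toNat) + l : ℕ) :
        ℤ) ≤ ((l * wt w v : ℕ) : ℤ) := by exact_mod_cast h1
    push_cast at h3
    rw [h2] at h3
    omega
  · exact hne rfl

/-- **The coefficients of `Φ ^ n` at `n v + δ`** are `c ^ n` times a polynomial in `n`. -/
theorem coef_top (hT : IsTop w Φ v) (δ : τ → ℤ) : ∃ P : Polynomial ℂ,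
    (δ = 0 → P = 1) ∧ (δ ≠ 0 → Polynomial.X ∣ P) ∧
    ∀ (n : ℕ) (M : τ →₀ ℕ), (∀ t, (M t : ℤ) = n * v t + δ t) →
      coeff M (Φ ^ n) = coeff v Φ ^ n * P.eval (n : ℂ) := by
  classical
  set c := coeff v Φ with hc
  set L := (-∑ t, (w t : ℤ) * δ t).toNat with hL
  refine ⟨∑ l ∈ Finset.range (L + 1), Polynomial.C (qc Φ v δ l * c⁻¹ ^ l * (l.factorial : ℂ)⁻¹) *
    descPochhammer ℂ l, ?_, ?_, ?_⟩
  · intro h0
    have hL0 : L = 0 := by
      rw [hL, h0]
      simp
    rw [hL0, zero_add, Finset.sum_range_one]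
    have h1 : qc Φ v δ 0 = 1 := by
      rw [qc, if_pos (fun t => by rw [h0]; simp), pow_zero]
      have : (Finsupp.equivFunOnFinite.symm fun t => (((0 : ℕ) : ℤ) * v t + δ t).toNat) =
          (0 : τ →₀ ℕ) := by
        ext t
        rw [Finsupp.equivFunOnFinite_symm_apply_apply, h0]
        simp
      rw [this, coeff_zero_one]
    rw [h1]
    simp
  · intro hne
    refine Finset.dvd_sum fun l _ => ?_
    rcases l with _ | l
    · have h1 : qc Φ v δ 0 = 0 := by
        rw [qc]
        split_ifs with h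
        · rw [pow_zero, coeff_one, if_neg]
          intro h2
          apply hne
          funext t
          have h3 := DFunLike.congr_fun h2 t
          rw [Finsupp.equivFunOnFinite_symm_apply_apply, Finsupp.zero_apply] at h3
          have h4 := h t
          have h5 : ((0 : ℕ) : ℤ) * v t + δ t = 0 := by omega
          rw [Pi.zero_apply]
          simpa using h5
        · rfl
      rw [h1]
      simp
    · rw [descPochhammer_succ_left]
      exact Dvd.dvd.mul_left (dvd_mul_right _ _) _
  · intro n M hM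
    have hΦ : Φ = rest Φ v + monomial v c := by
      rw [rest, sub_add_cancel]
    set F : ℕ → ℂ := fun l => (n.choose l : ℂ) * (c ^ n * c⁻¹ ^ l) * qc Φ v δ l with hF
    have h1 : coeff M (Φ ^ n) = ∑ l ∈ Finset.range (n + 1), F l := by
      conv_lhs => rw [hΦ]
      rw [add_pow, coeff_sum]
      refine Finset.sum_congr rfl fun l hl => ?_
      have hln : l ≤ n := by
        have := Finset.mem_range.1 hl
        omega
      have h2 : (rest Φ v ^ l * monomial v c ^ (n - l) * (n.choose l : MvPolynomial τ ℂ)) =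
          C (n.choose l : ℂ) * (rest Φ v ^ l * monomial ((n - l) • v) (c ^ (n - l))) := by
        rw [monomial_pow]
        have : (n.choose l : MvPolynomial τ ℂ) = C (n.choose l : ℂ) := by simp
        rw [this]
        ring
      rw [h2, coeff_C_mul, coeff_mul_monomial']
      have hcn : c ^ (n - l) = c ^ n * c⁻¹ ^ l := by
        have h3 : c ^ n = c ^ (n - l) * c ^ l := by rw [← pow_add, Nat.sub_add_cancel hln]
        rw [h3, inv_pow, mul_assoc, mul_inv_cancel₀ (pow_ne_zero _ hT.ne), mul_one]
      have hcond : ((n - l) • v ≤ M) ↔ ∀ t, 0 ≤ (l : ℤ) * v t + δ t := by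
        constructor
        · intro h t
          have h3 : (n - l) * v t ≤ M t := by simpa using h t
          have h4 : (((n - l) * v t : ℕ) : ℤ) ≤ (M t : ℤ) := by exact_mod_cast h3
          rw [hM t, Nat.cast_mul, Nat.cast_sub hln] at h4
          linarith
        · intro h t
          have h3 := h t
          have h4 : (((n - l) * v t : ℕ) : ℤ) ≤ (M t : ℤ) := by
            rw [hM t, Nat.cast_mul, Nat.cast_sub hln]
            linarith
          have h5 : (n - l) * v t ≤ M t := by exact_mod_cast h4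
          simpa using h5
      rw [hF]
      simp only
      by_cases h : ∀ t, 0 ≤ (l : ℤ) * v t + δ t
      · rw [if_pos (hcond.2 h), qc, if_pos h, hcn]
        have h3 : M - (n - l) • v = Finsupp.equivFunOnFinite.symm
            fun t => ((l : ℤ) * v t + δ t).toNat := by
          ext t
          rw [Finsupp.tsub_apply, Finsupp.equivFunOnFinite_symm_apply_apply]
          have h4 : ((M t - (n - l) * v t : ℕ) : ℤ) = (l : ℤ) * v t + δ t := by
            have h5 : (n - l) * v t ≤ M t := by simpa using (hcond.2 h) t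
            rw [Nat.cast_sub h5, hM t, Nat.cast_mul, Nat.cast_sub hln]
            ring
          have h6 : ((n - l) • v) t = (n - l) * v t := by simp
          rw [h6, ← h4, Int.toNat_natCast]
        rw [h3]
        ring
      · rw [if_neg (fun h' => h (hcond.1 h')), qc, if_neg h]
        ring
    have hFn : ∀ l, n < l → F l = 0 := by
      intro l hl
      rw [hF]
      simp only
      rw [Nat.choose_eq_zero_of_lt hl]
      simp
    have hFL : ∀ l, L < l → F l = 0 := by
      intro l hl
      rw [hF]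
      simp only
      rw [qc_zero hT δ l hl, mul_zero]
    have h2 : ∑ l ∈ Finset.range (n + 1), F l = ∑ l ∈ Finset.range (max n L + 1), F l := by
      refine Finset.sum_subset (Finset.range_mono (by omega)) fun l _ hl => hFn l ?_
      rw [Finset.mem_range] at hl
      omega
    have h3 : ∑ l ∈ Finset.range (L + 1), F l = ∑ l ∈ Finset.range (max n L + 1), F l := by
      refine Finset.sum_subset (Finset.range_mono (by omega)) fun l _ hl => hFL l ?_
      rw [Finset.mem_range] at hl
      omega
    rw [h1, h2, ← h3, Polynomial.eval_finsetSum, Finset.mul_sum]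
    refine Finset.sum_congr rfl fun l _ => ?_
    rw [Polynomial.eval_mul, Polynomial.eval_C, descPochhammer_eval_eq_descFactorial,
      Nat.descFactorial_eq_factorial_mul_choose, hF]
    simp only
    have h4 : (l.factorial : ℂ) ≠ 0 := Nat.cast_ne_zero.2 (Nat.factorial_ne_zero l)
    push_cast
    field_simp

end Vertex

/-! ### Quotients of factorials -/

section Fact

/-- the denominator of one factor -/
noncomputable def den1 (v L : ℕ) : Polynomial ℂ :=
  if v = 0 then 1 else ∏ i ∈ Finset.range L, (Polynomial.C (v : ℂ) * Polynomial.X - Polynomial.C (i : ℂ))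

theorem den1_root (v L : ℕ) (r : ℂ) (hr : ∀ q : ℚ, 0 ≤ q → r ≠ q) : (den1 v L).eval r ≠ 0 := by
  rw [den1]
  split_ifs with h
  · simp
  · rw [Polynomial.eval_prod]
    refine Finset.prod_ne_zero_iff.2 fun i _ h0 => ?_
    rw [Polynomial.eval_sub, Polynomial.eval_mul, Polynomial.eval_C, Polynomial.eval_X,
      Polynomial.eval_C] at h0
    have hv : (v : ℂ) ≠ 0 := Nat.cast_ne_zero.2 h
    refine hr ((i : ℚ) / v) (by positivity) ?_
    push_cast
    field_simp
    linear_combination h0

theorem fact1 (v L : ℕ) (d : ℤ) (hd : -(L : ℤ) ≤ d) : ∃ r : Polynomial ℂ,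
    (d = v → v ≠ 0 → (Polynomial.X + 1) ∣ r) ∧ ∀ N M : ℕ, (M : ℤ) = N * v + d →
      (den1 v L).eval (N : ℂ) * (M.factorial : ℂ) = r.eval (N : ℂ) * ((N * v).factorial : ℂ) := by
  by_cases hv : v = 0
  · subst hv
    refine ⟨Polynomial.C (d.toNat.factorial : ℂ), fun _ h => absurd rfl h, fun N M h => ?_⟩
    have h1 : M = d.toNat := by
      simp only [Nat.cast_zero, mul_zero, zero_add] at h
      omega
    rw [den1, if_pos rfl, h1]
    simp
  · by_cases hd0 : 0 ≤ d
    · obtain ⟨k, rfl⟩ := Int.eq_ofNat_of_zero_le hd0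
      refine ⟨den1 v L * ∏ i ∈ Finset.range k, (Polynomial.C (v : ℂ) * Polynomial.X +
        Polynomial.C ((i + 1 : ℕ) : ℂ)), ?_, fun N M h => ?_⟩
      · intro h1 h2
        have h3 : k = v := by exact_mod_cast h1
        subst h3
        refine Dvd.dvd.mul_left ?_ _
        refine dvd_trans ?_ (Finset.dvd_prod_of_mem _ (Finset.mem_range.2
          (show k - 1 < k by omega)))
        have h4 : k - 1 + 1 = k := by omega
        rw [h4]
        refine ⟨Polynomial.C (k : ℂ), ?_⟩
        ring
      · have h1 : M = N * v + k := by exact_mod_cast h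
        rw [h1, ← Nat.factorial_mul_ascFactorial, Nat.ascFactorial_eq_prod_range,
          Polynomial.eval_mul, Polynomial.eval_prod, Nat.cast_mul, Nat.cast_prod]
        have h2 : ∏ i ∈ Finset.range k, (((N * v + 1 + i : ℕ)) : ℂ) = ∏ i ∈ Finset.range k,
            Polynomial.eval (N : ℂ) (Polynomial.C (v : ℂ) * Polynomial.X +
              Polynomial.C ((i + 1 : ℕ) : ℂ)) := by
          refine Finset.prod_congr rfl fun i _ => ?_
          rw [Polynomial.eval_add, Polynomial.eval_mul, Polynomial.eval_C, Polynomial.eval_X,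
            Polynomial.eval_C]
          push_cast
          ring
        rw [h2]
        ring
    · obtain ⟨k, hk⟩ : ∃ k : ℕ, d = -(k : ℤ) := ⟨(-d).toNat, by omega⟩
      subst hk
      have hkL : k ≤ L := by omega
      refine ⟨∏ i ∈ (Finset.range L) \ (Finset.range k), (Polynomial.C (v : ℂ) * Polynomial.X -
        Polynomial.C (i : ℂ)), ?_, fun N M h => ?_⟩
      · intro h1 h2
        exfalso
        omega
      · have h1 : M + k = N * v := by
          have : ((M + k : ℕ) : ℤ) = ((N * v : ℕ) : ℤ) := by push_cast; linarith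
          exact_mod_cast this
        have h2 : (N * v).factorial = M.factorial * (N * v).descFactorial k := by
          have h3 := Nat.factorial_mul_descFactorial (n := N * v) (k := k) (by omega)
          rw [← h3]
          congr 2
          omega
        rw [den1, if_neg hv, Polynomial.eval_prod, Polynomial.eval_prod,
          ← Finset.prod_sdiff (Finset.range_mono hkL), h2, Nat.cast_mul]
        have h4 : ∏ i ∈ Finset.range k, Polynomial.eval (N : ℂ)
            (Polynomial.C (v : ℂ) * Polynomial.X - Polynomial.C (i : ℂ)) =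
              ((N * v).descFactorial k : ℂ) := by
          rw [Nat.descFactorial_eq_prod_range, Nat.cast_prod]
          refine Finset.prod_congr rfl fun i hi => ?_
          rw [Nat.cast_sub (by have := Finset.mem_range.1 hi; omega), Polynomial.eval_sub,
            Polynomial.eval_mul, Polynomial.eval_C, Polynomial.eval_X, Polynomial.eval_C]
          push_cast
          ring
        rw [h4]
        ring

variable {τ : Type} [Fintype τ] [DecidableEq τ]

/-- the common denominator -/
noncomputable def den (v : τ → ℕ) (L : ℕ) : Polynomial ℂ := ∏ t, den1 (v t) L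

theorem den_root (v : τ → ℕ) (L : ℕ) (r : ℂ) (hr : ∀ q : ℚ, 0 ≤ q → r ≠ q) :
    (den v L).eval r ≠ 0 := by
  rw [den, Polynomial.eval_prod]
  exact Finset.prod_ne_zero_iff.2 fun t _ => den1_root (v t) L r hr

theorem factQ (v : τ → ℕ) (L : ℕ) (δ : τ → ℤ) (hδ : ∀ t, -(L : ℤ) ≤ δ t) : ∃ r : Polynomial ℂ,
    ((∀ t, δ t = v t) → (∃ t, v t ≠ 0) → (Polynomial.X + 1) ∣ r) ∧
    ∀ (N : ℕ) (M : τ → ℕ), (∀ t, (M t : ℤ) = N * v t + δ t) →
      (den v L).eval (N : ℂ) * ((∏ t, (M t).factorial : ℕ) : ℂ) =
        r.eval (N : ℂ) * ((∏ t, (N * v t).factorial : ℕ) : ℂ) := by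
  choose r hr1 hr2 using fun t => fact1 (v t) L (δ t) (hδ t)
  refine ⟨∏ t, r t, ?_, fun N M hM => ?_⟩
  · rintro h1 ⟨t, ht⟩
    exact dvd_trans (hr1 t (h1 t) ht) (Finset.dvd_prod_of_mem _ (Finset.mem_univ t))
  · rw [den, Polynomial.eval_prod, Polynomial.eval_prod, Nat.cast_prod, Nat.cast_prod,
      ← Finset.prod_mul_distrib, ← Finset.prod_mul_distrib]
    exact Finset.prod_congr rfl fun t _ => hr2 t N (M t) (hM t)

end Fact

end Pool.Agent.V7H20.MF
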