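import Pool.Agent.Y230.TH.TopDefs
import Pool.Agent.Y229.LP3

set_option autoImplicit false

/-! # Weighted homogeneous polynomials in universal forms

For ideals `I_b = (f_{b,j})_j`, `b ∈ B`, of `ℂ[x]` and weights `w t b` let

  `U_t = ∑_J y_{t,J} f^J(x)`,  `t ∈ τ`,

be the universal form over the ideal `∏ b, I_b ^ w t b`: the `f^J` are the products of `w t b` of the
generators of `I_b` for each `b`, and the `y_{t,J}` are new variables. Let `Φ` be a polynomial in
variables `u_t`, `t ∈ τ`, which is homogeneous of degree `a b` for the weights `w t b`, for all `b`,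
and let `F = Φ(U)`.

Let `Y` be a log resolution of the ideals `I_b`. Locally on `Y` the ideal `I_b` is generated by one
function `e_b`, and `U_t = (∏ b, e_b ^ w t b) u_t` with `u_t = ∑_J y_{t,J} g_{t,J}`, where the `g_{t,J}`
have no common zero; so the `u_t` are part of a system of coordinates on `Y` times the space of the
`y`, transversal to the divisors on `Y`, and `F = (∏ b, e_b ^ a b) Φ(u)`. Hence the topological zeta
function of `F` is the product of those of the ideal `∏ b, I_b ^ a b` and of `Φ`. -/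

namespace Pool.Agent.V7H20.MF

open MvPolynomial Pool.Agent.W574.SM Pool.Agent.W574.CN Pool.Agent.W574.RO Pool.Agent.Y229
  Pool.Agent.TH192.DT Pool.Agent.Y230.TH

/-- The weight `∑_t w t b m_t` of an exponent `m`. -/
def wsum {τ B : Type} [Fintype τ] (w : τ → B → ℕ) (m : τ → ℕ) (b : B) : ℕ := ∑ t, w t b * m t

/-- The generators `f^J` of the ideal `∏ b, I_b ^ w t b`: products of `w t b` of the generators of
`I_b`, for each `b` (`Ch κ (w t)` is the type of the choices `J`). -/
noncomputable def fP {σ τ B : Type} [Fintype B] [DecidableEq B] (w : τ → B → ℕ) {κ : B → Type}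
    (f : (b : B) → κ b → MvPolynomial σ ℂ) (t : τ) : Ch κ (w t) → MvPolynomial σ ℂ :=
  prodFam fun q : Σ b, Fin (w t b) => f q.1

/-- The polynomial `Φ(U)`, `U_t = ∑_J y_{t,J} f^J(x)` the universal form over the ideal
`∏ b, I_b ^ w t b`, `I_b = (f_{b,j})_j`. -/
noncomputable def subForm {σ τ B : Type} [Fintype B] [DecidableEq B] (w : τ → B → ℕ)
    {κ : B → Type} [∀ b, Fintype (κ b)] (f : (b : B) → κ b → MvPolynomial σ ℂ)
    (Φ : MvPolynomial τ ℂ) : MvPolynomial ((Σ t, Ch κ (w t)) ⊕ σ) ℂ :=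
  aeval (blockForm (fP w f)) Φ

/-- The rational function `Z(m s)`. -/
noncomputable def dil (m : ℕ) (Z : RatFunc ℂ) : RatFunc ℂ :=
  algebraMap (Polynomial ℂ) (RatFunc ℂ) (Z.num.comp (Polynomial.C (m : ℂ) * Polynomial.X)) /
    algebraMap (Polynomial ℂ) (RatFunc ℂ) (Z.denom.comp (Polynomial.C (m : ℂ) * Polynomial.X))

/-- The rational function `Z(s - k)`. -/
noncomputable def shf (k : ℕ) (Z : RatFunc ℂ) : RatFunc ℂ :=
  algebraMap (Polynomial ℂ) (RatFunc ℂ) (Z.num.comp (Polynomial.X - Polynomial.C (k : ℂ))) /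
    algebraMap (Polynomial ℂ) (RatFunc ℂ) (Z.denom.comp (Polynomial.X - Polynomial.C (k : ℂ)))

/-- The polynomial `f(x) + ∑ y_i z_i`, with new variables `y_i`, `z_i`, `i ≤ k`. -/
noncomputable def addYZ {N : ℕ} (f : MvPolynomial (Fin N) ℂ) (k : ℕ) :
    MvPolynomial (Fin (N + (k + k))) ℂ :=
  rename (Fin.castAdd (k + k)) f + ∑ i : Fin k, X (Fin.natAdd N (Fin.castAdd k i)) *
    X (Fin.natAdd N (Fin.natAdd k i))

/-- The topological zeta function of `f` in terms of the one, `Z`, of `f + ∑ y_i z_i`, `i ≤ k`: it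
is given by `1 - Z_f(s) = (1 - Z(s - k)) s (s - k + 1) / ((s - k) (s + 1))`. -/
noncomputable def unZ (k : ℕ) (Z : RatFunc ℂ) : RatFunc ℂ :=
  1 - (1 - shf k Z) * (RatFunc.X * (RatFunc.X - RatFunc.C (k : ℂ) + 1)) *
    ((RatFunc.X - RatFunc.C (k : ℂ)) * (RatFunc.X + 1))⁻¹

/-- `FT At HAt false A Z` and `FT At HAt true A Z` are the smallest classes of ideals, and of
hypersurfaces, given by generators, together with their topological zeta functions, which contain
the given classes `At` of ideals and `HAt` of hypersurfaces and have the following properties. -/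
inductive FT (At HAt : Fam → RatFunc ℂ → Prop) : Bool → Fam → RatFunc ℂ → Prop
  /-- the ideals of the given class -/
  | atom (A : Fam) (Z : RatFunc ℂ) (h : At A Z) : FT At HAt false A Z
  /-- the hypersurfaces of the given class -/
  | hatom (A : Fam) (Z : RatFunc ℂ) (h : HAt A Z) : FT At HAt true A Z
  /-- a hypersurface is a principal ideal -/
  | hyp (A : Fam) (Z : RatFunc ℂ) (h : FT At HAt true A Z) : FT At HAt false A Z
  /-- the sum of two ideals in disjoint sets of variables: if `1 - Z = s ∫ V(t) exp(- s t) dt` and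
  `1 - W = s ∫ W'(t) exp(- s t) dt`, where no constant function occurs in the exponential
  polynomials `V`, `W'` (given by `v` and `w`), then the topological zeta function of the sum is
  `1 - s ∫ V(t) W'(t) exp(- s t) dt` -/
  | sum (A B : Fam) (Z W : RatFunc ℂ) (v w : ℂ × ℕ →₀ ℂ) (hv : 1 - Z = RatFunc.X * lap v)
      (hw : 1 - W = RatFunc.X * lap w) (hv0 : ∀ p ∈ v.support, p.1 ≠ 0)
      (hw0 : ∀ p ∈ w.support, p.1 ≠ 0) (hA : FT At HAt false A Z) (hB : FT At HAt false B W) :
      FT At HAt false (A.sum B) (1 - RatFunc.X * lap2 v w)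
  /-- the product of two ideals, or of two polynomials, in disjoint sets of variables -/
  | mul (c : Bool) (A B : Fam) (Z W : RatFunc ℂ) (hA : FT At HAt c A Z) (hB : FT At HAt c B W) :
      FT At HAt c (A.mul B) (Z * W)
  /-- the polynomial `∑ y_j f_j(x)` has the topological zeta function `Z / (s + 1)` -/
  | univ (A : Fam) (Z : RatFunc ℂ) (hA : FT At HAt false A Z) :
      FT At HAt true (univFam A) (Z * (RatFunc.X + 1)⁻¹)
  /-- the Thom-Sebastiani sum `∑ y_j f_j(x) + g(z)`: if `1 - Z = s ∫ V(t) exp(- s t) dt` and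
  `1 - (s + 1) W = s ∫ U(t) exp(- s t) dt - c s`, where no constant function occurs in the
  exponential polynomials `V`, `U` (given by `v` and `w`), then
  `1 - (s + 1) Z_F = s ∫ V(t) U(t) exp(- s t) dt - c V(0) s` -/
  | ts (A : Fam) (τ : Type) (g : MvPolynomial τ ℂ) (Z W : RatFunc ℂ) (v w : ℂ × ℕ →₀ ℂ) (c : ℂ)
      (hv : 1 - Z = RatFunc.X * lap v)
      (hw : 1 - (RatFunc.X + 1) * W = RatFunc.X * (lap w - RatFunc.C c))
      (hv0 : ∀ p ∈ v.support, p.1 ≠ 0) (hw0 : ∀ p ∈ w.support, p.1 ≠ 0)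
      (hA : FT At HAt false A Z) (hg : FT At HAt true ⟨τ, Fin 1, fun _ => g⟩ W) :
      FT At HAt true (tsFam A τ g)
        ((1 - RatFunc.X * (lap2 v w - RatFunc.C (c * val0 v))) * (RatFunc.X + 1)⁻¹)
  /-- weighted homogeneous polynomials `F = Φ(U)` in universal forms: `f_{b,j}`, `b ∈ B`, are
  generators of ideals `I_b`; `Φ` is a polynomial in the variables `u_t`, `t ∈ τ`, which is
  homogeneous of degree `a b ≥ 1` for the weights `w t b`, for each `b`; `U_t` is the universal form
  over `∏ b, I_b ^ w t b`. The topological zeta function of `F` is the product `Z W` of the topological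
  zeta functions `Z` of the ideal `∏ b, I_b ^ a b` (which has no poles at the numbers `q ≥ 0`) and `W` of
  the hypersurface (if `c = true`) or principal ideal (if `c = false`) `Φ` -/
  | form (c : Bool) (σ τ B : Type) [Fintype τ] [DecidableEq τ] [Fintype B] [DecidableEq B]
      [Nonempty B] (κ : B → Type) [∀ b, Fintype (κ b)] [∀ b, DecidableEq (κ b)]
      (f : (b : B) → κ b → MvPolynomial σ ℂ) (w : τ → B → ℕ) (a : B → ℕ) (ha : ∀ b, 1 ≤ a b)
      (Φ : MvPolynomial τ ℂ) (hΦ : ∀ m : τ →₀ ℕ, coeff m Φ ≠ 0 → ∀ b, wsum w m b = a b)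
      (Z W : RatFunc ℂ) (hZ : ∀ q : ℚ, 0 ≤ q → Z.denom.eval (q : ℂ) ≠ 0)
      (hI : FT At HAt false (powFam a f) Z) (hP : FT At HAt c ⟨τ, Fin 1, fun _ => Φ⟩ W) :
      FT At HAt c ⟨(Σ t, Ch κ (w t)) ⊕ σ, Fin 1, fun _ => subForm w f Φ⟩ (Z * W)
  /-- polynomial automorphisms of the affine space -/
  | auto (c : Bool) (σ ι : Type) [Fintype ι] (f : ι → MvPolynomial σ ℂ) (Z : RatFunc ℂ)
      (θ : MvPolynomial σ ℂ ≃ₐ[ℂ] MvPolynomial σ ℂ) (h : FT At HAt c ⟨σ, ι, f⟩ Z) :
      FT At HAt c ⟨σ, ι, fun j => θ (f j)⟩ Z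
  /-- other generators of the same ideal -/
  | gens (c : Bool) (σ ι ι' : Type) [Fintype ι] [Fintype ι'] (f : ι → MvPolynomial σ ℂ)
      (g : ι' → MvPolynomial σ ℂ) (hfg : Ideal.span (Set.range f) = Ideal.span (Set.range g))
      (Z : RatFunc ℂ) (h : FT At HAt c ⟨σ, ι, f⟩ Z) : FT At HAt c ⟨σ, ι', g⟩ Z
  /-- the power `F ^ m` of a polynomial has the topological zeta function `Z(m s)`; for
  `c = true` the number `-1` must not be a pole of `(s + 1) Z(m s)` -/
  | pow (c : Bool) (σ : Type) (F : MvPolynomial σ ℂ) (m : ℕ) (hm : 1 ≤ m) (Z : RatFunc ℂ)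
      (hc : c = true → ((RatFunc.X + 1) * dil m Z).denom.eval (-1) ≠ 0)
      (h : FT At HAt c ⟨σ, Fin 1, fun _ => F⟩ Z) :
      FT At HAt c ⟨σ, Fin 1, fun _ => F ^ m⟩ (dil m Z)
  /-- powers of ideals: the products of `m` of the `f_j`, `m ≥ 1`, generate an ideal with the
  topological zeta function `Z(m s)` (`Z` has no poles at the numbers `q ≥ 0`) -/
  | ipow (σ ι : Type) [Fintype ι] (f : ι → MvPolynomial σ ℂ) (m : ℕ) (hm : 1 ≤ m) (Z : RatFunc ℂ)
      (hZ : ∀ q : ℚ, 0 ≤ q → Z.denom.eval (q : ℂ) ≠ 0) (h : FT At HAt false ⟨σ, ι, f⟩ Z) :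
      FT At HAt false ⟨σ, Fin m → ι, fun J => ∏ i, f (J i)⟩ (dil m Z)
  /-- the sum `∑ y_i z_i`, `i ≤ k`, may be dropped from a polynomial `f(x) + ∑ y_i z_i`: if `Z` is the
  topological zeta function of the latter, then that of `f` is given by
  `1 - Z_f(s) = (1 - Z(s - k)) s (s - k + 1) / ((s - k) (s + 1))` (and has no pole at `k`) -/
  | unstab (N k : ℕ) (f : MvPolynomial (Fin N) ℂ) (hf : f.totalDegree ≠ 0) (Z : RatFunc ℂ)
      (hk : (unZ k Z).denom.eval (k : ℂ) ≠ 0)
      (h : FT At HAt true ⟨Fin (N + (k + k)), Fin 1, fun _ => addYZ f k⟩ Z) :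
      FT At HAt true ⟨Fin N, Fin 1, fun _ => f⟩ (unZ k Z)
  /-- variables which do not occur may be dropped -/
  | drop (σ κ : Type) (g : MvPolynomial σ ℂ) (Z : RatFunc ℂ)
      (h : FT At HAt true ⟨σ ⊕ κ, Fin 1, fun _ => rename Sum.inl g⟩ Z) :
      FT At HAt true ⟨σ, Fin 1, fun _ => g⟩ Z
  /-- the variables and the generators may be indexed differently -/
  | equiv (c : Bool) (A B : Fam) (i : A.σ ≃ B.σ) (k : A.ι ≃ B.ι)
      (h : ∀ j, B.f (k j) = rename i (A.f j)) (Z : RatFunc ℂ) (hA : FT At HAt c A Z) :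
      FT At HAt c B Z

/-- **The strong monodromy conjecture** for the ideal (`c = false`) or hypersurface (`c = true`) `A`
with the topological zeta function `Z`: every pole of `Z` is a root of every polynomial `b` which
satisfies a functional equation of `A`, in particular of the Bernstein-Sato polynomial; if
`c = true` then in addition `-1` is a double root of these `b` if it is a pole of `(s + 1) Z`. -/
structure Strong (c : Bool) (A : Fam) (Z : RatFunc ℂ) : Prop where
  /-- there are finitely many variables -/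
  fin : Finite A.σ
  /-- the ideal is not zero -/
  ne : ∃ j, A.f j ≠ 0
  /-- the poles are roots -/
  pole : ∀ s₀ : ℂ, Z.denom.eval s₀ = 0 → ∀ b : Polynomial ℂ, IsFunctionalEq A.f b → b.eval s₀ = 0
  /-- the pole `-1` of a hypersurface -/
  double : c = true → ((RatFunc.X + 1) * Z).denom.eval (-1) = 0 →
    ∀ b : Polynomial ℂ, IsFunctionalEq A.f b → (Polynomial.X + 1) ^ 2 ∣ b

end Pool.Agent.V7H20.MF
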