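import Pool.Agent.TH192.DT.Multi4
import Pool.Agent.V7H20.MF.Coef
import Pool.Agent.V7H20.MF.Defs

set_option autoImplicit false
set_option linter.unusedSectionVars false
set_option linter.unusedVariables false

/-! # Blocks of forms over the same ideals: multi-indices -/

namespace Pool.Agent.V7H20.MF

open MvPolynomial Pool.Agent.W574.SM Pool.Agent.W574.HS Pool.Agent.W574.LM Pool.Agent.TH192.DT

section Blk

variable {σ τ B : Type} [Fintype τ] [DecidableEq τ] [Fintype B] [DecidableEq B] (w : τ → B → ℕ)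
  {κ : B → Type} [∀ b, Fintype (κ b)] [∀ b, DecidableEq (κ b)]

/-- the total weight, for integers -/
def wsumZ (m : τ → ℤ) (b : B) : ℤ := ∑ t, (w t b : ℤ) * m t

/-- the total exponent of a generator -/
noncomputable def btot (β : (Σ t, Ch κ (w t)) →₀ ℕ) (y : Σ b, κ b) : ℕ :=
  ∑ q : Σ t, Ch κ (w t), β q * mul (w q.1) q.2 y

theorem btot_add (β γ : (Σ t, Ch κ (w t)) →₀ ℕ) (y : Σ b, κ b) :
    btot w (β + γ) y = btot w β y + btot w γ y := by
  rw [btot, btot, btot, ← Finset.sum_add_distrib]
  refine Finset.sum_congr rfl fun q _ => ?_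
  rw [Finsupp.add_apply, add_mul]

theorem prod_btot (f : (b : B) → κ b → MvPolynomial σ ℂ) (β : (Σ t, Ch κ (w t)) →₀ ℕ) :
    ∏ q : Σ t, Ch κ (w t), fP w f q.1 q.2 ^ β q = ∏ y : Σ b, κ b, f y.1 y.2 ^ btot w β y := by
  simp only [btot, ← Finset.prod_pow_eq_pow_sum]
  rw [Finset.prod_comm]
  refine Finset.prod_congr rfl fun q _ => ?_
  rw [fP, ← prod_mul, ← Finset.prod_pow]
  refine Finset.prod_congr rfl fun y _ => ?_
  rw [← pow_mul, mul_comm]

theorem sum_btot (β : (Σ t, Ch κ (w t)) →₀ ℕ) (b : B) :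
    ∑ j, btot w β ⟨b, j⟩ = wsum w (fun t => ∑ J, β ⟨t, J⟩) b := by
  simp only [btot]
  rw [Finset.sum_comm, wsum, Fintype.sum_sigma]
  refine Finset.sum_congr rfl fun t _ => ?_
  rw [Finset.mul_sum]
  refine Finset.sum_congr rfl fun J _ => ?_
  rw [← Finset.mul_sum, mul_sum, mul_comm]

variable (v : τ → ℕ)

/-- **Multi-indices with given totals.** -/
theorem btot_surj (Γ : (Σ b, κ b) → ℕ) (K : ℕ) (h : ∀ b, ∑ j, Γ ⟨b, j⟩ = K * wsum w v b) :
    ∃ l : Ch (fun t => Ch κ (w t)) v →₀ ℕ, ∑ J, l J = K ∧ ∀ y, btot w (tot v l) y = Γ y := by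
  classical
  have h1 : ∀ b, ∃ g : Fin K × (Σ q : (Σ t, Fin (v t)), Fin (w q.1 b)) → κ b,
      ∀ j, ∑ x, (if g x = j then 1 else 0) = Γ ⟨b, j⟩ := fun b => exists_fibres _ (by
    rw [h b, Fintype.card_prod, Fintype.card_fin, Fintype.card_sigma, Fintype.sum_sigma, wsum]
    congr 1
    refine Finset.sum_congr rfl fun t _ => ?_
    simp [mul_comm])
  choose g hg using h1
  set J : Fin K → Ch (fun t => Ch κ (w t)) v :=
    fun r q => fun p : Σ b, Fin (w q.1 b) => g p.1 (r, ⟨q, p.2⟩) with hJ
  refine ⟨∑ r : Fin K, Finsupp.single (J r) 1, ?_, ?_⟩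
  · simp only [Finsupp.finsetSum_apply]
    rw [Finset.sum_comm]
    simp [Finsupp.single_apply]
  · have h2 : ∀ s : Finset (Fin K), tot v (∑ r ∈ s, Finsupp.single (J r) 1)
        = ∑ r ∈ s, mul v (J r) := by
      intro s
      induction s using Finset.induction_on with
      | empty => ext q; simp [tot_apply]
      | insert r s hr ih => rw [Finset.sum_insert hr, Finset.sum_insert hr, tot_add, ih, tot_single]
    rintro ⟨b, j0⟩
    rw [h2, ← hg b j0]
    have h3 : ∀ s : Finset (Fin K), btot w (∑ r ∈ s, mul v (J r)) ⟨b, j0⟩ =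
        ∑ r ∈ s, btot w (mul v (J r)) ⟨b, j0⟩ := by
      intro s
      induction s using Finset.induction_on with
      | empty => simp [btot]
      | insert r s hr ih => rw [Finset.sum_insert hr, Finset.sum_insert hr, btot_add, ih]
    have h4 : ∀ r, btot w (mul v (J r)) ⟨b, j0⟩ = ∑ x : (Σ q : (Σ t, Fin (v t)), Fin (w q.1 b)),
        if g b (r, x) = j0 then 1 else 0 := by
      intro r
      rw [btot, Fintype.sum_sigma, Fintype.sum_sigma, Fintype.sum_sigma]
      refine Finset.sum_congr rfl fun t _ => ?_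
      simp only [mul_apply (κ := fun t => Ch κ (w t)), Finset.sum_mul]
      rw [Finset.sum_comm]
      refine Finset.sum_congr rfl fun i _ => ?_
      rw [Finset.sum_eq_single (J r ⟨t, i⟩)]
      · rw [if_pos rfl, one_mul, mul_apply]
      · intro I _ hI
        rw [if_neg (Ne.symm hI), zero_mul]
      · intro h5
        exact absurd (Finset.mem_univ _) h5
    rw [h3]
    simp only [h4]
    rw [← Fintype.sum_prod_type']

/-- **The terms of the functional equation.** -/
theorem term_rep2 [DecidableEq σ] (f : (b : B) → κ b → MvPolynomial σ ℂ)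
    (c : (Σ t, Ch κ (w t)) → ℤ) (p : MvPolynomial (Σ t, Ch κ (w t)) ℂ) (R : weyl σ) :
    ∃ E : ((Ch (fun t => Ch κ (w t)) v →₀ ℕ) → MvPolynomial σ ℂ) →
        (Ch (fun t => Ch κ (w t)) v →₀ ℕ) → MvPolynomial σ ℂ, Rep E ∧
      ∀ (s : Ch (fun t => Ch κ (w t)) v →₀ ℕ) (K : ℂ),
        (evN (tot v s) p * (fall c (tot v s) : ℂ)) •
        (R : Module.End ℂ (MvPolynomial σ ℂ)) (if (∀ b, wsum w (fun t => ∑ j,
          (sh (tot v s) c) ⟨t, j⟩) b = (∑ J, s J + 1) * wsum w v b) then
            K • ∏ q : Σ t, Ch κ (w t), fP w f q.1 q.2 ^ (sh (tot v s) c) q else 0) =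
        K • E (fun β => if ∑ J, β J = ∑ J, s J + 1 then
          ∏ J, prodFam (fun q : Σ t, Fin (v t) => fP w f q.1) J ^ β J else 0) s := by
  classical
  have hbs : ∀ (s : Ch (fun t => Ch κ (w t)) v →₀ ℕ) (b : B),
      wsum w (fun t => ∑ j, tot v s ⟨t, j⟩) b = (∑ J, s J) * wsum w v b := by
    intro s b
    rw [wsum, wsum, Finset.mul_sum]
    refine Finset.sum_congr rfl fun t _ => ?_
    rw [tot_sum (κ := fun t => Ch κ (w t)) v s t]
    ring
  by_cases hbal : ∀ b, wsumZ w (fun t => ∑ j, c ⟨t, j⟩) b = ((wsum w v b : ℕ) : ℤ)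
  · obtain ⟨M, hM, u, k, hk, hs⟩ := fall_tot v _
      (Finsupp.equivFunOnFinite.symm fun q : Σ t, Ch κ (w t) => (-c q).toNat) rfl
    have hpos : ∀ m, u m ≠ 0 → ∀ q, 0 ≤ (tot v (k m) q : ℤ) + c q := by
      intro m hm q
      have h1 : (-c q).toNat ≤ tot v (k m) q := hk m hm q
      omega
    have hl : ∀ m, ∃ l : Ch (fun t => Ch κ (w t)) v →₀ ℕ, u m ≠ 0 → ∑ J, l J = ∑ J, k m J + 1 ∧
        ∀ y, btot w (tot v l) y = btot w (sh (tot v (k m)) c) y := by
      intro m
      by_cases hm : u m = 0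
      · exact ⟨0, fun h => absurd hm h⟩
      · obtain ⟨l, h1, h2⟩ := btot_surj w v (btot w (sh (tot v (k m)) c)) (∑ J, k m J + 1) (by
          intro b
          rw [sum_btot]
          have h3 : ((wsum w (fun t => ∑ j, sh (tot v (k m)) c ⟨t, j⟩) b : ℕ) : ℤ)
              = (((∑ J, k m J) * wsum w v b : ℕ) : ℤ) + wsumZ w (fun t => ∑ j, c ⟨t, j⟩) b := by
            rw [← hbs, wsum, wsum, wsumZ]
            push_cast
            rw [← Finset.sum_add_distrib]
            refine Finset.sum_congr rfl fun t _ => ?_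
            rw [← mul_add, ← Finset.sum_add_distrib]
            congr 1
            refine Finset.sum_congr rfl fun j _ => ?_
            rw [sh_apply, Int.toNat_of_nonneg (hpos m hm _)]
          rw [hbal b] at h3
          have h4 : (((∑ J, k m J + 1) * wsum w v b : ℕ) : ℤ) =
              (((∑ J, k m J) * wsum w v b : ℕ) : ℤ) + ((wsum w v b : ℕ) : ℤ) := by
            push_cast; ring
          rw [← h4] at h3
          exact_mod_cast h3)
        exact ⟨l, fun _ => ⟨h1, h2⟩⟩
    choose l hl using hl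
    refine ⟨fun H s => evN s (subT v p) • ∑ m, evN s (C (u m : ℂ)) • ((dsc s (k m) : ℂ) •
      (R : Module.End ℂ (MvPolynomial σ ℂ)) (H (s - k m + l m))), ?_, ?_⟩
    · refine rep_poly (rep_sum Finset.univ (fun m H s => evN s (C (u m : ℂ)) •
        ((dsc s (k m) : ℂ) • (R : Module.End ℂ (MvPolynomial σ ℂ)) (H (s - k m + l m))))
        fun m _ => rep_poly (rep_desc (k m) (fun H s =>
          (R : Module.End ℂ (MvPolynomial σ ℂ)) (H (s + l m)))
          (rep_shift (l m) (fun H s => (R : Module.End ℂ (MvPolynomial σ ℂ)) (H s))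
          (rep_weyl rep_id R))) _) _
    · intro s K
      beta_reduce
      rw [fall_eq_dsc, hs s, evN_subT, Nat.cast_sum, Finset.mul_sum, Finset.sum_smul,
        smul_comm K, Finset.smul_sum, Finset.smul_sum]
      refine Finset.sum_congr rfl fun m _ => ?_
      have hC : evN s (C (u m : ℂ)) = u m := by rw [evN, eval_C]
      rw [hC]
      by_cases hw : u m = 0
      · simp [hw]
      by_cases hz : dsc s (k m) = 0
      · simp [hz]
      have hle := dsc_ne hz
      obtain ⟨hl1, hl2⟩ := hl m hw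
      have hts : tot v s = tot v (s - k m) + tot v (k m) := by
        rw [← tot_add, tsub_add_cancel_of_le hle]
      have hsh : sh (tot v s) c = tot v (s - k m) + sh (tot v (k m)) c := by
        ext q
        rw [sh_apply, Finsupp.add_apply, sh_apply, hts, Finsupp.add_apply]
        have := hpos m hw q
        push_cast
        omega
      have e3 : ∀ y, btot w (sh (tot v s) c) y = btot w (tot v (s - k m + l m)) y := by
        intro y
        rw [hsh, tot_add, btot_add, btot_add, hl2]
      have hprod : ∏ q : Σ t, Ch κ (w t), fP w f q.1 q.2 ^ (sh (tot v s) c) q =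
          ∏ q : Σ t, Ch κ (w t), fP w f q.1 q.2 ^ (tot v (s - k m + l m)) q := by
        rw [prod_btot, prod_btot]
        exact Finset.prod_congr rfl fun y _ => by rw [e3 y]
      have hsum : ∑ J, (s - k m + l m : Ch (fun t => Ch κ (w t)) v →₀ ℕ) J = ∑ J, s J + 1 := by
        have h1 : ∑ J, s J = ∑ J, (s - k m : Ch (fun t => Ch κ (w t)) v →₀ ℕ) J +
            ∑ J, k m J := by
          rw [← Finset.sum_add_distrib]
          refine Finset.sum_congr rfl fun J _ => ?_
          rw [Finsupp.tsub_apply, Nat.sub_add_cancel (hle J)]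
        simp only [Finsupp.add_apply, Finset.sum_add_distrib]
        omega
      have hcond : ∀ b, wsum w (fun t => ∑ j, (sh (tot v s) c) ⟨t, j⟩) b =
          (∑ J, s J + 1) * wsum w v b := by
        intro b
        rw [← sum_btot]
        simp only [e3]
        rw [sum_btot, hbs, hsum]
      rw [hprod, if_pos hcond, if_pos hsum,
        prod_tot v (fun t => fP w f t), map_smul,
        Nat.cast_mul, smul_smul, smul_smul, smul_smul, smul_smul]
      congr 1
      ring
  · refine ⟨fun _ _ => 0, rep_zero, fun s K => ?_⟩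
    rw [smul_zero]
    by_cases hf : fall c (tot v s) = 0
    · rw [hf]; simp
    · rw [if_neg, map_zero, smul_zero]
      intro h
      apply hbal
      intro b
      have hle := dsc_ne (s := tot v s) (k := Finsupp.equivFunOnFinite.symm fun q => (-c q).toNat)
        (by rw [← fall_eq_dsc]; exact hf)
      have h3 : ((wsum w (fun t => ∑ j, sh (tot v s) c ⟨t, j⟩) b : ℕ) : ℤ)
          = (((∑ J, s J) * wsum w v b : ℕ) : ℤ) + wsumZ w (fun t => ∑ j, c ⟨t, j⟩) b := by
        rw [← hbs, wsum, wsum, wsumZ]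
        push_cast
        rw [← Finset.sum_add_distrib]
        refine Finset.sum_congr rfl fun t _ => ?_
        rw [← mul_add, ← Finset.sum_add_distrib]
        congr 1
        refine Finset.sum_congr rfl fun j _ => ?_
        rw [sh_apply, Int.toNat_of_nonneg]
        have h5 : (-c ⟨t, j⟩).toNat ≤ tot v s ⟨t, j⟩ := hle ⟨t, j⟩
        omega
      rw [h b] at h3
      push_cast at h3
      linarith

end Blk

end Pool.Agent.V7H20.MF
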