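import Pool.Agent.V7H20.MF.Ops
import Pool.Agent.V7H20.MF.Defs
import Pool.Agent.Y230.TH.TopFin

set_option autoImplicit false
set_option linter.unusedSectionVars false
set_option linter.unusedVariables false

/-! # Other generators, and powers: the classes -/

namespace Pool.Agent.V7H20.MF

open MvPolynomial Pool.Agent.W574.SM Pool.Agent.W574.CN Pool.Agent.W574.RO Pool.Agent.Y229
open Pool.Agent.W574.HS Pool.Agent.Y230.PS Pool.Agent.TH192.DT Pool.Agent.Y230.TH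
open Pool.Agent.H628R4.TP (IsBFunction weylS)

/-- the poles of `Z(m s)` -/
theorem dil_pole (m : ℕ) (Z : RatFunc ℂ) (s : ℂ) (h : (dil m Z).denom.eval s = 0) :
    Z.denom.eval (m * s) = 0 := by
  by_contra h1
  refine Reg_denom s _ ⟨_, _, ?_, rfl⟩ h
  rw [Polynomial.eval_comp, Polynomial.eval_mul, Polynomial.eval_C, Polynomial.eval_X]
  exact h1

theorem gens_cl (c : Bool) (σ ι ι' : Type) [Fintype ι] [Fintype ι'] (f : ι → MvPolynomial σ ℂ)
    (g : ι' → MvPolynomial σ ℂ) (hfg : Ideal.span (Set.range f) = Ideal.span (Set.range g))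
    (Z : RatFunc ℂ) (h : Cl ⊥ c ⟨σ, ι, f⟩ Z) : Cl ⊥ c ⟨σ, ι', g⟩ Z := by
  classical
  have hfin : Finite σ := h.fin
  have : Fintype σ := Fintype.ofFinite σ
  have hf : ∃ j, f j ≠ 0 := h.ne
  have hFM : ∀ (r : ℂ) (m : ℕ), FM f r m → FM g r m := fun r m hm b hb =>
    hm b (fe_gens g f hfg.symm hf b hb)
  refine ⟨hfin, ?_, fun s hs => ?_, fun hc hs => hFM _ _ (h.one hc hs), fun hc s hs => ?_⟩
  · by_contra hne
    push Not at hne
    obtain ⟨j, hj⟩ := hf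
    apply hj
    have h1 : f j ∈ Ideal.span (Set.range g) := by
      rw [← hfg]
      exact Ideal.subset_span ⟨j, rfl⟩
    have h2 : Ideal.span (Set.range g) ≤ ⊥ := by
      rw [Ideal.span_le]
      rintro _ ⟨k, rfl⟩
      exact hne k
    exact h2 h1
  · obtain ⟨t, ht, h1⟩ := h.pole s hs
    exact ⟨t, ht, hFM _ _ h1⟩
  · obtain ⟨t, ht, h1⟩ := h.ref hc s hs
    exact ⟨t, ht, hFM _ _ h1⟩

theorem fm_pow {σ : Type} (F : MvPolynomial σ ℂ) (hF0 : F ≠ 0) (m : ℕ) (hm : 1 ≤ m) (s : ℂ) (k : ℕ)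
    (h : FM (fun _ : Fin 1 => F) (m * s) k) : FM (fun _ : Fin 1 => F ^ m) s k := by
  intro b hb
  have hm0 : (m : ℂ) ≠ 0 := Nat.cast_ne_zero.2 (by omega)
  have h1 := h _ (single_of_isB _ _ (isB_root F hF0 m hm b (isB_of_single _ b hb)))
  obtain ⟨q, hq⟩ := h1
  have h2 := congrArg (fun p : Polynomial ℂ => p.comp (Polynomial.C (m : ℂ) * Polynomial.X)) hq
  beta_reduce at h2
  rw [Polynomial.comp_assoc] at h2
  have h3 : (Polynomial.C ((m : ℂ)⁻¹) * Polynomial.X).comp (Polynomial.C (m : ℂ) * Polynomial.X) =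
      Polynomial.X := by
    rw [Polynomial.mul_comp, Polynomial.C_comp, Polynomial.X_comp, ← mul_assoc, ← Polynomial.C_mul,
      inv_mul_cancel₀ hm0, Polynomial.C_1, one_mul]
  rw [h3, Polynomial.comp_X, Polynomial.mul_comp, Polynomial.pow_comp, Polynomial.sub_comp, Polynomial.X_comp,
    Polynomial.C_comp, Polynomial.C_mul, ← mul_sub, mul_pow] at h2
  rw [h2]
  exact Dvd.dvd.mul_right (Dvd.dvd.mul_left (dvd_refl _) _) _

theorem pow_cl (c : Bool) (σ : Type) (F : MvPolynomial σ ℂ) (m : ℕ) (hm : 1 ≤ m) (Z : RatFunc ℂ)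
    (hc : c = true → ((RatFunc.X + 1) * dil m Z).denom.eval (-1) ≠ 0)
    (h : Cl ⊥ c ⟨σ, Fin 1, fun _ => F⟩ Z) : Cl ⊥ c ⟨σ, Fin 1, fun _ => F ^ m⟩ (dil m Z) := by
  have hF0 : F ≠ 0 := by
    obtain ⟨j, hj⟩ := h.ne
    exact hj
  have hpole : ∀ s : ℂ, (dil m Z).denom.eval s = 0 → FM (fun _ : Fin 1 => F ^ m) s 1 := by
    intro s hs
    obtain ⟨t, ht, h1⟩ := h.pole _ (dil_pole m Z s hs)
    rw [AddSubmonoid.mem_bot] at ht
    rw [ht, sub_zero] at h1
    exact fm_pow F hF0 m hm s 1 h1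
  refine ⟨h.fin, ⟨0, pow_ne_zero m hF0⟩, fun s hs => ⟨0, AddSubmonoid.zero_mem _, ?_⟩,
    fun _ hs => hpole _ hs, fun hct s hs => ⟨0, AddSubmonoid.zero_mem _, ?_⟩⟩
  · rw [sub_zero]
    exact hpole s hs
  · rw [sub_zero, dl_eq]
    split_ifs with h1
    · subst h1
      exact absurd hs (hc hct)
    · rw [add_zero]
      exact hpole s (pole_of_ref _ s hs)

end Pool.Agent.V7H20.MF
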