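import Pool.Agent.V7H20.MF.Ip2

set_option autoImplicit false
set_option linter.unusedSectionVars false
set_option linter.unusedVariables false

/-! # Powers of ideals: the functional equation -/

namespace Pool.Agent.V7H20.MF

open MvPolynomial Pool.Agent.W574.SM Pool.Agent.W574.HS Pool.Agent.TH192.DT Pool.Agent.W366.SI
open Pool.Agent.H628R4.TP (IsBFunction weylS)

section Root2

variable {σ : Type}

theorem isB_root2 (F : MvPolynomial σ ℂ) (hF0 : F ≠ 0) (m : ℕ) (hm : 1 ≤ m) (b : Polynomial ℂ)
    (Q : Module.End ℂ (MvPolynomial σ ℂ)) (mQ : Q ∈ weylS σ)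
    (hQ : ∀ N : ℕ, C (b.eval (N : ℂ)) * F ^ (m * N) = Q (F ^ (m * N + 1))) :
    IsBFunction F (b.comp (Polynomial.C ((m : ℂ)⁻¹) * Polynomial.X)) := by
  classical
  have hm0 : (m : ℂ) ≠ 0 := Nat.cast_ne_zero.2 (by omega)
  obtain ⟨k, r, hr⟩ := act_pow F Q mQ (fun n => F ^ n) ⟨0, 1, fun n => by simp⟩
  set T : Polynomial (MvPolynomial σ ℂ) :=
    Polynomial.C (F ^ k) * ((b.map C).comp (Polynomial.C (C (m : ℂ)⁻¹) * Polynomial.X)) -
      (r.comp (Polynomial.X + Polynomial.C (1 : MvPolynomial σ ℂ)) * Polynomial.C F) with hT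
  have hTn : ∀ n : ℕ, F ^ k * (C (b.eval ((m : ℂ)⁻¹ * n)) * F ^ n - Q (F ^ (n + 1))) =
        F ^ n * T.eval (n : MvPolynomial σ ℂ) := by
    intro n
    have hnC : (n : MvPolynomial σ ℂ) = C (n : ℂ) := by simp
    have h1 : Polynomial.eval (n : MvPolynomial σ ℂ)
        ((b.map C).comp (Polynomial.C (C (m : ℂ)⁻¹) * Polynomial.X)) =
          C (b.eval ((m : ℂ)⁻¹ * n)) := by
      rw [Polynomial.eval_comp, Polynomial.eval_mul, Polynomial.eval_C, Polynomial.eval_X, hnC,
        ← C_mul, Polynomial.eval_map, Polynomial.eval₂_at_apply]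
    have h2 := hr (n + 1)
    beta_reduce at h2
    rw [hT, Polynomial.eval_sub, Polynomial.eval_mul, Polynomial.eval_C, h1,
      Polynomial.eval_mul, Polynomial.eval_C, Polynomial.eval_comp, Polynomial.eval_add,
      Polynomial.eval_X, Polynomial.eval_C]
    push_cast at h2
    rw [pow_succ] at h2
    rw [pow_succ F n]
    linear_combination -h2
  have hT0 : T = 0 := by
    apply Polynomial.eq_zero_of_infinite_isRoot
    refine Set.Infinite.mono ?_ (Set.infinite_range_of_injective
      (f := fun s : ℕ => ((m * s : ℕ) : MvPolynomial σ ℂ)) ?_)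
    · rintro _ ⟨s, rfl⟩
      have h1 := hTn (m * s)
      have h2 : C (b.eval ((m : ℂ)⁻¹ * ((m * s : ℕ) : ℂ))) * F ^ (m * s) -
          Q (F ^ (m * s + 1)) = 0 := by
        have h3 : (m : ℂ)⁻¹ * ((m * s : ℕ) : ℂ) = s := by
          push_cast
          field_simp
        rw [h3, hQ s, sub_self]
      rw [h2, mul_zero] at h1
      exact (mul_eq_zero.1 h1.symm).resolve_left (pow_ne_zero _ hF0)
    · intro x y hxy
      have := Nat.cast_injective (R := MvPolynomial σ ℂ) hxy
      exact Nat.eq_of_mul_eq_mul_left (by omega) this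
  refine ⟨Finsupp.single 0 ⟨Q, mQ⟩, fun n => ?_⟩
  rw [Finsupp.sum_single_index (by simp), pow_zero, one_smul]
  have h1 := hTn n
  rw [hT0, Polynomial.eval_zero, mul_zero] at h1
  have h2 := (mul_eq_zero.1 h1).resolve_left (pow_ne_zero _ hF0)
  rw [sub_eq_zero] at h2
  have h3 : (b.comp (Polynomial.C ((m : ℂ)⁻¹) * Polynomial.X)).eval (n : ℂ) =
      b.eval ((m : ℂ)⁻¹ * n) := by
    rw [Polynomial.eval_comp, Polynomial.eval_mul, Polynomial.eval_C, Polynomial.eval_X]
  rw [h3, h2]

end Root2

section Sub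

variable {ι : Type} [Fintype ι] [DecidableEq ι]

theorem exists_sub (d : ι →₀ ℕ) (n : ℕ) (hn : n ≤ ∑ j, d j) :
    ∃ e : ι →₀ ℕ, e ≤ d ∧ ∑ j, e j = n := by
  induction n with
  | zero => exact ⟨0, fun j => Nat.zero_le _, by simp⟩
  | succ n ih =>
    obtain ⟨e, h1, h2⟩ := ih (by omega)
    obtain ⟨j, hj⟩ : ∃ j, e j < d j := by
      by_contra h
      push Not at h
      have := Finset.sum_le_sum fun j (_ : j ∈ Finset.univ) => h j
      omega
    refine ⟨e + Finsupp.single j 1, fun i => ?_, ?_⟩
    · rw [Finsupp.add_apply]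
      by_cases hij : i = j
      · subst hij
        rw [Finsupp.single_eq_same]
        omega
      · rw [Finsupp.single_eq_of_ne hij, add_zero]
        exact h1 i
    · simp only [Finsupp.add_apply]
      rw [Finset.sum_add_distrib, h2]
      congr 1
      rw [Finset.sum_eq_single j]
      · rw [Finsupp.single_eq_same]
      · intro i _ hi
        rw [Finsupp.single_eq_of_ne hi]
      · intro h
        exact absurd (Finset.mem_univ _) h

end Sub

section Main

variable {σ ι : Type} [Fintype ι] [DecidableEq ι]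

/-- **A functional equation of the power of an ideal gives one of the ideal.** -/
theorem fe_root [DecidableEq σ] (f : ι → MvPolynomial σ ℂ) (hf : ∃ j, f j ≠ 0) (m : ℕ) (hm : 1 ≤ m)
    (b : Polynomial ℂ) (hb : IsFunctionalEq (fun J : Fin m → ι => ∏ i, f (J i)) b) :
    ∃ D : Polynomial ℂ, (∀ r : ℂ, (∀ q : ℚ, 0 ≤ q → r ≠ q) → D.eval r ≠ 0) ∧
      IsFunctionalEq f ((D * b).comp (Polynomial.C ((m : ℂ)⁻¹) * Polynomial.X)) := by
  classical
  have hm0 : (m : ℂ) ≠ 0 := Nat.cast_ne_zero.2 (by omega)
  obtain ⟨K, _, k, d, R, hd, h⟩ := fe_nf _ b hb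
  set S : K → ℕ := fun i => ∑ J, k i J with hS
  set L : ℕ := ∑ i, S i with hL
  have hSL : ∀ i, S i ≤ L := fun i =>
    Finset.single_le_sum (f := S) (fun _ _ => Nat.zero_le _) (Finset.mem_univ i)
  set D : Polynomial ℂ := (descPochhammer ℂ (m * L)).comp
    (Polynomial.C (m : ℂ) * Polynomial.X) with hD
  have hDev : ∀ x : ℂ, D.eval x = (descPochhammer ℂ (m * L)).eval (m * x) := by
    intro x
    rw [hD, Polynomial.eval_comp, Polynomial.eval_mul, Polynomial.eval_C, Polynomial.eval_X]
  set Di : K → Polynomial ℂ := fun i => (descPochhammer ℂ (m * (L - S i))).comp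
    (Polynomial.X - Polynomial.C ((m * S i : ℕ) : ℂ)) with hDi
  have hDD : ∀ i (N : ℕ), D.eval (N : ℂ) =
      (Di i).eval (m * N : ℂ) * ((m * N).descFactorial (m * S i) : ℂ) := by
    intro i N
    rw [hDev, ← descPochhammer_eval_eq_descFactorial ℂ (m * N) (m * S i)]
    have h1 : m * L = m * S i + m * (L - S i) := by
      rw [← mul_add, Nat.add_sub_cancel' (hSL i)]
    have h2 : (Di i).eval (m * N : ℂ) = (descPochhammer ℂ (m * (L - S i))).eval
        ((m * N : ℂ) - ((m * S i : ℕ) : ℂ)) := by
      rw [hDi]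
      beta_reduce
      rw [Polynomial.eval_comp, Polynomial.eval_sub, Polynomial.eval_X, Polynomial.eval_C]
    rw [h1, ← descPochhammer_mul, Polynomial.eval_mul, h2, Polynomial.eval_comp,
      Polynomial.eval_sub, Polynomial.eval_X, Polynomial.eval_natCast]
    push_cast
    ring
  choose e he1 he2 using fun i : K => exists_sub (tJ m (d i)) (m - 1) (by
    rw [sum_tJ, hd]
    have : m * 1 ≤ m * (∑ J, k i J + 1) := Nat.mul_le_mul_left m (by omega)
    omega)
  set d' : K → ι →₀ ℕ := fun i => tJ m (d i) - e i with hd'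
  have hed : ∀ i, e i + d' i = tJ m (d i) := fun i => add_tsub_cancel_of_le (he1 i)
  have hd'sum : ∀ i, ∑ j, d' i j = m * S i + 1 := by
    intro i
    have h1 : ∑ j, (e i + d' i) j = m * (S i + 1) := by rw [hed, sum_tJ, hd]
    simp only [Finsupp.add_apply] at h1
    rw [Finset.sum_add_distrib, he2, mul_add, mul_one] at h1
    omega
  -- the operator
  have hlift : Lift (fun (H : (ι →₀ ℕ) → MvPolynomial σ ℂ) α => ∑ i,
      evN α (polyN ((Di i * (descPochhammer ℂ (S i)).comp (Polynomial.C ((m : ℂ)⁻¹) *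
        Polynomial.X)))) •
        ((dfac α (tJ m (k i)) : ℂ) • (R i : Module.End ℂ (MvPolynomial σ ℂ))
          ((LinearMap.mulLeft ℂ (∏ j, f j ^ e i j) : Module.End ℂ (MvPolynomial σ ℂ))
            (H (α - tJ m (k i) + d' i))))) :=
    lift_sum Finset.univ _ fun i _ => lift_poly _ _ (lift_yd (tJ m (k i)) _
      (lift_weyl _ (R i).2 _ (lift_weyl _ (mulLeft_mem _) _ (lift_dyd (d' i) _ lift_id))))
  obtain ⟨Q, mQ, hQ⟩ := hlift
  set B : Polynomial ℂ := (Polynomial.C (m : ℂ) * Polynomial.X + 1) * (D * b) with hB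
  have hmain : ∀ N : ℕ, C (B.eval (N : ℂ)) * univ f ^ (m * N) = Q (univ f ^ (m * N + 1)) := by
    intro N
    apply hat_inj
    rw [hQ]
    funext α
    beta_reduce
    rw [hat_C_mul, hat_univ_pow]
    by_cases hα : ∑ j, α j = m * N
    · rw [if_pos hα]
      set Tm : K → MvPolynomial σ ℂ := fun i => (R i : Module.End ℂ (MvPolynomial σ ℂ))
        (∏ j, f j ^ (α - tJ m (k i) + tJ m (d i)) j) with hTm
      -- the terms on the right hand side
      have hterm : ∀ i, evN α (polyN ((Di i * (descPochhammer ℂ (S i)).comp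
          (Polynomial.C ((m : ℂ)⁻¹) * Polynomial.X)))) •
        ((dfac α (tJ m (k i)) : ℂ) • (R i : Module.End ℂ (MvPolynomial σ ℂ))
          ((LinearMap.mulLeft ℂ (∏ j, f j ^ e i j) : Module.End ℂ (MvPolynomial σ ℂ))
            (hat (univ f ^ (m * N + 1)) (α - tJ m (k i) + d' i)))) =
          (((m * N + 1).factorial : ℂ) * ((Di i).eval (m * N : ℂ) * (N.descFactorial (S i) : ℂ) *
            (dsc α (tJ m (k i)) : ℂ))) • Tm i := by
        intro i
        have h1 : evN α (polyN ((Di i * (descPochhammer ℂ (S i)).comp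
          (Polynomial.C ((m : ℂ)⁻¹) * Polynomial.X)))) =
            (Di i).eval (m * N : ℂ) * (N.descFactorial (S i) : ℂ) := by
          have h2 : ∀ x : ℂ, ((descPochhammer ℂ (S i)).comp (Polynomial.C ((m : ℂ)⁻¹) *
              Polynomial.X)).eval x = (descPochhammer ℂ (S i)).eval ((m : ℂ)⁻¹ * x) := by
            intro x
            rw [Polynomial.eval_comp, Polynomial.eval_mul, Polynomial.eval_C, Polynomial.eval_X]
          rw [evN_polyN, hα, Polynomial.eval_mul, h2]
          push_cast
          rw [inv_mul_cancel_left₀ hm0, descPochhammer_eval_eq_descFactorial]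
        rw [h1]
        have h2 : dfac α (tJ m (k i)) = dsc α (tJ m (k i)) := rfl
        rw [h2]
        by_cases h0 : dsc α (tJ m (k i)) = 0
        · rw [h0]
          simp
        · have hle := dsc_ne h0
          have h3 : ∑ j, (α - tJ m (k i) + d' i) j = m * N + 1 := by
            have h4 : ∑ j, (α - tJ m (k i) + tJ m (k i)) j = m * N := by
              rw [tsub_add_cancel_of_le hle, hα]
            simp only [Finsupp.add_apply] at h4 ⊢
            rw [Finset.sum_add_distrib, sum_tJ] at h4
            rw [Finset.sum_add_distrib, hd'sum]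
            have h5 : S i = ∑ J, k i J := rfl
            rw [h5]
            omega
          rw [hat_univ_pow, if_pos h3, LinearMap.mulLeft_apply, mul_smul_comm, map_smul,
            ← Finset.prod_mul_distrib]
          have h5 : (∏ j, (f j ^ e i j * f j ^ (α - tJ m (k i) + d' i) j)) =
              ∏ j, f j ^ (α - tJ m (k i) + tJ m (d i)) j := by
            refine Finset.prod_congr rfl fun j _ => ?_
            rw [← pow_add, ← hed i]
            congr 1
            simp only [Finsupp.add_apply]
            ring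
          rw [h5, hTm]
          simp only [smul_smul]
          congr 1
          ring
      rw [Finset.sum_congr rfl fun i _ => hterm i]
      -- the sum over the choices
      have hs : ∀ s ∈ FJ m N α, ((mfact s : ℕ) : ℂ)⁻¹ • (b.eval (N : ℂ) • ∏ j, f j ^ α j) =
          ∑ i, ((dsc s (k i) : ℂ) * ((mfact s : ℕ) : ℂ)⁻¹) • Tm i := by
        intro s hs
        rw [mem_FJ] at hs
        have h1 := h s
        rw [hs.1, ← prod_tJ, hs.2] at h1
        rw [h1, Finset.smul_sum]
        refine Finset.sum_congr rfl fun i _ => ?_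
        rw [smul_smul, mul_comm]
        by_cases h0 : dsc s (k i) = 0
        · rw [h0]
          simp
        · have hle := dsc_ne h0
          congr 1
          rw [hTm]
          beta_reduce
          congr 1
          rw [← prod_tJ, tJ_add]
          have h2 : tJ m (s - k i) = α - tJ m (k i) := by
            have h3 : tJ m (s - k i + k i) = α := by rw [tsub_add_cancel_of_le hle, hs.2]
            rw [tJ_add] at h3
            rw [← h3, add_tsub_cancel_right]
          rw [h2]
      have hsum := Finset.sum_congr rfl hs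
      rw [← Finset.sum_smul, Finset.sum_comm] at hsum
      simp only [← Finset.sum_smul] at hsum
      have hA : ∑ s ∈ FJ m N α, ((mfact s : ℕ) : ℂ)⁻¹ = AJ m N α := rfl
      rw [hA] at hsum
      have h6 := congrArg (fun G => D.eval (N : ℂ) • G) hsum
      beta_reduce at h6
      rw [Finset.smul_sum] at h6
      have h7 : ∀ i, D.eval (N : ℂ) • ((∑ s ∈ FJ m N α, (dsc s (k i) : ℂ) *
          ((mfact s : ℕ) : ℂ)⁻¹) • Tm i) = AJ m N α • (((Di i).eval (m * N : ℂ) *
            (N.descFactorial (S i) : ℂ) * (dsc α (tJ m (k i)) : ℂ)) • Tm i) := by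
        intro i
        rw [smul_smul, smul_smul]
        congr 1
        have h8 := AJ_dsc m hm N α hα (k i)
        rw [hDD i N]
        have h9 : S i = ∑ J, k i J := rfl
        rw [h9]
        linear_combination ((Di i).eval (m * N : ℂ)) * h8
      rw [Finset.sum_congr rfl fun i _ => h7 i, ← Finset.smul_sum] at h6
      have h8 : (D.eval (N : ℂ) * b.eval (N : ℂ)) • ∏ j, f j ^ α j =
          ∑ i, ((Di i).eval (m * N : ℂ) * (N.descFactorial (S i) : ℂ) *
            (dsc α (tJ m (k i)) : ℂ)) • Tm i := by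
        apply smul_right_injective (MvPolynomial σ ℂ) (AJ_ne m N α hα)
        beta_reduce
        rw [← h6]
        simp only [smul_smul]
        congr 1
        ring
      have h9 : ∀ i, (((m * N + 1).factorial : ℂ) * ((Di i).eval (m * N : ℂ) *
          (N.descFactorial (S i) : ℂ) * (dsc α (tJ m (k i)) : ℂ))) • Tm i =
            ((m * N + 1).factorial : ℂ) • (((Di i).eval (m * N : ℂ) *
          (N.descFactorial (S i) : ℂ) * (dsc α (tJ m (k i)) : ℂ)) • Tm i) := fun i =>
        (smul_smul _ _ _).symm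
      rw [Finset.sum_congr rfl fun i _ => h9 i, ← Finset.smul_sum, ← h8, smul_smul, smul_smul]
      congr 1
      rw [hB, Polynomial.eval_mul, Polynomial.eval_mul, Polynomial.eval_add, Polynomial.eval_mul,
        Polynomial.eval_C, Polynomial.eval_X, Polynomial.eval_one, Nat.factorial_succ]
      push_cast
      ring
    · rw [if_neg hα, smul_zero]
      symm
      refine Finset.sum_eq_zero fun i _ => ?_
      have h2 : dfac α (tJ m (k i)) = dsc α (tJ m (k i)) := rfl
      rw [h2]
      by_cases h0 : dsc α (tJ m (k i)) = 0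
      · rw [h0]
        simp
      · have hle := dsc_ne h0
        rw [hat_univ_pow, if_neg]
        · simp
        · intro h3
          apply hα
          have h4 : ∑ j, (α - tJ m (k i) + tJ m (k i)) j = ∑ j, α j := by
            rw [tsub_add_cancel_of_le hle]
          simp only [Finsupp.add_apply] at h3 h4
          rw [Finset.sum_add_distrib, sum_tJ] at h4
          rw [Finset.sum_add_distrib, hd'sum] at h3
          have h5 : S i = ∑ J, k i J := rfl
          rw [h5] at h3
          omega
  have h1 := isB_root2 (univ f) (univ_ne_zero f hf) m hm B Q mQ hmain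
  have h2 : B.comp (Polynomial.C ((m : ℂ)⁻¹) * Polynomial.X) = (Polynomial.X + 1) *
      (D * b).comp (Polynomial.C ((m : ℂ)⁻¹) * Polynomial.X) := by
    rw [hB, Polynomial.mul_comp]
    congr 1
    rw [Polynomial.add_comp, Polynomial.mul_comp, Polynomial.C_comp, Polynomial.X_comp,
      Polynomial.one_comp, ← mul_assoc, ← Polynomial.C_mul, mul_inv_cancel₀ hm0, Polynomial.C_1,
      one_mul]
  rw [h2] at h1
  obtain ⟨b', h4, h5⟩ := Pool.Agent.Y230.HS.functionalEq_of_univ_strong f _ hf h1
  have h6 : (Polynomial.X + 1 : Polynomial ℂ) ≠ 0 := by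
    have := Polynomial.X_add_C_ne_zero (1 : ℂ)
    rwa [map_one] at this
  rw [← mul_left_cancel₀ h6 h4] at h5
  refine ⟨D, fun r hr => ?_, h5⟩
  rw [hDev]
  intro h7
  rw [descPochhammer_eval_eq_prod_range, Finset.prod_eq_zero_iff] at h7
  obtain ⟨j, _, h8⟩ := h7
  refine hr ((j : ℚ) / m) (by positivity) ?_
  rw [sub_eq_zero] at h8
  push_cast
  rw [eq_div_iff hm0, ← h8]
  ring

end Main

end Pool.Agent.V7H20.MF
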