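import Pool.Agent.V7H20.MF.OpsCl
import Pool.Agent.V7H20.MF.Ip3
import Pool.Agent.Y229.PG.Main

set_option autoImplicit false
set_option linter.unusedSectionVars false
set_option linter.unusedVariables false

/-! # Powers of ideals, and destabilization: the classes -/

namespace Pool.Agent.V7H20.MF

open MvPolynomial Pool.Agent.W574.SM Pool.Agent.W574.CN Pool.Agent.W574.RO Pool.Agent.Y229
open Pool.Agent.W574.HS Pool.Agent.Y230.PS Pool.Agent.TH192.DT Pool.Agent.Y230.TH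
open Pool.Agent.H628R4.TP (IsBFunction weylS)
open Pool.Agent.Y229.RE (shiftZ shiftZ_poly unstab stab)

theorem ipow_cl (σ ι : Type) [Fintype ι] (f : ι → MvPolynomial σ ℂ) (m : ℕ) (hm : 1 ≤ m)
    (Z : RatFunc ℂ) (hZ : ∀ q : ℚ, 0 ≤ q → Z.denom.eval (q : ℂ) ≠ 0)
    (h : Cl ⊥ false ⟨σ, ι, f⟩ Z) :
    Cl ⊥ false ⟨σ, Fin m → ι, fun J => ∏ i, f (J i)⟩ (dil m Z) := by
  classical
  have hfin : Finite σ := h.fin
  obtain ⟨j0, hj0⟩ := h.ne
  have hm0 : (m : ℂ) ≠ 0 := Nat.cast_ne_zero.2 (by omega)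
  have hne : (∏ _i : Fin m, f j0) ≠ 0 := Finset.prod_ne_zero_iff.2 fun _ _ => hj0
  refine ⟨hfin, ⟨fun _ => j0, hne⟩, fun s hs =>
    ⟨0, AddSubmonoid.zero_mem _, ?_⟩, fun h1 => absurd h1 Bool.false_ne_true,
    fun h1 => absurd h1 Bool.false_ne_true⟩
  rw [sub_zero, fm_one]
  intro b hb
  have h1 := dil_pole m Z s hs
  obtain ⟨t, ht, h2⟩ := h.pole _ h1
  rw [AddSubmonoid.mem_bot] at ht
  rw [ht, sub_zero, fm_one] at h2
  obtain ⟨D, hD, hfe⟩ := fe_root f ⟨j0, hj0⟩ m hm b hb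
  have h3 := h2 _ hfe
  rw [Polynomial.eval_comp, Polynomial.eval_mul, Polynomial.eval_mul, Polynomial.eval_C,
    Polynomial.eval_X, inv_mul_cancel_left₀ hm0] at h3
  refine (mul_eq_zero.1 h3).resolve_left (hD s fun q hq hsq => ?_)
  subst hsq
  have h4 := hZ (m * q) (by positivity)
  push_cast at h4
  exact h4 h1

theorem shift_mem (k : ℕ) (Z : RatFunc ℂ) (s : ℂ) (h : Z ∈ Reg (s - k)) : shiftZ k Z ∈ Reg s := by
  obtain ⟨p, q, hq, rfl⟩ := h
  refine ⟨p.comp (Polynomial.X - Polynomial.C (k : ℂ)), q.comp (Polynomial.X - Polynomial.C (k : ℂ)),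
    ?_, ?_⟩
  · rwa [Polynomial.eval_comp, Polynomial.eval_sub, Polynomial.eval_X, Polynomial.eval_C]
  · rw [map_div₀, shiftZ_poly, shiftZ_poly]

theorem shift_X1 (k : ℕ) : shiftZ k (RatFunc.X + 1) = RatFunc.X - RatFunc.C (k : ℂ) + 1 := by
  have h1 : (RatFunc.X + 1 : RatFunc ℂ) = algebraMap (Polynomial ℂ) (RatFunc ℂ)
      (Polynomial.X + 1) := by
    rw [map_add, map_one, RatFunc.algebraMap_X]
  rw [h1, shiftZ_poly, Polynomial.add_comp, Polynomial.X_comp, Polynomial.one_comp, map_add,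
    map_sub, map_one, RatFunc.algebraMap_X, RatFunc.algebraMap_C]

theorem shf_eq (k : ℕ) (Z : RatFunc ℂ) : shf k Z = shiftZ k Z := by
  conv_rhs => rw [← RatFunc.num_div_denom Z, map_div₀, shiftZ_poly, shiftZ_poly]
  rfl

theorem unZ_eq (k : ℕ) (Z : RatFunc ℂ) : unZ k Z = unstab k 1 Z := by
  rw [unZ, unstab, if_pos rfl, shf_eq]

theorem unstab_cl (N k : ℕ) (f : MvPolynomial (Fin N) ℂ) (hf : f.totalDegree ≠ 0) (Z : RatFunc ℂ)
    (hk : (unstab k 1 Z).denom.eval (k : ℂ) ≠ 0)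
    (h : Cl ⊥ true ⟨Fin (N + (k + k)), Fin 1, fun _ => stab f k⟩ Z) :
    Cl ⊥ true ⟨Fin N, Fin 1, fun _ => f⟩ (unstab k 1 Z) := by
  classical
  have hf0 : f ≠ 0 := by
    rintro rfl
    exact hf totalDegree_zero
  have hb0 : ∀ b : Polynomial ℂ, IsFunctionalEq (fun _ : Fin 1 => f) b →
      ∃ c : Polynomial ℂ, b = (Polynomial.X + 1) * c ∧
        IsFunctionalEq (fun _ : Fin 1 => stab f k)
          ((Polynomial.X + 1) * c.comp (Polynomial.X + Polynomial.C (k : ℂ))) := by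
    intro b hb
    obtain ⟨h1, h2⟩ := Pool.Agent.Y229.PG.becomes_global hf (isB_of_single _ b hb)
      (k := k) (G := stab f k) ⟨AlgEquiv.refl, rfl⟩
    obtain ⟨c, hc⟩ := Polynomial.dvd_iff_isRoot.2 (show b.IsRoot (-1) from h1)
    rw [map_neg, map_one, sub_neg_eq_add] at hc
    exact ⟨c, hc, single_of_isB _ _ (h2 c hc)⟩
  set G : RatFunc ℂ := (RatFunc.X + 1) * Z with hG
  have hshift : (RatFunc.X - RatFunc.C (k : ℂ) + 1) * shiftZ k Z = shiftZ k G := by
    rw [hG, map_mul, shift_X1]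
  -- the root which belongs to a pole of `(s + 1) Z`
  have hroot : ∀ s : ℂ, G.denom.eval (s - k) = 0 → ∀ c : Polynomial ℂ,
      IsFunctionalEq (fun _ : Fin 1 => stab f k)
        ((Polynomial.X + 1) * c.comp (Polynomial.X + Polynomial.C (k : ℂ))) → c.eval s = 0 := by
    intro s hs c hc
    obtain ⟨t, ht, h1⟩ := h.ref rfl (s - k) hs
    rw [AddSubmonoid.mem_bot] at ht
    rw [ht, sub_zero, dl_eq] at h1
    have hX1 : (Polynomial.X + 1 : Polynomial ℂ) ≠ 0 := by
      have := Polynomial.X_add_C_ne_zero (1 : ℂ)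
      rwa [map_one] at this
    have h4 : (c.comp (Polynomial.X + Polynomial.C (k : ℂ))).eval (s - k) = c.eval s := by
      rw [Polynomial.eval_comp, Polynomial.eval_add, Polynomial.eval_X, Polynomial.eval_C,
        sub_add_cancel]
    rw [← h4]
    by_cases h2 : s - k = -1
    · rw [if_pos h2, h2] at h1
      have h3 := h1 _ hc
      rw [map_neg, map_one, sub_neg_eq_add] at h3
      have h5 : (1 + 1 : ℕ) = 2 := rfl
      rw [h5, pow_two] at h3
      have h6 := (mul_dvd_mul_iff_left hX1).1 h3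
      obtain ⟨q, hq⟩ := h6
      rw [h2, hq, Polynomial.eval_mul, Polynomial.eval_add, Polynomial.eval_X, Polynomial.eval_one]
      ring
    · rw [if_neg h2, add_zero] at h1
      have h3 := h1 _ hc
      rw [pow_one, Polynomial.dvd_iff_isRoot, Polynomial.IsRoot.def, Polynomial.eval_mul] at h3
      refine (mul_eq_zero.1 h3).resolve_left ?_
      rw [Polynomial.eval_add, Polynomial.eval_X, Polynomial.eval_one]
      intro h5
      exact h2 (eq_neg_of_add_eq_zero_left h5)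
  have hun : unstab k 1 Z = 1 - ((RatFunc.X - RatFunc.C (k : ℂ) + 1) - shiftZ k G) * RatFunc.X *
      (RatFunc.X - RatFunc.C (k : ℂ))⁻¹ * (RatFunc.X + 1)⁻¹ := by
    rw [unstab, if_pos rfl, ← hshift, mul_inv]
    ring
  have hXk : ∀ s : ℂ, s ≠ k → (RatFunc.X - RatFunc.C (k : ℂ) : RatFunc ℂ)⁻¹ ∈ Reg s := by
    intro s hs
    have := inv_reg s (-(k : ℂ)) (by rwa [neg_neg])
    rwa [map_neg, ← sub_eq_add_neg] at this
  have hreg : ∀ s : ℂ, G ∈ Reg (s - k) →
      ((RatFunc.X - RatFunc.C (k : ℂ) + 1) - shiftZ k G) * RatFunc.X ∈ Reg s := by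
    intro s hs
    refine (Reg s).mul_mem ((Reg s).sub_mem ((Reg s).add_mem ((Reg s).sub_mem (X_reg s)
      (Reg_C s _)) (Reg s).one_mem) (shift_mem k G s hs)) (X_reg s)
  have hpole : ∀ s : ℂ, (unstab k 1 Z).denom.eval s = 0 → FM (fun _ : Fin 1 => f) s 1 := by
    intro s hs
    rw [fm_one]
    intro b hb
    obtain ⟨c, rfl, hc⟩ := hb0 b hb
    rw [Polynomial.eval_mul, Polynomial.eval_add, Polynomial.eval_X, Polynomial.eval_one]
    by_cases h1 : s = -1
    · rw [h1]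
      ring
    · by_cases h2 : G.denom.eval (s - k) = 0
      · rw [hroot s h2 c hc, mul_zero]
      · exfalso
        have h3 : s ≠ k := by
          rintro rfl
          exact hk hs
        refine Reg_denom s _ ?_ hs
        rw [hun]
        exact (Reg s).sub_mem (Reg s).one_mem ((Reg s).mul_mem ((Reg s).mul_mem
          (hreg s (mem_Reg_of_denom _ _ h2)) (hXk s h3)) (X1_inv s h1))
  refine ⟨inferInstanceAs (Finite (Fin N)), ⟨0, hf0⟩, fun s hs => ⟨0, AddSubmonoid.zero_mem _, ?_⟩,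
    fun _ hs => hpole _ hs, fun _ s hs => ⟨0, AddSubmonoid.zero_mem _, ?_⟩⟩
  · rw [sub_zero]
    exact hpole s hs
  · rw [sub_zero, dl_eq]
    split_ifs with h1
    · subst h1
      intro b hb
      obtain ⟨c, rfl, hc⟩ := hb0 b hb
      have h2 : G.denom.eval (-1 - (k : ℂ)) = 0 := by
        by_contra h2
        refine Reg_denom (-1) _ ?_ hs
        have h3 : (RatFunc.X + 1) * unstab k 1 Z = (RatFunc.X + 1) -
            ((RatFunc.X - RatFunc.C (k : ℂ) + 1) - shiftZ k G) * RatFunc.X *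
              (RatFunc.X - RatFunc.C (k : ℂ))⁻¹ := by
          have hX1 : (RatFunc.X + 1 : RatFunc ℂ) ≠ 0 := X1_ne
          rw [hun]
          field_simp
        rw [h3]
        have h4 : (-1 : ℂ) ≠ k := by
          intro h5
          have h6 : ((k + 1 : ℕ) : ℂ) = 0 := by
            push_cast
            rw [← h5]
            ring
          exact Nat.cast_ne_zero.2 (Nat.succ_ne_zero k) h6
        exact (Reg (-1)).sub_mem (X1_reg _) ((Reg (-1)).mul_mem (hreg _ (mem_Reg_of_denom _ _ h2))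
          (hXk _ h4))
      have h3 := hroot (-1) h2 c hc
      rw [map_neg, map_one, sub_neg_eq_add]
      have h4 := Polynomial.dvd_iff_isRoot.2 (show c.IsRoot (-1) from h3)
      rw [map_neg, map_one, sub_neg_eq_add] at h4
      have h5 : (1 + 1 : ℕ) = 2 := rfl
      rw [h5, pow_two]
      exact mul_dvd_mul_left _ h4
    · rw [add_zero]
      exact hpole s (pole_of_ref _ s hs)

theorem unZ_cl (N k : ℕ) (f : MvPolynomial (Fin N) ℂ) (hf : f.totalDegree ≠ 0) (Z : RatFunc ℂ)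
    (hk : (unZ k Z).denom.eval (k : ℂ) ≠ 0)
    (h : Cl ⊥ true ⟨Fin (N + (k + k)), Fin 1, fun _ => addYZ f k⟩ Z) :
    Cl ⊥ true ⟨Fin N, Fin 1, fun _ => f⟩ (unZ k Z) := by
  rw [unZ_eq] at hk ⊢
  exact unstab_cl N k f hf Z hk h

end Pool.Agent.V7H20.MF
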