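import Pool.Agent.V7H20.MF.Flat
import Pool.Agent.V7H20.MF.OpsCl
import Pool.Agent.V7H20.MF.Unst
import Pool.Agent.Y230.TH.TopFin
import Pool.Agent.W574.HS.Minus

set_option autoImplicit false
set_option linter.unusedSectionVars false
set_option linter.unusedVariables false

/-! # The closure theorem -/

namespace Pool.Agent.V7H20.MF

open MvPolynomial Pool.Agent.W574.SM Pool.Agent.W574.CN Pool.Agent.W574.RO Pool.Agent.Y229
open Pool.Agent.W574.HS Pool.Agent.Y230.PS Pool.Agent.TH192.DT Pool.Agent.Y230.TH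
open Pool.Agent.H628R4.TP (IsBFunction weylS)

/-- the strong conjecture, in the form of the start library -/
theorem cl_of_strong (c : Bool) (A : Fam) (Z : RatFunc ℂ) (h : Strong c A Z) : Cl ⊥ c A Z where
  fin := h.fin
  ne := h.ne
  pole s hs := ⟨0, AddSubmonoid.zero_mem _, by
    rw [sub_zero, fm_one]
    exact fun b hb => h.pole s hs b hb⟩
  one _ hs := by
    rw [fm_one]
    exact fun b hb => h.pole _ hs b hb
  ref hc s hs := ⟨0, AddSubmonoid.zero_mem _, by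
    rw [sub_zero, dl_eq]
    split_ifs with h1
    · subst h1
      intro b hb
      have := h.double hc hs b hb
      rwa [map_neg, map_one, sub_neg_eq_add]
    · rw [add_zero, fm_one]
      exact fun b hb => h.pole s (pole_of_ref Z s hs) b hb⟩

theorem strong_of_cl (c : Bool) (A : Fam) (Z : RatFunc ℂ) (h : Cl ⊥ c A Z) : Strong c A Z where
  fin := h.fin
  ne := h.ne
  pole s hs b hb := by
    obtain ⟨t, ht, h1⟩ := h.pole s hs
    rw [AddSubmonoid.mem_bot] at ht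
    rw [ht, sub_zero, fm_one] at h1
    exact h1 b hb
  double hc hs b hb := by
    obtain ⟨t, ht, h1⟩ := h.ref hc (-1) hs
    rw [AddSubmonoid.mem_bot] at ht
    rw [ht, sub_zero, dl_eq, if_pos rfl] at h1
    have := h1 b hb
    rwa [map_neg, map_one, sub_neg_eq_add] at this

/-- the operations of the start library -/
theorem tt_cl (c : Bool) (A : Fam) (Z : RatFunc ℂ) (h : TT (Cl ⊥ false) (Cl ⊥ true) c A Z) :
    Cl ⊥ c A Z :=
  tt_closure ⊥ (Cl ⊥ false) (Cl ⊥ true) (fun A Z h => ⟨h.fin, h.ne, fun s hs => by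
    obtain ⟨t, ht, h1⟩ := h.pole s hs
    exact ⟨t, ht, (fm_one _ _).1 h1⟩⟩) (fun A Z h => h) c A Z h

theorem tt_atom (c : Bool) (A : Fam) (Z : RatFunc ℂ) (h : Cl ⊥ c A Z) :
    TT (Cl ⊥ false) (Cl ⊥ true) c A Z := by
  cases c with
  | false => exact TT.atom A Z h
  | true => exact TT.hatom A Z h

section Form

variable {σ τ B : Type} [Fintype τ] [DecidableEq τ] [Fintype B] [DecidableEq B]
  {κ : B → Type} [∀ b, Fintype (κ b)] [∀ b, DecidableEq (κ b)]

theorem subForm_zero (w : τ → B → ℕ) (f : (b : B) → κ b → MvPolynomial σ ℂ)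
    (Φ : MvPolynomial τ ℂ) (h0 : coeff 0 Φ = 0) : ¬ subForm w f Φ ∣ 1 := by
  rintro ⟨G, hG⟩
  set ε : MvPolynomial ((Σ t, Ch κ (w t)) ⊕ σ) ℂ →ₐ[ℂ] MvPolynomial σ ℂ :=
    aeval (Sum.elim (fun _ => 0) X) with hε
  have h1 := congrArg ε hG
  rw [map_one, map_mul] at h1
  have h2 : ε (subForm w f Φ) = 0 := by
    rw [subForm, ← AlgHom.comp_apply, comp_aeval]
    have h3 : (fun t => ε (blockForm (fP w f) t)) = fun _ => 0 := by
      funext t
      rw [blockForm, map_sum]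
      refine Finset.sum_eq_zero fun j _ => ?_
      rw [map_mul, hε, aeval_X, Sum.elim_inl, zero_mul]
    rw [h3]
    have h4 : (aeval (fun _ : τ => (0 : MvPolynomial σ ℂ)) Φ : MvPolynomial σ ℂ) =
        C (constantCoeff Φ) := by
      rw [aeval_zero']
      rfl
    rw [h4, constantCoeff_eq, h0, C_0]
  rw [h2, zero_mul] at h1
  exact one_ne_zero h1

/-- the ideal -/
theorem form_ideal [Nonempty B] (w : τ → B → ℕ) (f : (b : B) → κ b → MvPolynomial σ ℂ)
    (a : B → ℕ) (ha : ∀ b, 1 ≤ a b) (Φ : MvPolynomial τ ℂ) (hΦ0 : Φ ≠ 0)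
    (hΦ : ∀ m : τ →₀ ℕ, coeff m Φ ≠ 0 → ∀ b, wsum w m b = a b)
    (hf : ∀ t, ∃ j, fP w f t j ≠ 0) (b : Polynomial ℂ)
    (hb : IsFunctionalEq (fun _ : Fin 1 => subForm w f Φ) b) :
    subForm w f Φ ≠ 0 ∧ ∃ b' D : Polynomial ℂ, b = (Polynomial.X + 1) * b' ∧
      (∀ r : ℂ, (∀ q : ℚ, 0 ≤ q → r ≠ q) → D.eval r ≠ 0) ∧
      IsFunctionalEq (powFam a f).f (D * b') := by
  classical
  obtain ⟨b0⟩ := (inferInstance : Nonempty B)
  have hco : coeff 0 Φ = 0 := by
    by_contra h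
    have h1 := hΦ 0 h b0
    have h2 := ha b0
    simp [wsum] at h1
    omega
  obtain ⟨S, hS⟩ := exists_sec (fP w f) hf
  have hF0 : subForm w f Φ ≠ 0 := by
    intro h
    apply hΦ0
    have h1 : S (subForm w f Φ) = Φ := by
      rw [subForm, ← AlgHom.comp_apply, comp_aeval]
      have : (fun t => S (blockForm (fP w f) t)) = X := funext hS
      rw [this, aeval_X_left_apply]
    rw [← h1, h, map_zero]
  refine ⟨hF0, ?_⟩
  have hb1 := isB_of_single _ b hb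
  obtain ⟨P, hP⟩ := hb1
  have h1 : b.eval (-1) = 0 := minus_one (subForm w f Φ) 1 hF0 (subForm_zero w f Φ hco) b P
    fun s => by rw [one_mul]; exact hP s
  obtain ⟨b', hb'⟩ := Polynomial.dvd_iff_isRoot.2 (show b.IsRoot (-1) from h1)
  rw [map_neg, map_one, sub_neg_eq_add] at hb'
  obtain ⟨u, v, hT⟩ := exists_top Φ hΦ0
  obtain ⟨D, hD, hfe⟩ := fe_of_form w f Φ a hΦ ⟨b0, by have := ha b0; omega⟩ u v hT b b' hb'
    (isB_of_single _ b hb)
  exact ⟨b', D, hb', hD, fe_flat w f v a (hΦ v hT.ne) _ hfe⟩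

/-- **Weighted homogeneous polynomials in universal forms.** -/
theorem form_cl [Nonempty B] (c : Bool) (w : τ → B → ℕ) (f : (b : B) → κ b → MvPolynomial σ ℂ)
    (a : B → ℕ) (ha : ∀ b, 1 ≤ a b) (Φ : MvPolynomial τ ℂ)
    (hΦ : ∀ m : τ →₀ ℕ, coeff m Φ ≠ 0 → ∀ b, wsum w m b = a b) (Z W : RatFunc ℂ)
    (hZ : ∀ q : ℚ, 0 ≤ q → Z.denom.eval (q : ℂ) ≠ 0) (hI : Cl ⊥ false (powFam a f) Z)
    (hP : Cl ⊥ c ⟨τ, Fin 1, fun _ => Φ⟩ W) :
    Cl ⊥ c ⟨(Σ t, Ch κ (w t)) ⊕ σ, Fin 1, fun _ => subForm w f Φ⟩ (Z * W) := by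
  classical
  have hfin : Finite σ := hI.fin
  have hf : ∀ b, ∃ j, f b j ≠ 0 := powFam_ne a ha f hI.ne
  choose j0 hj0 using hf
  have hfP : ∀ t, ∃ J, fP w f t J ≠ 0 := fun t =>
    ⟨fun q => j0 q.1, Finset.prod_ne_zero_iff.2 fun q _ => hj0 q.1⟩
  have hΦ0 : Φ ≠ 0 := by
    obtain ⟨j, hj⟩ := hP.ne
    exact hj
  -- the two kinds of roots
  have hI1 : ∀ s : ℂ, Z.denom.eval s = 0 → ∀ b : Polynomial ℂ,
      IsFunctionalEq (fun _ : Fin 1 => subForm w f Φ) b →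
        ∃ b' : Polynomial ℂ, b = (Polynomial.X + 1) * b' ∧ b'.eval s = 0 := by
    intro s hs b hb
    obtain ⟨_, b', D, h1, h2, h3⟩ := form_ideal w f a ha Φ hΦ0 hΦ hfP b hb
    refine ⟨b', h1, ?_⟩
    obtain ⟨t, ht, h4⟩ := hI.pole s hs
    rw [AddSubmonoid.mem_bot] at ht
    rw [ht, sub_zero, fm_one] at h4
    have h5 := h4 _ h3
    rw [Polynomial.eval_mul] at h5
    refine (mul_eq_zero.1 h5).resolve_left (h2 s fun q hq hsq => ?_)
    subst hsq
    exact hZ q hq hs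
  have hP1 : ∀ (s : ℂ) (m : ℕ), FM (fun _ : Fin 1 => Φ) s m →
      FM (fun _ : Fin 1 => subForm w f Φ) s m := by
    intro s m hm b hb
    exact hm b (single_of_isB _ b (isB_of_form (fP w f) hfP Φ b (isB_of_single _ b hb)))
  have hpole : ∀ s : ℂ, (Z * W).denom.eval s = 0 → Z.denom.eval s = 0 ∨ W.denom.eval s = 0 := by
    intro s hs
    by_contra hne
    push Not at hne
    exact Reg_denom s _ ((Reg s).mul_mem (mem_Reg_of_denom _ _ hne.1)
      (mem_Reg_of_denom _ _ hne.2)) hs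
  have hm1 : ∀ s : ℂ, (Z * W).denom.eval s = 0 →
      FM (fun _ : Fin 1 => subForm w f Φ) s 1 := by
    intro s hs
    rcases hpole s hs with h1 | h1
    · intro b hb
      obtain ⟨b', h2, h3⟩ := hI1 s h1 b hb
      rw [pow_one, h2]
      exact Dvd.dvd.mul_left (Polynomial.dvd_iff_isRoot.2 h3) _
    · obtain ⟨t, ht, h2⟩ := hP.pole s h1
      rw [AddSubmonoid.mem_bot] at ht
      rw [ht, sub_zero] at h2
      exact hP1 s 1 h2
  refine ⟨inferInstanceAs (Finite ((Σ t, Ch κ (w t)) ⊕ σ)), ⟨0, ?_⟩, fun s hs =>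
    ⟨0, AddSubmonoid.zero_mem _, by rw [sub_zero]; exact hm1 s hs⟩, fun _ hs => hm1 _ hs,
    fun hc s hs => ⟨0, AddSubmonoid.zero_mem _, ?_⟩⟩
  · change subForm w f Φ ≠ 0
    obtain ⟨S, hS⟩ := exists_sec (fP w f) hfP
    intro h
    apply hΦ0
    have h1 : S (subForm w f Φ) = Φ := by
      rw [subForm, ← AlgHom.comp_apply, comp_aeval]
      have : (fun t => S (blockForm (fP w f) t)) = X := funext hS
      rw [this, aeval_X_left_apply]
    rw [← h1, h, map_zero]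
  · rw [sub_zero, dl_eq]
    split_ifs with h1
    · subst h1
      by_cases hZ1 : Z.denom.eval (-1) = 0
      · intro b hb
        obtain ⟨b', h2, h3⟩ := hI1 (-1) hZ1 b hb
        rw [h2, map_neg, map_one, sub_neg_eq_add]
        have h4 := Polynomial.dvd_iff_isRoot.2 (show b'.IsRoot (-1) from h3)
        rw [map_neg, map_one, sub_neg_eq_add] at h4
        have h5 : (1 + 1 : ℕ) = 2 := rfl
        rw [h5, pow_two]
        exact mul_dvd_mul_left _ h4
      · have h2 : ((RatFunc.X + 1) * W).denom.eval (-1) = 0 := by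
          by_contra h3
          refine Reg_denom (-1) _ ?_ hs
          have h4 := (Reg (-1)).mul_mem (mem_Reg_of_denom _ _ hZ1) (mem_Reg_of_denom _ _ h3)
          have e : Z * ((RatFunc.X + 1) * W) = (RatFunc.X + 1) * (Z * W) := by ring
          rwa [e] at h4
        obtain ⟨t, ht, h3⟩ := hP.ref hc (-1) h2
        rw [AddSubmonoid.mem_bot] at ht
        rw [ht, sub_zero, dl_eq, if_pos rfl] at h3
        exact hP1 (-1) _ h3
    · rw [add_zero]
      exact hm1 s (pole_of_ref _ s hs)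

end Form

/-- **Polynomial automorphisms.** -/
theorem auto_cl (c : Bool) (σ ι : Type) [Fintype ι] (f : ι → MvPolynomial σ ℂ) (Z : RatFunc ℂ)
    (θ : MvPolynomial σ ℂ ≃ₐ[ℂ] MvPolynomial σ ℂ) (h : Cl ⊥ c ⟨σ, ι, f⟩ Z) :
    Cl ⊥ c ⟨σ, ι, fun j => θ (f j)⟩ Z := by
  classical
  have hfin : Finite σ := h.fin
  have : Fintype σ := Fintype.ofFinite σ
  have hU : ∀ p, θ p = aeval (fun i => θ (X i)) p := fun p =>
    congrArg (fun φ : MvPolynomial σ ℂ →ₐ[ℂ] MvPolynomial σ ℂ => φ p)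
      (MvPolynomial.algHom_ext (f := (θ : MvPolynomial σ ℂ →ₐ[ℂ] MvPolynomial σ ℂ))
        (g := aeval (fun i => θ (X i))) fun i => by rw [aeval_X]; rfl)
  have hW : ∀ Q : Module.End ℂ (MvPolynomial σ ℂ), Q ∈ weyl σ →
      ∃ R : weyl σ, ∀ p, (R : Module.End ℂ (MvPolynomial σ ℂ)) p = θ.symm (Q (θ p)) := by
    intro Q hQ
    have h1 : (aeval (fun i => θ (X i)) : MvPolynomial σ ℂ →ₐ[ℂ] MvPolynomial σ ℂ).toLinearMap ∈
        Rg (fun i => θ (X i)) := by
      have h1 := rg_gen (fun i => θ (X i)) 1 1 (weylS σ).one_mem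
      have h2 : (LinearMap.mulLeft ℂ (1 : MvPolynomial σ ℂ)) ∘ₗ
          (aeval (fun i => θ (X i))).toLinearMap ∘ₗ (1 : Module.End ℂ (MvPolynomial σ ℂ)) =
            (aeval (fun i => θ (X i)) : MvPolynomial σ ℂ →ₐ[ℂ] MvPolynomial σ ℂ).toLinearMap := by
        apply LinearMap.ext
        intro G
        simp only [LinearMap.comp_apply, LinearMap.mulLeft_apply, one_mul]
        rfl
      rwa [h2] at h1
    refine ⟨⟨_, rg_section (fun i => θ (X i)) (θ.symm : MvPolynomial σ ℂ →ₐ[ℂ] MvPolynomial σ ℂ)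
      (fun i => θ.symm_apply_apply _) _ (rg_weyl _ Q hQ _ h1)⟩, fun p => ?_⟩
    change θ.symm (Q (aeval (fun i => θ (X i)) p)) = _
    rw [hU]
  have hFM : ∀ (r : ℂ) (m : ℕ), FM f r m → FM (fun j => θ (f j)) r m := fun r m hm b hb =>
    hm b (functionalEq_auto θ hW f b hb)
  refine ⟨hfin, ?_, fun s hs => ?_, fun hc hs => hFM _ _ (h.one hc hs), fun hc s hs => ?_⟩
  · obtain ⟨j, hj⟩ := h.ne
    refine ⟨j, fun h0 => hj ?_⟩
    exact θ.injective (h0.trans (map_zero θ).symm)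
  · obtain ⟨t, ht, h1⟩ := h.pole s hs
    exact ⟨t, ht, hFM _ _ h1⟩
  · obtain ⟨t, ht, h1⟩ := h.ref hc s hs
    exact ⟨t, ht, hFM _ _ h1⟩

/-- **The closure theorem.** -/
theorem ft_closure (At HAt : Fam → RatFunc ℂ → Prop) (hAt : ∀ A Z, At A Z → Cl ⊥ false A Z)
    (hHAt : ∀ A Z, HAt A Z → Cl ⊥ true A Z) (c : Bool) (A : Fam) (Z : RatFunc ℂ)
    (h : FT At HAt c A Z) : Cl ⊥ c A Z := by
  induction h with
  | atom A Z h => exact hAt A Z h
  | hatom A Z h => exact hHAt A Z h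
  | hyp A Z h ih => exact tt_cl _ _ _ (TT.hyp A Z (tt_atom _ _ _ ih))
  | sum A B Z W v w hv hw hv0 hw0 hA hB ihA ihB =>
    exact tt_cl _ _ _ (TT.sum A B Z W v w hv hw hv0 hw0 (tt_atom _ _ _ ihA) (tt_atom _ _ _ ihB))
  | mul c A B Z W hA hB ihA ihB =>
    exact tt_cl _ _ _ (TT.mul c A B Z W (tt_atom _ _ _ ihA) (tt_atom _ _ _ ihB))
  | univ A Z hA ihA => exact tt_cl _ _ _ (TT.univ A Z (tt_atom _ _ _ ihA))
  | ts A τ g Z W v w c hv hw hv0 hw0 hA hg ihA ihg =>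
    exact tt_cl _ _ _ (TT.ts A τ g Z W v w c hv hw hv0 hw0 (tt_atom _ _ _ ihA)
      (tt_atom _ _ _ ihg))
  | form c σ τ B κ f w a ha Φ hΦ Z W hZ hI hP ihI ihP =>
    exact form_cl c w f a ha Φ hΦ Z W hZ ihI ihP
  | auto c σ ι f Z θ h ih => exact auto_cl c σ ι f Z θ ih
  | gens c σ ι ι' f g hfg Z h ih => exact gens_cl c σ ι ι' f g hfg Z ih
  | pow c σ F m hm Z hc h ih => exact pow_cl c σ F m hm Z hc ih
  | ipow σ ι f m hm Z hZ h ih => exact ipow_cl σ ι f m hm Z hZ ih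
  | unstab N k f hf Z hk h ih => exact unZ_cl N k f hf Z hk ih
  | drop σ κ g Z h ih => exact tt_cl _ _ _ (TT.drop σ κ g Z (tt_atom _ _ _ ih))
  | equiv c A B i k h Z hA ihA => exact tt_cl _ _ _ (TT.equiv c A B i k h Z (tt_atom _ _ _ ihA))

/-- **The strong monodromy conjecture is stable under the operations.** -/
theorem strong_closure (c : Bool) (A : Fam) (Z : RatFunc ℂ)
    (h : FT (Strong false) (Strong true) c A Z) : Strong c A Z :=
  strong_of_cl c A Z (ft_closure _ _ (fun A Z h => cl_of_strong _ A Z h)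
    (fun A Z h => cl_of_strong _ A Z h) c A Z h)

end Pool.Agent.V7H20.MF
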