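import Pool.Agent.TH192.DT.Multi

set_option autoImplicit false
set_option linter.unusedSectionVars false
set_option linter.unusedVariables false

/-! # Compositions with maps which have a section

Let `U : ℂ ^ ρ → ℂ ^ τ` be a polynomial map with a polynomial section. A functional equation of
`Φ ∘ U` gives a functional equation of `Φ`, with the same `b`. -/

namespace Pool.Agent.V7H20.MF

open MvPolynomial Pool.Agent.H628R4.TP Pool.Agent.TH192.DT

section Chain

variable {ρ τ : Type} [Fintype τ] [DecidableEq τ]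

/-- the chain rule -/
theorem pderiv_comp (U : τ → MvPolynomial ρ ℂ) (i : ρ) (G : MvPolynomial τ ℂ) :
    pderiv i (aeval U G) = ∑ t, pderiv i (U t) * aeval U (pderiv t G) := by
  induction G using MvPolynomial.induction_on with
  | C a =>
    rw [aeval_C, MvPolynomial.algebraMap_eq, pderiv_C]
    symm
    refine Finset.sum_eq_zero fun t _ => ?_
    rw [pderiv_C, map_zero, mul_zero]
  | add p q hp hq =>
    rw [map_add, map_add, hp, hq, ← Finset.sum_add_distrib]
    refine Finset.sum_congr rfl fun t _ => ?_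
    rw [map_add, map_add, mul_add]
  | mul_X p j hp =>
    rw [map_mul, aeval_X, Derivation.leibniz, hp, smul_eq_mul, smul_eq_mul]
    have h1 : ∀ t, pderiv i (U t) * aeval U (pderiv t (p * X j)) =
        (if t = j then pderiv i (U t) * aeval U p else 0) +
          U j * (pderiv i (U t) * aeval U (pderiv t p)) := by
      intro t
      rw [Derivation.leibniz, map_add, smul_eq_mul, smul_eq_mul, map_mul, map_mul, aeval_X]
      by_cases h : t = j
      · subst h
        rw [pderiv_X_self, map_one, if_pos rfl]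
        ring
      · rw [pderiv_X_of_ne (Ne.symm h), map_zero, if_neg h]
        ring
    simp only [h1]
    rw [Finset.sum_add_distrib, Finset.sum_ite_eq' Finset.univ j, if_pos (Finset.mem_univ j),
      ← Finset.mul_sum]
    ring

/-- the maps `G ↦ p (R G)(U)`, `R` in the Weyl algebra, and their sums -/
noncomputable def Rg (U : τ → MvPolynomial ρ ℂ) :
    Submodule ℂ (MvPolynomial τ ℂ →ₗ[ℂ] MvPolynomial ρ ℂ) :=
  Submodule.span ℂ {E | ∃ (p : MvPolynomial ρ ℂ) (R : Module.End ℂ (MvPolynomial τ ℂ)),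
    R ∈ weylS τ ∧ E = (LinearMap.mulLeft ℂ p) ∘ₗ (aeval U).toLinearMap ∘ₗ R}

theorem rg_gen (U : τ → MvPolynomial ρ ℂ) (p : MvPolynomial ρ ℂ)
    (R : Module.End ℂ (MvPolynomial τ ℂ)) (hR : R ∈ weylS τ) :
    (LinearMap.mulLeft ℂ p) ∘ₗ (aeval U).toLinearMap ∘ₗ R ∈ Rg U :=
  Submodule.subset_span ⟨p, R, hR, rfl⟩

theorem rg_mul (U : τ → MvPolynomial ρ ℂ) (q : MvPolynomial ρ ℂ)
    (E : MvPolynomial τ ℂ →ₗ[ℂ] MvPolynomial ρ ℂ) (hE : E ∈ Rg U) :
    (LinearMap.mulLeft ℂ q) ∘ₗ E ∈ Rg U := by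
  induction hE using Submodule.span_induction with
  | mem E hE =>
    obtain ⟨p, R, hR, rfl⟩ := hE
    have : (LinearMap.mulLeft ℂ q) ∘ₗ ((LinearMap.mulLeft ℂ p) ∘ₗ (aeval U).toLinearMap ∘ₗ R) =
        (LinearMap.mulLeft ℂ (q * p)) ∘ₗ (aeval U).toLinearMap ∘ₗ R := by
      apply LinearMap.ext
      intro G
      simp only [LinearMap.comp_apply, LinearMap.mulLeft_apply]
      ring
    rw [this]
    exact rg_gen U _ R hR
  | zero => rw [LinearMap.comp_zero]; exact Submodule.zero_mem _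
  | add E F _ _ h h' => rw [LinearMap.comp_add]; exact Submodule.add_mem _ h h'
  | smul r E _ h => rw [LinearMap.comp_smul]; exact Submodule.smul_mem _ _ h

theorem rg_der (U : τ → MvPolynomial ρ ℂ) (i : ρ)
    (E : MvPolynomial τ ℂ →ₗ[ℂ] MvPolynomial ρ ℂ) (hE : E ∈ Rg U) :
    ((pderiv i : Derivation ℂ (MvPolynomial ρ ℂ) (MvPolynomial ρ ℂ)) :
      MvPolynomial ρ ℂ →ₗ[ℂ] MvPolynomial ρ ℂ) ∘ₗ E ∈ Rg U := by
  induction hE using Submodule.span_induction with
  | mem E hE =>
    obtain ⟨p, R, hR, rfl⟩ := hE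
    have : ((pderiv i : Derivation ℂ (MvPolynomial ρ ℂ) (MvPolynomial ρ ℂ)) :
        MvPolynomial ρ ℂ →ₗ[ℂ] MvPolynomial ρ ℂ) ∘ₗ
          ((LinearMap.mulLeft ℂ p) ∘ₗ (aeval U).toLinearMap ∘ₗ R) =
        (LinearMap.mulLeft ℂ (pderiv i p)) ∘ₗ (aeval U).toLinearMap ∘ₗ R +
          ∑ t, (LinearMap.mulLeft ℂ (p * pderiv i (U t))) ∘ₗ (aeval U).toLinearMap ∘ₗ
            (((pderiv t : Derivation ℂ (MvPolynomial τ ℂ) (MvPolynomial τ ℂ)) :
              MvPolynomial τ ℂ →ₗ[ℂ] MvPolynomial τ ℂ) * R) := by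
      apply LinearMap.ext
      intro G
      rw [LinearMap.add_apply, LinearMap.sum_apply]
      simp only [LinearMap.comp_apply, LinearMap.mulLeft_apply, Derivation.coeFn_coe,
        AlgHom.toLinearMap_apply, Module.End.mul_apply]
      rw [Derivation.leibniz, pderiv_comp, smul_eq_mul, smul_eq_mul, Finset.mul_sum]
      rw [add_comm]
      congr 1
      · ring
      · refine Finset.sum_congr rfl fun t _ => ?_
        ring
    rw [this]
    refine Submodule.add_mem _ (rg_gen U _ R hR) (Submodule.sum_mem _ fun t _ => ?_)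
    exact rg_gen U _ _ ((weylS τ).mul_mem (Algebra.subset_adjoin (Or.inr ⟨t, rfl⟩)) hR)
  | zero => rw [LinearMap.comp_zero]; exact Submodule.zero_mem _
  | add E F _ _ h h' => rw [LinearMap.comp_add]; exact Submodule.add_mem _ h h'
  | smul r E _ h => rw [LinearMap.comp_smul]; exact Submodule.smul_mem _ _ h

theorem rg_weyl (U : τ → MvPolynomial ρ ℂ) (Q : Module.End ℂ (MvPolynomial ρ ℂ))
    (hQ : Q ∈ weylS ρ) : ∀ E ∈ Rg U, Q ∘ₗ E ∈ Rg U := by
  induction hQ using Algebra.adjoin_induction with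
  | mem Q hQ =>
    intro E hE
    rcases hQ with ⟨i, rfl⟩ | ⟨i, rfl⟩
    · exact rg_mul U _ E hE
    · exact rg_der U i E hE
  | algebraMap r =>
    intro E hE
    have : (algebraMap ℂ (Module.End ℂ (MvPolynomial ρ ℂ)) r) ∘ₗ E = r • E := by
      apply LinearMap.ext
      intro G
      rfl
    rw [this]
    exact Submodule.smul_mem _ _ hE
  | add Q1 Q2 _ _ h1 h2 =>
    intro E hE
    rw [LinearMap.add_comp]
    exact Submodule.add_mem _ (h1 E hE) (h2 E hE)
  | mul Q1 Q2 _ _ h1 h2 =>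
    intro E hE
    have : (Q1 * Q2) ∘ₗ E = Q1 ∘ₗ (Q2 ∘ₗ E) := rfl
    rw [this]
    exact h1 _ (h2 E hE)

/-- after the section the maps are in the Weyl algebra -/
theorem rg_section (U : τ → MvPolynomial ρ ℂ) (S : MvPolynomial ρ ℂ →ₐ[ℂ] MvPolynomial τ ℂ)
    (hS : ∀ t, S (U t) = X t) (E : MvPolynomial τ ℂ →ₗ[ℂ] MvPolynomial ρ ℂ) (hE : E ∈ Rg U) :
    S.toLinearMap ∘ₗ E ∈ weylS τ := by
  have hSU : ∀ G, S (aeval U G) = G := by
    intro G
    rw [← AlgHom.comp_apply, comp_aeval]
    have : (fun t => S (U t)) = X := funext hS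
    rw [this, aeval_X_left_apply]
  have hmul : ∀ q : MvPolynomial τ ℂ, (LinearMap.mulLeft ℂ q : Module.End ℂ (MvPolynomial τ ℂ)) ∈
      weylS τ := by
    intro q
    induction q using MvPolynomial.induction_on with
    | C a =>
      have : (LinearMap.mulLeft ℂ (C a : MvPolynomial τ ℂ) : Module.End ℂ (MvPolynomial τ ℂ)) =
          algebraMap ℂ _ a := by
        apply LinearMap.ext
        intro G
        rw [LinearMap.mulLeft_apply, Module.algebraMap_end_apply, C_mul']
      rw [this]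
      exact (weylS τ).algebraMap_mem a
    | add p q hp hq =>
      have : (LinearMap.mulLeft ℂ (p + q) : Module.End ℂ (MvPolynomial τ ℂ)) =
          LinearMap.mulLeft ℂ p + LinearMap.mulLeft ℂ q := by
        apply LinearMap.ext
        intro G
        simp only [LinearMap.mulLeft_apply, LinearMap.add_apply, add_mul]
      rw [this]
      exact (weylS τ).add_mem hp hq
    | mul_X p j hp =>
      have : (LinearMap.mulLeft ℂ (p * X j) : Module.End ℂ (MvPolynomial τ ℂ)) =
          LinearMap.mulLeft ℂ p * LinearMap.mulLeft ℂ (X j) := by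
        apply LinearMap.ext
        intro G
        simp only [LinearMap.mulLeft_apply, Module.End.mul_apply, mul_assoc]
      rw [this]
      exact (weylS τ).mul_mem hp (Algebra.subset_adjoin (Or.inl ⟨j, rfl⟩))
  induction hE using Submodule.span_induction with
  | mem E hE =>
    obtain ⟨p, R, hR, rfl⟩ := hE
    have : S.toLinearMap ∘ₗ ((LinearMap.mulLeft ℂ p) ∘ₗ (aeval U).toLinearMap ∘ₗ R) =
        (LinearMap.mulLeft ℂ (S p) : Module.End ℂ (MvPolynomial τ ℂ)) * R := by
      apply LinearMap.ext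
      intro G
      simp only [LinearMap.comp_apply, LinearMap.mulLeft_apply, AlgHom.toLinearMap_apply, map_mul,
        Module.End.mul_apply, hSU]
    rw [this]
    exact (weylS τ).mul_mem (hmul _) hR
  | zero => rw [LinearMap.comp_zero]; exact (weylS τ).zero_mem
  | add E F _ _ h h' => rw [LinearMap.comp_add]; exact (weylS τ).add_mem h h'
  | smul r E _ h =>
    rw [LinearMap.comp_smul]
    exact (weylS τ).smul_mem h r

/-- **A functional equation of `Φ ∘ U` gives one of `Φ`** if `U` has a section. -/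
theorem isB_of_section (U : τ → MvPolynomial ρ ℂ)
    (S : MvPolynomial ρ ℂ →ₐ[ℂ] MvPolynomial τ ℂ) (hS : ∀ t, S (U t) = X t)
    (Φ : MvPolynomial τ ℂ) (b : Polynomial ℂ) (hb : IsBFunction (aeval U Φ) b) :
    IsBFunction Φ b := by
  classical
  have hSU : ∀ G, S (aeval U G) = G := by
    intro G
    rw [← AlgHom.comp_apply, comp_aeval]
    have : (fun t => S (U t)) = X := funext hS
    rw [this, aeval_X_left_apply]
  have hid : (aeval U : MvPolynomial τ ℂ →ₐ[ℂ] MvPolynomial ρ ℂ).toLinearMap ∈ Rg U := by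
    have h1 := rg_gen U 1 1 (weylS τ).one_mem
    have h2 : (LinearMap.mulLeft ℂ (1 : MvPolynomial ρ ℂ)) ∘ₗ (aeval U).toLinearMap ∘ₗ
        (1 : Module.End ℂ (MvPolynomial τ ℂ)) =
          (aeval U : MvPolynomial τ ℂ →ₐ[ℂ] MvPolynomial ρ ℂ).toLinearMap := by
      apply LinearMap.ext
      intro G
      simp only [LinearMap.comp_apply, LinearMap.mulLeft_apply, one_mul]
      rfl
    rwa [h2] at h1
  obtain ⟨P, hP⟩ := hb
  set g : weylS ρ → weylS τ := fun Q => ⟨S.toLinearMap ∘ₗ ((Q : Module.End ℂ (MvPolynomial ρ ℂ)) ∘ₗ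
    (aeval U).toLinearMap), rg_section U S hS _ (rg_weyl U _ Q.2 _ hid)⟩ with hg
  have hg0 : g 0 = 0 := by
    apply Subtype.ext
    rw [hg]
    simp only [ZeroMemClass.coe_zero, LinearMap.zero_comp, LinearMap.comp_zero]
  refine ⟨P.mapRange g hg0, fun s => ?_⟩
  have h1 := congrArg S (hP s)
  rw [map_mul, map_pow, hSU, Finsupp.sum, map_sum] at h1
  have h2 : S (C (b.eval (s : ℂ))) = C (b.eval (s : ℂ)) := S.commutes _
  rw [h2] at h1
  rw [h1, Finsupp.sum_mapRange_index, Finsupp.sum]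
  · refine Finset.sum_congr rfl fun m _ => ?_
    rw [map_smul, ← map_pow]
    rfl
  · intro m
    simp only [ZeroMemClass.coe_zero, LinearMap.zero_apply, smul_zero]

end Chain

section Form

variable {σ τ : Type} [Fintype τ] [DecidableEq τ] {κ : τ → Type} [∀ t, Fintype (κ t)]
  [∀ t, DecidableEq (κ t)]

/-- a point at which none of finitely many nonzero polynomials vanishes -/
theorem exists_pt (g : τ → MvPolynomial σ ℂ) (hg : ∀ t, g t ≠ 0) :
    ∃ x : σ → ℂ, ∀ t, eval x (g t) ≠ 0 := by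
  have h1 : ∏ t, g t ≠ 0 := Finset.prod_ne_zero_iff.2 fun t _ => hg t
  have h2 : ∃ x : σ → ℂ, eval x (∏ t, g t) ≠ 0 := by
    by_contra hcon
    push Not at hcon
    apply h1
    apply MvPolynomial.funext
    intro x
    rw [hcon x, map_zero]
  obtain ⟨x, hx⟩ := h2
  rw [map_prod] at hx
  exact ⟨x, fun t => Finset.prod_ne_zero_iff.1 hx t (Finset.mem_univ t)⟩

/-- the forms `∑_j y_{t,j} f_{t,j}(x)` have a section -/
theorem exists_sec (f : (t : τ) → κ t → MvPolynomial σ ℂ) (hf : ∀ t, ∃ j, f t j ≠ 0) :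
    ∃ S : MvPolynomial ((Σ t, κ t) ⊕ σ) ℂ →ₐ[ℂ] MvPolynomial τ ℂ,
      ∀ t, S (blockForm f t) = X t := by
  classical
  choose j0 hj0 using hf
  obtain ⟨x, hx⟩ := exists_pt (fun t => f t (j0 t)) hj0
  refine ⟨aeval (Sum.elim (fun q : Σ t, κ t => if q.2 = j0 q.1 then
      C (eval x (f q.1 (j0 q.1)))⁻¹ * X q.1 else 0) (fun i => C (x i))), fun t => ?_⟩
  rw [blockForm, map_sum, Finset.sum_eq_single (j0 t)]
  · rw [map_mul, aeval_X, aeval_rename]
    have h1 : aeval ((Sum.elim (fun q : Σ t, κ t => if q.2 = j0 q.1 then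
      C (eval x (f q.1 (j0 q.1)))⁻¹ * X q.1 else 0) (fun i => C (x i)) :
        (Σ t, κ t) ⊕ σ → MvPolynomial τ ℂ) ∘ Sum.inr) (f t (j0 t)) =
          C (eval x (f t (j0 t))) := by
      have h2 : ((Sum.elim (fun q : Σ t, κ t => if q.2 = j0 q.1 then
        C (eval x (f q.1 (j0 q.1)))⁻¹ * X q.1 else 0) (fun i => C (x i)) :
          (Σ t, κ t) ⊕ σ → MvPolynomial τ ℂ) ∘ Sum.inr) = fun i => C (x i) := by
        funext i
        rfl
      rw [h2]
      induction (f t (j0 t)) using MvPolynomial.induction_on with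
      | C a => rw [aeval_C, eval_C, MvPolynomial.algebraMap_eq]
      | add p q hp hq => rw [map_add, map_add, hp, hq, C_add]
      | mul_X p i hp => rw [map_mul, map_mul, hp, aeval_X, eval_X, C_mul]
    rw [h1]
    simp only [Sum.elim_inl, if_true]
    rw [mul_comm, ← mul_assoc, ← C_mul, mul_inv_cancel₀ (hx t), C_1, one_mul]
  · intro j _ hj
    rw [map_mul, aeval_X]
    simp only [Sum.elim_inl]
    rw [if_neg hj, zero_mul]
  · intro h
    exact absurd (Finset.mem_univ _) h

/-- **A functional equation of `Φ(∑_j y_{t,j} f_{t,j}(x))` gives one of `Φ`.** -/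
theorem isB_of_form (f : (t : τ) → κ t → MvPolynomial σ ℂ) (hf : ∀ t, ∃ j, f t j ≠ 0)
    (Φ : MvPolynomial τ ℂ) (b : Polynomial ℂ) (hb : IsBFunction (aeval (blockForm f) Φ) b) :
    IsBFunction Φ b := by
  obtain ⟨S, hS⟩ := exists_sec f hf
  exact isB_of_section (blockForm f) S hS Φ b hb

end Form

end Pool.Agent.V7H20.MF
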