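import Pool.Agent.V7H20.MF.Blk
import Pool.Agent.V7H20.MF.Loc

set_option autoImplicit false
set_option linter.unusedSectionVars false
set_option linter.unusedVariables false

/-! # The functional equation of the product of the ideals -/

namespace Pool.Agent.V7H20.MF

open MvPolynomial Pool.Agent.W574.SM Pool.Agent.W574.HS Pool.Agent.W574.LM Pool.Agent.TH192.DT
open Pool.Agent.H628R4.TP (IsBFunction weylS)

section Hat

variable {σ τ : Type} [Fintype τ] [DecidableEq τ] {κ : τ → Type} [∀ t, Fintype (κ t)]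
  [∀ t, DecidableEq (κ t)]

/-- the degrees in the blocks of variables -/
noncomputable def tt (α : (Σ t, κ t) →₀ ℕ) : τ →₀ ℕ :=
  Finsupp.equivFunOnFinite.symm fun t => ∑ j, α ⟨t, j⟩

theorem tt_apply (α : (Σ t, κ t) →₀ ℕ) (t : τ) : tt α t = ∑ j, α ⟨t, j⟩ := rfl

theorem hat_comp (f : (t : τ) → κ t → MvPolynomial σ ℂ) (α : (Σ t, κ t) →₀ ℕ)
    (G : MvPolynomial τ ℂ) : hat (aeval (blockForm f) G) α =
      (coeff (tt α) G * ((∏ t, (∑ j, α ⟨t, j⟩).factorial : ℕ) : ℂ)) •
        ∏ q : Σ t, κ t, f q.1 q.2 ^ α q := by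
  induction G using MvPolynomial.induction_on' with
  | monomial m c =>
    rw [aeval_monomial, MvPolynomial.algebraMap_eq, hat_C_mul]
    have h1 : (m.prod fun t n => blockForm f t ^ n) = ∏ t, blockForm f t ^ m t :=
      Finsupp.prod_fintype _ _ fun _ => pow_zero _
    rw [h1, hat_pow_blocks f _ _ rfl α, coeff_monomial]
    have h2 : (∀ t, ∑ j, α ⟨t, j⟩ = m t) ↔ m = tt α := by
      constructor
      · intro h
        ext t
        rw [tt_apply, h t]
      · intro h t
        rw [h, tt_apply]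
    by_cases h : m = tt α
    · rw [if_pos (h2.2 h), if_pos h, smul_smul]
      congr 3
      exact Finset.prod_congr rfl fun t _ => by rw [h2.2 h t]
    · rw [if_neg (fun h' => h (h2.1 h')), if_neg h, smul_zero, zero_mul, zero_smul]
  | add p q hp hq =>
    rw [map_add, hat_add, hp, hq, coeff_add, add_mul, add_smul]

end Hat

section Main

variable {σ τ B : Type} [Fintype τ] [DecidableEq τ] [Fintype B] [DecidableEq B] (w : τ → B → ℕ)
  {κ : B → Type} [∀ b, Fintype (κ b)] [∀ b, DecidableEq (κ b)]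

theorem wsum_add (m m' : τ → ℕ) (b : B) :
    wsum w (fun t => m t + m' t) b = wsum w m b + wsum w m' b := by
  rw [wsum, wsum, wsum, ← Finset.sum_add_distrib]
  refine Finset.sum_congr rfl fun t _ => ?_
  rw [mul_add]

/-- the powers of a multihomogeneous polynomial -/
theorem coeff_pow_hom (Φ : MvPolynomial τ ℂ) (a : B → ℕ)
    (hΦ : ∀ m : τ →₀ ℕ, coeff m Φ ≠ 0 → ∀ b, wsum w m b = a b) (n : ℕ) :
    ∀ m : τ →₀ ℕ, coeff m (Φ ^ n) ≠ 0 → ∀ b, wsum w m b = n * a b := by
  classical
  induction n with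
  | zero =>
    intro m hm b
    rw [pow_zero, coeff_one] at hm
    by_cases h : 0 = m
    · subst h
      simp [wsum]
    · rw [if_neg h] at hm
      exact absurd rfl hm
  | succ n ih =>
    intro m hm b
    rw [pow_succ, coeff_mul] at hm
    obtain ⟨⟨m1, m2⟩, h1, h2⟩ := Finset.exists_ne_zero_of_sum_ne_zero hm
    rw [Finset.HasAntidiagonal.mem_antidiagonal] at h1
    simp only at h1 h2
    have h3 := ih m1 (left_ne_zero_of_mul h2) b
    have h4 := hΦ m2 (right_ne_zero_of_mul h2) b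
    have h5 : wsum w m b = wsum w m1 b + wsum w m2 b := by
      rw [← wsum_add, ← h1]
      rfl
    rw [h5, h3, h4]
    ring

/-- a polynomial in the sum of the exponents -/
noncomputable def polyN {ι : Type} [Fintype ι] (S : Polynomial ℂ) : MvPolynomial ι ℂ :=
  Polynomial.aeval (∑ J, X J : MvPolynomial ι ℂ) S

theorem evN_polyN {ι : Type} [Fintype ι] (S : Polynomial ℂ) (s : ι →₀ ℕ) :
    evN s (polyN S) = S.eval ((∑ J, s J : ℕ) : ℂ) := by
  rw [evN, polyN, ← MvPolynomial.coe_aeval_eq_eval, RingHom.coe_coe,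
    ← Polynomial.aeval_algHom_apply, map_sum]
  simp only [aeval_X]
  rw [Nat.cast_sum, Polynomial.coe_aeval_eq_eval]

/-- **The functional equation of `Φ(∑_j y_{t,j} f_{t,j}(x))` gives one of the product of the
ideals.** -/
theorem fe_of_form [DecidableEq σ] (f : (b : B) → κ b → MvPolynomial σ ℂ) (Φ : MvPolynomial τ ℂ)
    (a : B → ℕ) (hΦ : ∀ m : τ →₀ ℕ, coeff m Φ ≠ 0 → ∀ b, wsum w m b = a b)
    (ha : ∃ b, a b ≠ 0) (u : τ → ℕ) (v : τ →₀ ℕ) (hT : IsTop u Φ v) (b b' : Polynomial ℂ)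
    (hbb : b = (Polynomial.X + 1) * b')
    (hb : IsBFunction (aeval (blockForm (fP w f)) Φ) b) :
    ∃ D : Polynomial ℂ, (∀ r : ℂ, (∀ q : ℚ, 0 ≤ q → r ≠ q) → D.eval r ≠ 0) ∧
      IsFunctionalEq (prodFam fun q : Σ t, Fin (v t) => fP w f q.1) (D * b') := by
  classical
  obtain ⟨P, hP⟩ := hb
  have hva : ∀ b, wsum w v b = a b := hΦ v hT.ne
  obtain ⟨t0, ht0⟩ : ∃ t0, v t0 ≠ 0 := by
    by_contra hcon
    push Not at hcon
    obtain ⟨b0, hb0⟩ := ha
    apply hb0
    rw [← hva b0, wsum]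
    refine Finset.sum_eq_zero fun t _ => ?_
    rw [hcon t]
    simp
  obtain ⟨E, hE, hEP⟩ := exists_op (σ := σ) (κ := fun t => Ch κ (w t)) (v : τ → ℕ) t0 ht0 P
  obtain ⟨κ0, hκ0, c, p, R, hR⟩ := hE
  choose E' hE'1 hE'2 using fun k : κ0 => term_rep2 w (v : τ → ℕ) f (c k) (p k) (R k)
  set δ : κ0 → τ → ℤ := fun k t => ∑ j, c k ⟨t, j⟩ with hδ
  set L : ℕ := ∑ k, ∑ t, (δ k t).natAbs with hL
  have hLδ : ∀ k t, -(L : ℤ) ≤ δ k t := by
    intro k t
    have h1 : (δ k t).natAbs ≤ L := by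
      refine le_trans (Finset.single_le_sum (f := fun t => (δ k t).natAbs)
        (fun _ _ => Nat.zero_le _) (Finset.mem_univ t)) ?_
      exact Finset.single_le_sum (f := fun k => ∑ t, (δ k t).natAbs)
        (fun _ _ => Nat.zero_le _) (Finset.mem_univ k)
    omega
  choose r hr1 hr2 using fun k : κ0 => factQ (v : τ → ℕ) L (δ k) (hLδ k)
  choose Pk hPk0 hPk1 hPk2 using fun k : κ0 => coef_top hT (fun t => δ k t - v t)
  have hS : ∀ k, (Polynomial.X + 1) ∣ (Pk k).comp (Polynomial.X + 1) * r k := by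
    intro k
    by_cases hk : (fun t => δ k t - v t) = 0
    · refine Dvd.dvd.mul_left (hr1 k (fun t => ?_) ⟨t0, ht0⟩) _
      have h1 := congrFun hk t
      simp only [Pi.zero_apply] at h1
      linarith
    · obtain ⟨Q, hQ⟩ := hPk1 k hk
      refine Dvd.dvd.mul_right ?_ _
      rw [hQ, Polynomial.mul_comp, Polynomial.X_comp]
      exact dvd_mul_right _ _
  choose S' hS' using hS
  set c0 := coeff v Φ with hc0
  refine ⟨den v L, fun r hr => den_root _ L r hr, ?_⟩
  have hloc : IsLocEq (1 : MvPolynomial σ ℂ) (prodFam fun q : Σ t, Fin (v t) => fP w f q.1)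
      (den v L * b') := by
    refine isLocEq_of_rep _ _ _ (fun G s => ∑ k, evN s (polyN (Polynomial.C c0 * S' k)) •
      E' k G s) (rep_sum Finset.univ (fun k G s => evN s (polyN (Polynomial.C c0 * S' k)) •
        E' k G s) fun k _ => rep_poly (hE'1 k) _) fun s => ?_
    set N := ∑ J, s J with hN
    have hts : ∀ t, ∑ j : Ch κ (w t), tot (κ := fun t => Ch κ (w t)) (v : τ → ℕ) s ⟨t, j⟩ = N * v t :=
      fun t => tot_sum (κ := fun t => Ch κ (w t)) (v : τ → ℕ) s t
    set T := (∏ J, prodFam (fun q : Σ t, Fin (v t) => fP w f q.1) J ^ s J) with hTdef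
    have hfact : ((∏ t, (N * v t).factorial : ℕ) : ℂ) ≠ 0 :=
      Nat.cast_ne_zero.2 (Finset.prod_ne_zero_iff.2 fun t _ => Nat.factorial_ne_zero _)
    have hN1 : (N : ℂ) + 1 ≠ 0 := Nat.cast_add_one_ne_zero N
    -- the left hand side
    have h1 := congrArg (fun G => hat G (tot (κ := fun t => Ch κ (w t)) (v : τ → ℕ) s)) (hP N)
    beta_reduce at h1
    have h0 : hat (P.sum fun m Q => ((N : ℂ) ^ m) • (Q : Module.End ℂ (MvPolynomial
        ((Σ t, Ch κ (w t)) ⊕ σ) ℂ)) (aeval (blockForm (fP w f)) Φ ^ (N + 1)))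
          (tot (κ := fun t => Ch κ (w t)) (v : τ → ℕ) s) =
            E (hat (aeval (blockForm (fP w f)) Φ ^ (N + 1)))
              (tot (κ := fun t => Ch κ (w t)) (v : τ → ℕ) s) := hEP _ s
    rw [h0, hR, hat_C_mul, ← map_pow (aeval (blockForm (fP w f))) Φ N,
      hat_comp (fP w f)] at h1
    have hcN : coeff (tt (tot (κ := fun t => Ch κ (w t)) (v : τ → ℕ) s)) (Φ ^ N) = c0 ^ N := by
      obtain ⟨Q, hQ0, _, hQ2⟩ := coef_top hT (0 : τ → ℤ)
      have h2 := hQ2 N (tt (tot (κ := fun t => Ch κ (w t)) (v : τ → ℕ) s)) (fun t => by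
        rw [tt_apply, hts t, Pi.zero_apply, add_zero]
        push_cast
        rfl)
      rw [h2, hQ0 rfl, Polynomial.eval_one, mul_one]
    have hpt : ∏ q : Σ t, Ch κ (w t), fP w f q.1 q.2 ^ tot (κ := fun t => Ch κ (w t)) (v : τ → ℕ) s q = T :=
      prod_tot (v : τ → ℕ) (fP w f) s
    rw [hcN, hpt] at h1
    simp only [hts] at h1
    -- the terms on the right hand side
    have hterm : ∀ k, (den v L).eval (N : ℂ) • ((evN (tot (κ := fun t => Ch κ (w t)) (v : τ → ℕ) s) (p k) *
        (fall (c k) (tot (κ := fun t => Ch κ (w t)) (v : τ → ℕ) s) : ℂ)) • (R k : Module.End ℂ (MvPolynomial σ ℂ))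
          (hat (aeval (blockForm (fP w f)) Φ ^ (N + 1)) (sh (tot (κ := fun t => Ch κ (w t)) (v : τ → ℕ) s) (c k)))) =
        (c0 ^ (N + 1) * (((N : ℂ) + 1) * (S' k).eval (N : ℂ)) *
          ((∏ t, (N * v t).factorial : ℕ) : ℂ)) •
          E' k (fun β => if ∑ J, β J = N + 1 then
            ∏ J, prodFam (fun q : Σ t, Fin (v t) => fP w f q.1) J ^ β J else 0) s := by
      intro k
      rw [← hE'2 k s]
      by_cases hf : fall (c k) (tot (κ := fun t => Ch κ (w t)) (v : τ → ℕ) s) = 0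
      · rw [hf]
        simp
      · rw [smul_comm, ← map_smul]
        congr 2
        have hle := dsc_ne (s := tot (κ := fun t => Ch κ (w t)) (v : τ → ℕ) s)
          (k := Finsupp.equivFunOnFinite.symm fun q => (-c k q).toNat)
          (by rw [← fall_eq_dsc]; exact hf)
        have hsh : ∀ t, ((∑ j, sh (tot (κ := fun t => Ch κ (w t)) (v : τ → ℕ) s) (c k) ⟨t, j⟩ : ℕ) : ℤ) =
            N * v t + δ k t := by
          intro t
          have h3 : ((N * v t : ℕ) : ℤ) = ∑ j, (tot (κ := fun t => Ch κ (w t)) (v : τ → ℕ) s ⟨t, j⟩ : ℤ) := by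
            rw [← hts t]
            push_cast
            rfl
          rw [← Nat.cast_mul, h3, hδ, ← Finset.sum_add_distrib]
          push_cast
          refine Finset.sum_congr rfl fun j _ => ?_
          rw [sh_apply, Int.toNat_of_nonneg]
          have h5 : (-c k ⟨t, j⟩).toNat ≤ tot (κ := fun t => Ch κ (w t)) (v : τ → ℕ) s ⟨t, j⟩ := hle ⟨t, j⟩
          omega
        rw [← map_pow, hat_comp (fP w f), smul_smul]
        by_cases hcond : ∀ b, wsum w (fun t => ∑ j, (sh (tot (κ := fun t => Ch κ (w t)) (v : τ → ℕ) s) (c k)) ⟨t, j⟩) b =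
            (N + 1) * wsum w (v : τ → ℕ) b
        · rw [if_pos hcond]
          congr 1
          have h4 := hPk2 k (N + 1) (tt (sh (tot (κ := fun t => Ch κ (w t)) (v : τ → ℕ) s) (c k))) (fun t => by
            rw [tt_apply, hsh t]
            push_cast
            ring)
          have h5 := hr2 k N (fun t => ∑ j, sh (tot (κ := fun t => Ch κ (w t)) (v : τ → ℕ) s) (c k) ⟨t, j⟩) hsh
          have h6 : (Pk k).eval ((N + 1 : ℕ) : ℂ) * (r k).eval (N : ℂ) =
              ((N : ℂ) + 1) * (S' k).eval (N : ℂ) := by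
            have h7 := congrArg (Polynomial.eval (N : ℂ)) (hS' k)
            rw [Polynomial.eval_mul, Polynomial.eval_mul, Polynomial.eval_comp,
              Polynomial.eval_add, Polynomial.eval_X, Polynomial.eval_one] at h7
            rw [← h7]
            push_cast
            ring
          rw [h4]
          linear_combination (c0 ^ (N + 1) * (Pk k).eval ((N + 1 : ℕ) : ℂ)) * h5 +
            (c0 ^ (N + 1) * ((∏ t, (N * v t).factorial : ℕ) : ℂ)) * h6
        · rw [if_neg hcond]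
          have h4 : coeff (tt (sh (tot (κ := fun t => Ch κ (w t)) (v : τ → ℕ) s) (c k))) (Φ ^ (N + 1)) = 0 := by
            by_contra h5
            apply hcond
            intro b
            have h6 := coeff_pow_hom w Φ a hΦ (N + 1) _ h5 b
            rw [hva b, ← h6]
            rfl
          rw [h4, zero_mul, mul_zero, zero_smul]
    -- the conclusion
    have h8 := congrArg (fun G => (den v L).eval (N : ℂ) • G) h1
    beta_reduce at h8
    rw [Finset.smul_sum, Finset.sum_congr rfl fun k _ => hterm k] at h8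
    rw [hbb, Polynomial.eval_mul, Polynomial.eval_add, Polynomial.eval_X, Polynomial.eval_one,
      smul_smul, smul_smul] at h8
    have hne : ((N : ℂ) + 1) * (c0 ^ N * ((∏ t, (N * v t).factorial : ℕ) : ℂ)) ≠ 0 :=
      mul_ne_zero hN1 (mul_ne_zero (pow_ne_zero _ hT.ne) hfact)
    apply smul_right_injective (MvPolynomial σ ℂ) hne
    beta_reduce
    rw [one_mul, smul_smul, Finset.smul_sum, Polynomial.eval_mul]
    have h9 : ∀ k, (((N : ℂ) + 1) * (c0 ^ N * ((∏ t, (N * v t).factorial : ℕ) : ℂ))) •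
        (evN s (polyN (Polynomial.C c0 * S' k)) • E' k (fun β => if ∑ J, β J = N + 1 then
            ∏ J, prodFam (fun q : Σ t, Fin (v t) => fP w f q.1) J ^ β J else 0) s) =
        (c0 ^ (N + 1) * (((N : ℂ) + 1) * (S' k).eval (N : ℂ)) *
          ((∏ t, (N * v t).factorial : ℕ) : ℂ)) •
          E' k (fun β => if ∑ J, β J = N + 1 then
            ∏ J, prodFam (fun q : Σ t, Fin (v t) => fP w f q.1) J ^ β J else 0) s := by
      intro k
      rw [smul_smul, evN_polyN, Polynomial.eval_mul, Polynomial.eval_C, ← hN]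
      congr 1
      ring
    rw [Finset.sum_congr rfl fun k _ => h9 k, ← h8]
    congr 1
    ring
  obtain ⟨S, P', h4, h5⟩ := hloc
  exact ⟨S, P', h4, fun s => by rw [← h5 s, one_mul]⟩

end Main

end Pool.Agent.V7H20.MF
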