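import Pool.Agent.V7H20.MF.Fe
import Pool.Agent.Y229.LP3

set_option autoImplicit false
set_option linter.unusedSectionVars false
set_option linter.unusedVariables false

/-! # Other lists of the same generators -/

namespace Pool.Agent.V7H20.MF

open MvPolynomial Pool.Agent.W574.SM Pool.Agent.W574.HS Pool.Agent.W574.LM Pool.Agent.TH192.DT
  Pool.Agent.W574.RO Pool.Agent.Y229

section Over

variable {Q Q' B : Type} [Fintype Q] [Fintype Q'] [DecidableEq B]

theorem exists_over (β : Q → B) (β' : Q' → B)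
    (h : ∀ b, Fintype.card {q // β q = b} = Fintype.card {q // β' q = b}) :
    ∃ e : Q ≃ Q', ∀ q, β' (e q) = β q := by
  classical
  refine ⟨(Equiv.sigmaFiberEquiv β).symm.trans ((Equiv.sigmaCongrRight fun b =>
    Fintype.equivOfCardEq (h b)).trans (Equiv.sigmaFiberEquiv β')), fun q => ?_⟩
  have h1 := ((Fintype.equivOfCardEq (h (β q))) ⟨q, rfl⟩).2
  exact h1

end Over

section Fe

variable {σ B : Type} {κ : B → Type} [∀ b, Fintype (κ b)] [∀ b, DecidableEq (κ b)]

theorem fe_reindex {Q Q' : Type} [Fintype Q] [DecidableEq Q] [Fintype Q'] [DecidableEq Q']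
    (f : (b : B) → κ b → MvPolynomial σ ℂ) (β' : Q' → B) (e : Q ≃ Q') (b : Polynomial ℂ)
    (h : IsFunctionalEq (prodFam fun q : Q => f (β' (e q))) b) :
    IsFunctionalEq (prodFam fun q : Q' => f (β' q)) b := by
  classical
  refine functionalEq_equiv (Equiv.refl σ)
    (Equiv.piCongrLeft' (fun q' => κ (β' q')) e.symm) (prodFam fun q : Q' => f (β' q))
    (prodFam fun q : Q => f (β' (e q))) (fun J => ?_) b h
  have h1 : (rename (Equiv.refl σ) : MvPolynomial σ ℂ →ₐ[ℂ] MvPolynomial σ ℂ)
      (prodFam (fun q : Q' => f (β' q)) J) = prodFam (fun q : Q' => f (β' q)) J := by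
    rw [Equiv.coe_refl, rename_id_apply]
  rw [h1, prodFam, prodFam]
  exact Equiv.prod_comp e (fun q' => f (β' q') (J q'))

theorem fe_over [DecidableEq B] {Q Q' : Type} [Fintype Q] [DecidableEq Q] [Fintype Q']
    [DecidableEq Q'] (f : (b : B) → κ b → MvPolynomial σ ℂ) (β : Q → B) (β' : Q' → B) (e : Q ≃ Q')
    (he : ∀ q, β' (e q) = β q) (b : Polynomial ℂ)
    (h : IsFunctionalEq (prodFam fun q : Q => f (β q)) b) :
    IsFunctionalEq (prodFam fun q : Q' => f (β' q)) b := by
  obtain rfl : β = fun q => β' (e q) := funext fun q => (he q).symm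
  exact fe_reindex f β' e b h

end Fe

section Flat

variable {σ τ B : Type} [Fintype τ] [DecidableEq τ] [Fintype B] [DecidableEq B] (w : τ → B → ℕ)
  {κ : B → Type} [∀ b, Fintype (κ b)] [∀ b, DecidableEq (κ b)]

theorem card_flat (v : τ → ℕ) (b : B) :
    Fintype.card {x : (Σ q : (Σ t, Fin (v t)), Σ b, Fin (w q.1 b)) // x.2.1 = b} = wsum w v b := by
  classical
  rw [Fintype.card_subtype, Finset.card_filter, Fintype.sum_sigma, Fintype.sum_sigma, wsum]
  refine Finset.sum_congr rfl fun t _ => ?_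
  have h1 : ∀ i : Fin (v t), ∑ y : (Σ b, Fin (w t b)), (if y.1 = b then 1 else 0) = w t b := by
    intro i
    rw [Fintype.sum_sigma, Finset.sum_eq_single b]
    · simp
    · intro b' _ hb'
      simp [hb']
    · intro h
      exact absurd (Finset.mem_univ _) h
  rw [Finset.sum_congr rfl fun i _ => h1 i]
  simp [mul_comm]

theorem card_flat' (a : B → ℕ) (b : B) :
    Fintype.card {x : (Σ b, Fin (a b)) // x.1 = b} = a b := by
  classical
  rw [Fintype.card_subtype, Finset.card_filter, Fintype.sum_sigma, Finset.sum_eq_single b]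
  · simp
  · intro b' _ hb'
    simp [hb']
  · intro h
    exact absurd (Finset.mem_univ _) h

/-- **The generators of the product of the powers of the products of the powers of the ideals.** -/
theorem fe_flat (f : (b : B) → κ b → MvPolynomial σ ℂ) (v : τ → ℕ) (a : B → ℕ)
    (hva : ∀ b, wsum w v b = a b) (b : Polynomial ℂ)
    (h : IsFunctionalEq (prodFam fun q : Σ t, Fin (v t) => fP w f q.1) b) :
    IsFunctionalEq (powFam a f).f b := by
  classical
  obtain ⟨e, he⟩ := exists_over
    (fun x : (Σ q : (Σ t, Fin (v t)), Σ b, Fin (w q.1 b)) => x.2.1)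
    (fun y : (Σ b, Fin (a b)) => y.1) (fun b => by rw [card_flat, card_flat', hva])
  have h1 : IsFunctionalEq (prodFam fun x : (Σ q : (Σ t, Fin (v t)), Σ b, Fin (w q.1 b)) =>
      f x.2.1) b := by
    refine functionalEq_equiv (Equiv.refl σ)
      (Equiv.piCurry fun (q : Σ t, Fin (v t)) (p : Σ b, Fin (w q.1 b)) => κ p.1)
      (prodFam fun x : (Σ q : (Σ t, Fin (v t)), Σ b, Fin (w q.1 b)) => f x.2.1)
      (prodFam fun q : Σ t, Fin (v t) => fP w f q.1) (fun J => ?_) b h
    have h2 : (rename (Equiv.refl σ) : MvPolynomial σ ℂ →ₐ[ℂ] MvPolynomial σ ℂ)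
        (prodFam (fun x : (Σ q : (Σ t, Fin (v t)), Σ b, Fin (w q.1 b)) => f x.2.1) J) =
        prodFam (fun x : (Σ q : (Σ t, Fin (v t)), Σ b, Fin (w q.1 b)) => f x.2.1) J := by
      rw [Equiv.coe_refl, rename_id_apply]
    rw [h2, prodFam, prodFam]
    symm
    rw [Fintype.prod_sigma]
    rfl
  exact fe_over f _ _ e he b h1

end Flat

end Pool.Agent.V7H20.MF
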