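import Pool.Agent.V7H20.MF.Ops
import Pool.Agent.V7H20.MF.Defs
import Pool.Agent.V7H20.MF.Fe

set_option autoImplicit false
set_option linter.unusedSectionVars false
set_option linter.unusedVariables false

/-! # Powers of ideals -/

namespace Pool.Agent.V7H20.MF

open MvPolynomial Pool.Agent.W574.SM Pool.Agent.W574.HS Pool.Agent.TH192.DT Pool.Agent.W366.SI
open Pool.Agent.H628R4.TP (IsBFunction weylS)

section NF

variable {σ ι : Type} [Fintype ι] [DecidableEq ι]

theorem evN_mul_X (s : ι →₀ ℕ) (p : MvPolynomial ι ℂ) (j : ι) :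
    evN s (p * X j) = evN s p * s j := by
  rw [evN, map_mul, eval_X]
  rfl

theorem dsc_step (s k : ι →₀ ℕ) (j : ι) : (s j : ℂ) * (dsc s k : ℂ) =
    (dsc s (k + Finsupp.single j 1) : ℂ) + (k j : ℂ) * (dsc s k : ℂ) := by
  by_cases h : dsc s k = 0
  · rw [dsc_add, h]
    simp
  · have hle := dsc_ne h
    rw [dsc_add, dsc_single, Finsupp.tsub_apply, Nat.descFactorial_one]
    have h1 : k j ≤ s j := hle j
    rw [Nat.cast_mul, Nat.cast_sub h1]
    ring

/-- polynomials in falling factorials -/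
theorem expand (q : MvPolynomial ι ℂ) (k0 : ι →₀ ℕ) : ∃ (K : Type) (_ : Fintype K)
    (k : K → ι →₀ ℕ) (l : K → ℂ), (∀ i, k0 ≤ k i) ∧
      ∀ s, evN s q * (dsc s k0 : ℂ) = ∑ i, l i * (dsc s (k i) : ℂ) := by
  induction q using MvPolynomial.induction_on with
  | C a =>
    refine ⟨Unit, inferInstance, fun _ => k0, fun _ => a, fun _ => le_rfl, fun s => ?_⟩
    rw [evN, eval_C]
    simp
  | add p q hp hq =>
    obtain ⟨K, _, k, l, h1, h2⟩ := hp
    obtain ⟨K', _, k', l', h1', h2'⟩ := hq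
    refine ⟨K ⊕ K', inferInstance, Sum.elim k k', Sum.elim l l', ?_, fun s => ?_⟩
    · rintro (i | i)
      · exact h1 i
      · exact h1' i
    · rw [Fintype.sum_sum_type]
      simp only [Sum.elim_inl, Sum.elim_inr]
      rw [← h2, ← h2', evN, map_add, add_mul]
      rfl
  | mul_X p j hp =>
    obtain ⟨K, _, k, l, h1, h2⟩ := hp
    refine ⟨K ⊕ K, inferInstance, Sum.elim (fun i => k i + Finsupp.single j 1) k,
      Sum.elim l (fun i => l i * k i j), ?_, fun s => ?_⟩
    · rintro (i | i)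
      · exact (h1 i).trans le_self_add
      · exact h1 i
    · rw [Fintype.sum_sum_type]
      simp only [Sum.elim_inl, Sum.elim_inr]
      rw [evN_mul_X, mul_right_comm, h2, Finset.sum_mul, ← Finset.sum_add_distrib]
      refine Finset.sum_congr rfl fun i _ => ?_
      have := dsc_step s (k i) j
      linear_combination l i * this

/-- **The normal form of a functional equation.** -/
theorem fe_nf (g : ι → MvPolynomial σ ℂ) (b : Polynomial ℂ) (hb : IsFunctionalEq g b) :
    ∃ (K : Type) (_ : Fintype K) (k d : K → ι →₀ ℕ) (R : K → weyl σ),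
      (∀ i, ∑ j, d i j = ∑ j, k i j + 1) ∧
      ∀ s : ι →₀ ℕ, b.eval ((∑ j, s j : ℕ) : ℂ) • ∏ j, g j ^ s j =
        ∑ i, (dsc s (k i) : ℂ) • (R i : Module.End ℂ (MvPolynomial σ ℂ))
          (∏ j, g j ^ (s - k i + d i) j) := by
  classical
  obtain ⟨S, P, hS, hP⟩ := hb
  set k0 : (ι → ℤ) → ι →₀ ℕ := fun c => Finsupp.equivFunOnFinite.symm fun j => (-c j).toNat
    with hk0
  set cf : (ι → ℤ) → ℂ := fun c => ∏ j, (((-c j).toNat.factorial : ℕ) : ℂ) with hcf
  have hcf0 : ∀ c, cf c ≠ 0 := by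
    intro c
    rw [hcf]
    refine Finset.prod_ne_zero_iff.2 fun j _ => ?_
    exact_mod_cast Nat.factorial_ne_zero _
  have hfall : ∀ (c : ι → ℤ) (α : ι →₀ ℕ), (dsc α (k0 c) : ℂ) = cf c *
      ((∏ j, (if c j < 0 then (α j).choose (-c j).toNat else 1) : ℕ) : ℂ) := by
    intro c α
    have : dsc α (k0 c) = (∏ j, (-c j).toNat.factorial) *
        ∏ j, (if c j < 0 then (α j).choose (-c j).toNat else 1) := by
      rw [dsc, ← Finset.prod_mul_distrib]
      refine Finset.prod_congr rfl fun j _ => ?_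
      change (α j).descFactorial (-c j).toNat = _
      split_ifs with h
      · rw [Nat.descFactorial_eq_factorial_mul_choose]
      · have h0 : (-c j).toNat = 0 := by omega
        rw [h0]; simp
    rw [this, hcf]
    push_cast
    rfl
  choose K hK k l hk1 hk2 using fun (x : (ι → ℤ) × (ι →₀ ℕ)) =>
    expand (monomial x.2 (1 : ℂ)) (k0 x.1)
  refine ⟨Σ c : S, Σ β : (P c.1).support, K (c.1, β.1), inferInstance, fun x => k _ x.2.2,
    fun x => Finsupp.equivFunOnFinite.symm fun j => (((k _ x.2.2) j : ℤ) + x.1.1 j).toNat,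
    fun x => ((cf x.1.1)⁻¹ * l _ x.2.2) • P x.1.1 x.2.1.1, ?_, fun s => ?_⟩
  · rintro ⟨⟨c, hc⟩, ⟨β, hβ⟩, i⟩
    have h1 := hk1 (c, β) i
    have h2 : ((∑ j, (((k (c, β) i) j : ℤ) + c j).toNat : ℕ) : ℤ) =
        ((∑ j, (k (c, β) i) j : ℕ) : ℤ) + 1 := by
      rw [← hS c hc]
      push_cast
      rw [← Finset.sum_add_distrib]
      refine Finset.sum_congr rfl fun j _ => ?_
      have h3 : (-c j).toNat ≤ (k (c, β) i) j := h1 j
      omega
    have h4 : ((∑ j, (((k (c, β) i) j : ℤ) + c j).toNat : ℕ)) = (∑ j, (k (c, β) i) j : ℕ) + 1 := by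
      exact_mod_cast h2
    exact h4
  · have h1 := hP s
    rw [← C_mul', h1, ← Finset.sum_coe_sort S, Fintype.sum_sigma]
    refine Finset.sum_congr rfl fun c _ => ?_
    rw [applyAt, Finsupp.sum, ← Finset.sum_coe_sort (P c.1).support, Fintype.sum_sigma]
    refine Finset.sum_congr rfl fun β _ => ?_
    have h3 := hk2 (c.1, β.1) s
    have h4 : evN s (monomial β.1 1) = ∏ j, (s j : ℂ) ^ β.1 j := by
      rw [evN, eval_monomial, one_mul, Finsupp.prod_fintype]
      intro i
      rw [pow_zero]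
    simp only [h4] at h3
    have hterm : ∀ i : K (c.1, β.1), (dsc s (k (c.1, β.1) i) : ℂ) •
        ((((cf c.1)⁻¹ * l (c.1, β.1) i) • P c.1 β.1 : weyl σ) : Module.End ℂ (MvPolynomial σ ℂ))
          (∏ j, g j ^ (s - k (c.1, β.1) i + (Finsupp.equivFunOnFinite.symm fun j =>
            (((k (c.1, β.1) i) j : ℤ) + c.1 j).toNat : ι →₀ ℕ)) j) =
        ((cf c.1)⁻¹ * (l (c.1, β.1) i * (dsc s (k (c.1, β.1) i) : ℂ))) •
          (P c.1 β.1 : Module.End ℂ (MvPolynomial σ ℂ)) (∏ j, g j ^ ((s j : ℤ) + c.1 j).toNat) := by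
      intro i
      by_cases h0 : dsc s (k (c.1, β.1) i) = 0
      · rw [h0]
        simp
      · have hle := dsc_ne h0
        have h5 : (∏ j, g j ^ (s - k (c.1, β.1) i + (Finsupp.equivFunOnFinite.symm fun j =>
            (((k (c.1, β.1) i) j : ℤ) + c.1 j).toNat : ι →₀ ℕ)) j) =
              ∏ j, g j ^ ((s j : ℤ) + c.1 j).toNat := by
          refine Finset.prod_congr rfl fun j _ => ?_
          congr 1
          rw [Finsupp.add_apply, Finsupp.tsub_apply]
          change s j - (k (c.1, β.1) i) j + (((k (c.1, β.1) i) j : ℤ) + c.1 j).toNat = _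
          have h6 : (k (c.1, β.1) i) j ≤ s j := hle j
          have h7 : (-c.1 j).toNat ≤ (k (c.1, β.1) i) j := hk1 (c.1, β.1) i j
          omega
        rw [h5]
        change _ • (((cf c.1)⁻¹ * l (c.1, β.1) i) • (P c.1 β.1 : Module.End ℂ (MvPolynomial σ ℂ))
          (∏ j, g j ^ ((s j : ℤ) + c.1 j).toNat)) = _
        rw [smul_smul]
        congr 1
        ring
    rw [Finset.sum_congr rfl fun i _ => hterm i, ← Finset.sum_smul, ← Finset.mul_sum, ← h3,
      hfall, C_mul', map_smul, smul_smul]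
    congr 1
    rw [mul_left_comm, inv_mul_cancel_left₀ (hcf0 _)]

end NF

end Pool.Agent.V7H20.MF
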