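import Pool.Agent.V7H20.MF.Ip

set_option autoImplicit false
set_option linter.unusedSectionVars false
set_option linter.unusedVariables false

/-! # Powers of ideals: the sum over the choices -/

namespace Pool.Agent.V7H20.MF

open MvPolynomial Pool.Agent.W574.SM Pool.Agent.W574.HS Pool.Agent.TH192.DT Pool.Agent.W366.SI
open Pool.Agent.H628R4.TP (IsBFunction weylS)

section Comb

variable {ι : Type} [Fintype ι] [DecidableEq ι] (m : ℕ)

/-- the exponent of a choice -/
noncomputable def mJ (J : Fin m → ι) : ι →₀ ℕ := ∑ i, Finsupp.single (J i) 1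

/-- the exponent of a family of choices -/
noncomputable def tJ (s : (Fin m → ι) →₀ ℕ) : ι →₀ ℕ := ∑ J, s J • mJ m J

theorem tJ_apply (s : (Fin m → ι) →₀ ℕ) (j : ι) : tJ m s j = ∑ J, s J * mJ m J j := by
  rw [tJ, Finsupp.finsetSum_apply]
  rfl

theorem tJ_add (s k : (Fin m → ι) →₀ ℕ) : tJ m (s + k) = tJ m s + tJ m k := by
  rw [tJ, tJ, tJ, ← Finset.sum_add_distrib]
  refine Finset.sum_congr rfl fun J _ => ?_
  rw [Finsupp.add_apply, add_smul]

theorem sum_mJ (J : Fin m → ι) : ∑ j, mJ m J j = m := by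
  have h1 : ∀ j, mJ m J j = ∑ i, (Finsupp.single (J i) 1 : ι →₀ ℕ) j := fun j => by
    rw [mJ, Finsupp.finsetSum_apply]
  rw [Finset.sum_congr rfl fun j _ => h1 j, Finset.sum_comm]
  have h2 : ∀ i : Fin m, ∑ j, (Finsupp.single (J i) 1 : ι →₀ ℕ) j = 1 := by
    intro i
    rw [Finset.sum_eq_single (J i)]
    · rw [Finsupp.single_eq_same]
    · intro j _ hj
      rw [Finsupp.single_eq_of_ne hj]
    · intro h
      exact absurd (Finset.mem_univ _) h
  rw [Finset.sum_congr rfl fun i _ => h2 i]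
  simp

theorem sum_tJ (s : (Fin m → ι) →₀ ℕ) : ∑ j, tJ m s j = m * ∑ J, s J := by
  simp only [tJ_apply]
  rw [Finset.sum_comm, Finset.mul_sum]
  refine Finset.sum_congr rfl fun J _ => ?_
  rw [← Finset.mul_sum, sum_mJ, mul_comm]

theorem prod_mJ {R : Type} [CommSemiring R] (f : ι → R) (J : Fin m → ι) :
    ∏ j, f j ^ mJ m J j = ∏ i, f (J i) := by
  have h1 : ∀ j, f j ^ mJ m J j = ∏ i, f j ^ (Finsupp.single (J i) 1 : ι →₀ ℕ) j := fun j => by
    rw [mJ, Finsupp.finsetSum_apply, Finset.prod_pow_eq_pow_sum]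
  rw [Finset.prod_congr rfl fun j _ => h1 j, Finset.prod_comm]
  refine Finset.prod_congr rfl fun i _ => ?_
  rw [Finset.prod_eq_single (J i)]
  · rw [Finsupp.single_eq_same, pow_one]
  · intro j _ hj
    rw [Finsupp.single_eq_of_ne hj, pow_zero]
  · intro h
    exact absurd (Finset.mem_univ _) h

theorem prod_tJ {R : Type} [CommSemiring R] (f : ι → R) (s : (Fin m → ι) →₀ ℕ) :
    ∏ j, f j ^ tJ m s j = ∏ J, (∏ i, f (J i)) ^ s J := by
  have h1 : ∀ j, f j ^ tJ m s j = ∏ J, (f j ^ mJ m J j) ^ s J := fun j => by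
    rw [tJ_apply, ← Finset.prod_pow_eq_pow_sum]
    refine Finset.prod_congr rfl fun J _ => ?_
    rw [mul_comm, pow_mul]
  rw [Finset.prod_congr rfl fun j _ => h1 j, Finset.prod_comm]
  refine Finset.prod_congr rfl fun J _ => ?_
  rw [Finset.prod_pow, prod_mJ]

/-- the families of `N` choices with exponent `α` -/
noncomputable def FJ (N : ℕ) (α : ι →₀ ℕ) : Finset ((Fin m → ι) →₀ ℕ) :=
  (Finset.finsuppAntidiag Finset.univ N).filter fun s => tJ m s = α

theorem mem_FJ (N : ℕ) (α : ι →₀ ℕ) (s : (Fin m → ι) →₀ ℕ) :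
    s ∈ FJ m N α ↔ ∑ J, s J = N ∧ tJ m s = α := by
  rw [FJ, Finset.mem_filter, Finset.mem_finsuppAntidiag]
  simp

/-- the sum of the `1 / s!` -/
noncomputable def AJ (N : ℕ) (α : ι →₀ ℕ) : ℂ := ∑ s ∈ FJ m N α, ((mfact s : ℕ) : ℂ)⁻¹

theorem multi_spec {κ : Type} [Fintype κ] [DecidableEq κ] (s : κ →₀ ℕ) :
    mfact s * s.multinomial = (∑ J, s J).factorial := by
  rw [Finsupp.multinomial_eq_of_support_subset (Finset.subset_univ _)]
  exact Nat.multinomial_spec _ _

theorem monomial_prod {κ : Type} [Fintype κ] (s : κ →₀ ℕ) :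
    (∏ J, (X J : MvPolynomial κ ℂ) ^ s J) = monomial s 1 := by
  rw [monomial_eq, C_1, one_mul, Finsupp.prod_fintype]
  intro i
  rw [pow_zero]

theorem AJ_eq (N : ℕ) (α : ι →₀ ℕ) (hα : ∑ j, α j = m * N) :
    AJ m N α * ((N.factorial : ℕ) : ℂ) * ((mfact α : ℕ) : ℂ) = (((m * N).factorial : ℕ) : ℂ) := by
  classical
  set φ : MvPolynomial (Fin m → ι) ℂ →ₐ[ℂ] MvPolynomial ι ℂ := aeval fun J => ∏ i, X (J i) with hφ
  have h1 : φ (∑ J, X J) = (∑ j, X j) ^ m := by
    rw [map_sum, hφ]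
    simp only [aeval_X]
    have h2 := Finset.prod_univ_sum (fun _ : Fin m => (Finset.univ : Finset ι))
      (fun _ j => (X j : MvPolynomial ι ℂ))
    rw [Fintype.piFinset_univ, Finset.prod_const, Finset.card_univ, Fintype.card_fin] at h2
    exact h2.symm
  have h2 : (∑ J, X J : MvPolynomial (Fin m → ι) ℂ) ^ N =
      ∑ s ∈ Finset.finsuppAntidiag Finset.univ N, monomial s ((s.multinomial : ℕ) : ℂ) := by
    ext s
    rw [coeff_sum_X_pow_of_fintype, coeff_sum]
    simp only [coeff_monomial]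
    rw [Finset.sum_ite_eq']
    have h3 : s ∈ Finset.finsuppAntidiag (Finset.univ : Finset (Fin m → ι)) N ↔
        (s.sum fun _ n => n) = N := by
      rw [Finset.mem_finsuppAntidiag']
      simp
    by_cases h4 : (s.sum fun _ n => n) = N
    · rw [if_pos h4, if_pos (h3.2 h4)]
    · rw [if_neg h4, if_neg fun h => h4 (h3.1 h), Nat.cast_zero]
  have h3 : ∀ (s : (Fin m → ι) →₀ ℕ) (c : ℂ), φ (monomial s c) = monomial (tJ m s) c := by
    intro s c
    rw [hφ, aeval_monomial, MvPolynomial.algebraMap_eq, Finsupp.prod_fintype _ _ fun _ => pow_zero _,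
      ← prod_tJ, monomial_prod, C_mul_monomial, mul_one]
  have h4 := congrArg (fun p => coeff α (φ p)) h2
  beta_reduce at h4
  rw [map_pow, h1, ← pow_mul, coeff_sum_X_pow_of_fintype, map_sum, coeff_sum] at h4
  have h5 : (α.sum fun _ n => n) = m * N := by
    rw [← hα, Finsupp.sum_fintype _ _ fun _ => rfl]
  rw [if_pos h5] at h4
  simp only [h3, coeff_monomial] at h4
  rw [← Finset.sum_filter] at h4
  have h6 : ((α.multinomial : ℕ) : ℂ) * ((mfact α : ℕ) : ℂ) = (((m * N).factorial : ℕ) : ℂ) := by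
    rw [← hα, ← multi_spec α]
    push_cast
    ring
  have h7 : AJ m N α * ((N.factorial : ℕ) : ℂ) = ((α.multinomial : ℕ) : ℂ) := by
    rw [h4, AJ, Finset.sum_mul]
    refine Finset.sum_congr rfl fun s hs => ?_
    have h8 := ((mem_FJ m N α s).1 hs).1
    have h9 : ((mfact s : ℕ) : ℂ) ≠ 0 := by exact_mod_cast mfact_ne_zero s
    have h10 := multi_spec s
    rw [h8] at h10
    rw [← h10]
    push_cast
    field_simp
  rw [h7, h6]

theorem AJ_ne (N : ℕ) (α : ι →₀ ℕ) (hα : ∑ j, α j = m * N) : AJ m N α ≠ 0 := by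
  intro h
  have h1 := AJ_eq m N α hα
  rw [h, zero_mul, zero_mul] at h1
  exact (Nat.cast_ne_zero (R := ℂ)).2 (Nat.factorial_ne_zero _) h1.symm

theorem mfact_add {κ : Type} [Fintype κ] [DecidableEq κ] (s k : κ →₀ ℕ) :
    mfact (s + k) = mfact s * dsc (s + k) k := by
  rw [mfact, mfact, dsc, ← Finset.prod_mul_distrib]
  refine Finset.prod_congr rfl fun j _ => ?_
  rw [Finsupp.add_apply]
  have := Nat.factorial_mul_descFactorial (Nat.le_add_left (k j) (s j))
  rw [Nat.add_sub_cancel] at this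
  exact this.symm

/-- the shift -/
theorem AJ_shift (hm : 1 ≤ m) (N : ℕ) (α : ι →₀ ℕ) (hα : ∑ j, α j = m * N)
    (k : (Fin m → ι) →₀ ℕ) (hk : tJ m k ≤ α) :
    ∑ s ∈ FJ m N α, (dsc s k : ℂ) * ((mfact s : ℕ) : ℂ)⁻¹ = AJ m (N - ∑ J, k J) (α - tJ m k) := by
  classical
  have hkN : ∑ J, k J ≤ N := by
    have h1 : m * ∑ J, k J ≤ m * N := by
      rw [← sum_tJ, ← hα]
      exact Finset.sum_le_sum fun j _ => hk j
    exact Nat.le_of_mul_le_mul_left h1 hm
  have h0 : ∑ s ∈ FJ m N α, (dsc s k : ℂ) * ((mfact s : ℕ) : ℂ)⁻¹ =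
      ∑ s ∈ (FJ m N α).filter (fun s => k ≤ s), (dsc s k : ℂ) * ((mfact s : ℕ) : ℂ)⁻¹ := by
    rw [Finset.sum_filter]
    refine Finset.sum_congr rfl fun s _ => ?_
    split_ifs with h
    · rfl
    · have : dsc s k = 0 := by
        by_contra h1
        exact h (dsc_ne h1)
      rw [this]
      simp
  rw [h0, AJ]
  refine Finset.sum_nbij' (fun s => s - k) (fun s => s + k) ?_ ?_ ?_ ?_ ?_
  · intro s hs
    rw [Finset.mem_filter, mem_FJ] at hs
    obtain ⟨⟨h1, h2⟩, h3⟩ := hs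
    have h4 : s - k + k = s := tsub_add_cancel_of_le h3
    rw [mem_FJ]
    constructor
    · have h5 : ∑ J, (s - k + k) J = N := by rw [h4, h1]
      simp only [Finsupp.add_apply] at h5
      rw [Finset.sum_add_distrib] at h5
      omega
    · have h5 : tJ m (s - k + k) = α := by rw [h4, h2]
      rw [tJ_add] at h5
      rw [← h5, add_tsub_cancel_right]
  · intro s hs
    rw [mem_FJ] at hs
    rw [Finset.mem_filter, mem_FJ]
    refine ⟨⟨?_, ?_⟩, le_add_self⟩
    · simp only [Finsupp.add_apply]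
      rw [Finset.sum_add_distrib, hs.1]
      omega
    · rw [tJ_add, hs.2, tsub_add_cancel_of_le hk]
  · intro s hs
    rw [Finset.mem_filter] at hs
    exact tsub_add_cancel_of_le hs.2
  · intro s hs
    exact add_tsub_cancel_right s k
  · intro s hs
    rw [Finset.mem_filter] at hs
    have h4 : s - k + k = s := tsub_add_cancel_of_le hs.2
    have h5 := mfact_add (s - k) k
    rw [h4] at h5
    have h6 : ((mfact s : ℕ) : ℂ) ≠ 0 := by exact_mod_cast mfact_ne_zero s
    have h7 : ((mfact (s - k) : ℕ) : ℂ) ≠ 0 := by exact_mod_cast mfact_ne_zero (s - k)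
    have h8 : ((mfact s : ℕ) : ℂ) = ((mfact (s - k) : ℕ) : ℂ) * (dsc s k : ℂ) := by
      rw [h5]
      push_cast
      rfl
    have h9 : (dsc s k : ℂ) * ((mfact s : ℕ) : ℂ)⁻¹ * ((mfact (s - k) : ℕ) : ℂ) =
        (((mfact (s - k) : ℕ) : ℂ) * (dsc s k : ℂ)) * ((mfact s : ℕ) : ℂ)⁻¹ := by ring
    apply mul_right_cancel₀ h7
    rw [inv_mul_cancel₀ h7, h9, ← h8, mul_inv_cancel₀ h6]

/-- **The sums with falling factorials.** -/
theorem AJ_dsc (hm : 1 ≤ m) (N : ℕ) (α : ι →₀ ℕ) (hα : ∑ j, α j = m * N)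
    (k : (Fin m → ι) →₀ ℕ) :
    ((m * N).descFactorial (m * ∑ J, k J) : ℂ) *
      ∑ s ∈ FJ m N α, (dsc s k : ℂ) * ((mfact s : ℕ) : ℂ)⁻¹ =
    (N.descFactorial (∑ J, k J) : ℂ) * (dsc α (tJ m k) : ℂ) * AJ m N α := by
  classical
  by_cases hk : tJ m k ≤ α
  · rw [AJ_shift m hm N α hα k hk]
    set K := ∑ J, k J with hK
    have hkN : K ≤ N := by
      have h1 : m * K ≤ m * N := by
        rw [hK, ← sum_tJ, ← hα]
        exact Finset.sum_le_sum fun j _ => hk j
      exact Nat.le_of_mul_le_mul_left h1 hm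
    have h4 : α - tJ m k + tJ m k = α := tsub_add_cancel_of_le hk
    have hα' : ∑ j, (α - tJ m k) j = m * (N - K) := by
      have h5 : ∑ j, (α - tJ m k + tJ m k) j = m * N := by rw [h4, hα]
      simp only [Finsupp.add_apply] at h5
      rw [Finset.sum_add_distrib, sum_tJ, ← hK] at h5
      rw [Nat.mul_sub]
      omega
    have h1 := AJ_eq m N α hα
    have h2 := AJ_eq m (N - K) (α - tJ m k) hα'
    have h5 := mfact_add (α - tJ m k) (tJ m k)
    rw [h4] at h5
    have h6 : ((N - K).factorial : ℂ) * (N.descFactorial K : ℂ) = (N.factorial : ℂ) := by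
      exact_mod_cast Nat.factorial_mul_descFactorial hkN
    have h7 : (((m * (N - K)).factorial : ℕ) : ℂ) * ((m * N).descFactorial (m * K) : ℂ) =
        ((m * N).factorial : ℂ) := by
      have h8 := Nat.factorial_mul_descFactorial (Nat.mul_le_mul_left m hkN)
      rw [← Nat.mul_sub] at h8
      exact_mod_cast h8
    have h8 : ((mfact α : ℕ) : ℂ) = ((mfact (α - tJ m k) : ℕ) : ℂ) * (dsc α (tJ m k) : ℂ) := by
      rw [h5]
      push_cast
      rfl
    have h9 : ((mfact (α - tJ m k) : ℕ) : ℂ) ≠ 0 := by exact_mod_cast mfact_ne_zero _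
    have h10 : (((N - K).factorial : ℕ) : ℂ) ≠ 0 := Nat.cast_ne_zero.2 (Nat.factorial_ne_zero _)
    apply mul_left_cancel₀ (mul_ne_zero h9 h10)
    rw [← h7, h8, ← h6, ← h2] at h1
    linear_combination -h1
  · have h1 : dsc α (tJ m k) = 0 := by
      by_contra h2
      exact hk (dsc_ne h2)
    have h2 : ∑ s ∈ FJ m N α, (dsc s k : ℂ) * ((mfact s : ℕ) : ℂ)⁻¹ = 0 := by
      refine Finset.sum_eq_zero fun s hs => ?_
      have h3 : dsc s k = 0 := by
        by_contra h4
        apply hk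
        have h5 := dsc_ne h4
        have h6 : s - k + k = s := tsub_add_cancel_of_le h5
        rw [← ((mem_FJ m N α s).1 hs).2, ← h6, tJ_add]
        exact le_add_self
      rw [h3]
      simp
    rw [h1, h2]
    simp

end Comb

end Pool.Agent.V7H20.MF
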