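import Pool.Agent.V7H20.MF.Loc
import Pool.Agent.W366.SI.I1
import Pool.Agent.Y230.HS.Strong
import Pool.Agent.Y230.TH.Mlt

set_option autoImplicit false
set_option linter.unusedSectionVars false
set_option linter.unusedVariables false

/-! # Other generators, and powers of polynomials -/

namespace Pool.Agent.V7H20.MF

open MvPolynomial Pool.Agent.W574.SM Pool.Agent.W574.HS Pool.Agent.TH192.DT
open Pool.Agent.H628R4.TP (IsBFunction weylS)

section Gens

variable {σ ι ι' : Type} [Fintype σ] [DecidableEq σ] [Fintype ι] [DecidableEq ι] [Fintype ι']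
  [DecidableEq ι']

omit [Fintype σ] [DecidableEq σ] in
theorem aeval_ren {τ : Type} (g : σ → τ) (p : MvPolynomial σ ℂ) :
    aeval (fun i => (X (g i) : MvPolynomial τ ℂ)) p = rename g p := by
  have h : (aeval (fun i => (X (g i) : MvPolynomial τ ℂ)) : MvPolynomial σ ℂ →ₐ[ℂ] _) =
      rename g := by
    apply MvPolynomial.algHom_ext
    intro i
    rw [aeval_X, rename_X]
  rw [h]

theorem aeval_lin {ρ : Type} (U : ι ⊕ σ → MvPolynomial ρ ℂ) (f : ι → MvPolynomial σ ℂ) :
    aeval U (univ f) = ∑ j, U (Sum.inl j) * aeval (fun i => U (Sum.inr i)) (f j) := by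
  rw [univ, map_sum]
  refine Finset.sum_congr rfl fun j _ => ?_
  rw [map_mul, aeval_X, aeval_rename]
  rfl

/-- the polynomial `∑ y_j f_j + ∑ z_k g_k`, the `g_k` in the ideal of the `f_j`: from the `f_j` to both -/
theorem isB_up (f : ι → MvPolynomial σ ℂ) (g : ι' → MvPolynomial σ ℂ)
    (a : ι' → ι → MvPolynomial σ ℂ) (ha : ∀ k, g k = ∑ j, a k j * f j) (b : Polynomial ℂ)
    (hb : IsBFunction (univ f) b) : IsBFunction (univ (Sum.elim f g)) b := by
  classical
  -- more variables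
  have h1 : IsBFunction (rename Sum.inl (univ f) : MvPolynomial ((ι ⊕ σ) ⊕ ι') ℂ) b :=
    Pool.Agent.Y230.TH.isB_rename (univ f) b hb
  let e : (ι ⊕ σ) ⊕ ι' → (ι ⊕ ι') ⊕ σ := Sum.elim (Sum.elim (fun j => Sum.inl (Sum.inl j)) Sum.inr)
    (fun k => Sum.inl (Sum.inr k))
  let e' : (ι ⊕ ι') ⊕ σ → (ι ⊕ σ) ⊕ ι' := Sum.elim (Sum.elim (fun j => Sum.inl (Sum.inl j)) Sum.inr)
    (fun i => Sum.inl (Sum.inr i))
  -- the inverse automorphism
  let V : (ι ⊕ ι') ⊕ σ → MvPolynomial ((ι ⊕ σ) ⊕ ι') ℂ := Sum.elim (Sum.elim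
    (fun j => X (Sum.inl (Sum.inl j)) - ∑ k, X (Sum.inr k) *
      rename (fun i => Sum.inl (Sum.inr i)) (a k j)) (fun k => X (Sum.inr k)))
    (fun i => X (Sum.inl (Sum.inr i)))
  let S : MvPolynomial ((ι ⊕ σ) ⊕ ι') ℂ →ₐ[ℂ] MvPolynomial ((ι ⊕ ι') ⊕ σ) ℂ :=
    aeval (Sum.elim (Sum.elim (fun j => X (Sum.inl (Sum.inl j)) + ∑ k, X (Sum.inl (Sum.inr k)) *
      rename Sum.inr (a k j)) (fun i => X (Sum.inr i))) (fun k => X (Sum.inl (Sum.inr k))))
  refine isB_of_section V S (fun t => ?_) _ b ?_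
  · rcases t with (j | k) | i
    · change S (X (Sum.inl (Sum.inl j)) - ∑ k, X (Sum.inr k) *
        rename (fun i => Sum.inl (Sum.inr i)) (a k j)) = _
      rw [map_sub, map_sum, aeval_X]
      have h2 : ∀ k, S (X (Sum.inr k) * rename (fun i => Sum.inl (Sum.inr i)) (a k j)) =
          X (Sum.inl (Sum.inr k)) * rename Sum.inr (a k j) := by
        intro k
        rw [map_mul, aeval_X, aeval_rename, ← aeval_ren Sum.inr]
        rfl
      rw [Finset.sum_congr rfl fun k _ => h2 k]
      change X (Sum.inl (Sum.inl j)) + ∑ k, X (Sum.inl (Sum.inr k)) * rename Sum.inr (a k j) -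
        ∑ k, X (Sum.inl (Sum.inr k)) * rename Sum.inr (a k j) = _
      rw [add_sub_cancel_right]
    · exact aeval_X _ _
    · exact aeval_X _ _
  · have h3 : aeval V (univ (Sum.elim f g)) =
        (rename Sum.inl (univ f) : MvPolynomial ((ι ⊕ σ) ⊕ ι') ℂ) := by
      have h4 : ∀ p : MvPolynomial σ ℂ, aeval (fun i => V (Sum.inr i)) p =
          rename (fun i => Sum.inl (Sum.inr i)) p := fun p => aeval_ren _ p
      rw [aeval_lin, Fintype.sum_sum_type]
      simp only [Sum.elim_inl, Sum.elim_inr, h4]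
      have h5 : ∀ j, V (Sum.inl (Sum.inl j)) = X (Sum.inl (Sum.inl j)) - ∑ k, X (Sum.inr k) *
        rename (fun i => Sum.inl (Sum.inr i)) (a k j) := fun j => rfl
      have h6 : ∀ k, V (Sum.inl (Sum.inr k)) = X (Sum.inr k) := fun k => rfl
      simp only [h5, h6, ha, map_sum, map_mul, sub_mul, Finset.sum_sub_distrib, Finset.sum_mul,
        Finset.mul_sum]
      rw [Finset.sum_comm (f := fun j k => X (Sum.inr k) *
        rename (fun i => Sum.inl (Sum.inr i)) (a k j) * rename (fun i => Sum.inl (Sum.inr i)) (f j))]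
      simp only [mul_assoc]
      rw [sub_add_cancel, univ, map_sum]
      refine Finset.sum_congr rfl fun j _ => ?_
      rw [map_mul, rename_X, rename_rename]
      rfl
    rw [h3]
    exact h1

/-- from both to the `g_k` -/
theorem isB_down (f : ι → MvPolynomial σ ℂ) (g : ι' → MvPolynomial σ ℂ)
    (a : ι → ι' → MvPolynomial σ ℂ) (ha : ∀ j, f j = ∑ k, a j k * g k) (b : Polynomial ℂ)
    (hb : IsBFunction (univ (Sum.elim f g)) b) : IsBFunction (univ g) b := by
  classical
  let V : ι' ⊕ σ → MvPolynomial ((ι ⊕ ι') ⊕ σ) ℂ := Sum.elim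
    (fun k => X (Sum.inl (Sum.inr k)) + ∑ j, X (Sum.inl (Sum.inl j)) * rename Sum.inr (a j k))
    (fun i => X (Sum.inr i))
  let S : MvPolynomial ((ι ⊕ ι') ⊕ σ) ℂ →ₐ[ℂ] MvPolynomial (ι' ⊕ σ) ℂ :=
    aeval (Sum.elim (Sum.elim (fun j => 0) (fun k => X (Sum.inl k))) (fun i => X (Sum.inr i)))
  refine isB_of_section V S (fun t => ?_) _ b ?_
  · rcases t with k | i
    · change S (X (Sum.inl (Sum.inr k)) + ∑ j, X (Sum.inl (Sum.inl j)) *
        rename Sum.inr (a j k)) = _
      rw [map_add, map_sum, aeval_X]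
      rw [Finset.sum_eq_zero fun j _ => ?_, add_zero]
      · rfl
      · rw [map_mul, aeval_X]
        exact zero_mul _
    · exact aeval_X _ _
  · have h3 : aeval V (univ g) = univ (Sum.elim f g) := by
      have h4 : ∀ p : MvPolynomial σ ℂ, aeval (fun i => V (Sum.inr i)) p =
          rename Sum.inr p := fun p => aeval_ren _ p
      have h5 : ∀ k, V (Sum.inl k) = X (Sum.inl (Sum.inr k)) + ∑ j, X (Sum.inl (Sum.inl j)) *
        rename Sum.inr (a j k) := fun k => rfl
      rw [aeval_lin, univ, Fintype.sum_sum_type]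
      simp only [Sum.elim_inl, Sum.elim_inr, h4, h5, ha, map_sum, map_mul, add_mul,
        Finset.sum_add_distrib, Finset.sum_mul, Finset.mul_sum]
      rw [add_comm]
      congr 1
      rw [Finset.sum_comm]
      simp only [mul_assoc]
    rw [h3]
    exact hb

/-- **The functional equation depends only on the ideal.** -/
theorem fe_gens (f : ι → MvPolynomial σ ℂ) (g : ι' → MvPolynomial σ ℂ)
    (h : Ideal.span (Set.range f) = Ideal.span (Set.range g)) (hg : ∃ k, g k ≠ 0)
    (b : Polynomial ℂ) (hb : IsFunctionalEq f b) : IsFunctionalEq g b := by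
  classical
  have h1 : ∀ k, ∃ a : ι → MvPolynomial σ ℂ, g k = ∑ j, a j * f j := by
    intro k
    have h2 : g k ∈ Ideal.span (Set.range f) := by
      rw [h]
      exact Ideal.subset_span ⟨k, rfl⟩
    obtain ⟨a, ha⟩ := Ideal.mem_span_range_iff_exists_fun.1 h2
    exact ⟨a, ha.symm⟩
  have h2 : ∀ j, ∃ a : ι' → MvPolynomial σ ℂ, f j = ∑ k, a k * g k := by
    intro j
    have h2 : f j ∈ Ideal.span (Set.range g) := by
      rw [← h]
      exact Ideal.subset_span ⟨j, rfl⟩
    obtain ⟨a, ha⟩ := Ideal.mem_span_range_iff_exists_fun.1 h2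
    exact ⟨a, ha.symm⟩
  choose a ha using h1
  choose a' ha' using h2
  have h3 := isB_down f g a' ha' _ (isB_up f g a ha _ (Pool.Agent.W366.SI.taskI1' f b hb))
  obtain ⟨b', h4, h5⟩ := Pool.Agent.Y230.HS.functionalEq_of_univ_strong g _ hg h3
  have h6 : (Polynomial.X + 1 : Polynomial ℂ) ≠ 0 := by
    have := Polynomial.X_add_C_ne_zero (1 : ℂ)
    rwa [map_one] at this
  rw [mul_left_cancel₀ h6 h4]
  exact h5

end Gens

section Root

variable {σ : Type}

theorem mulLeft_mem (q : MvPolynomial σ ℂ) :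
    (LinearMap.mulLeft ℂ q : Module.End ℂ (MvPolynomial σ ℂ)) ∈ weylS σ := by
  induction q using MvPolynomial.induction_on with
  | C a =>
    have : (LinearMap.mulLeft ℂ (C a : MvPolynomial σ ℂ) : Module.End ℂ (MvPolynomial σ ℂ)) =
        algebraMap ℂ _ a := by
      apply LinearMap.ext
      intro G
      rw [LinearMap.mulLeft_apply, Module.algebraMap_end_apply, C_mul']
    rw [this]
    exact (weylS σ).algebraMap_mem a
  | add p q hp hq =>
    have : (LinearMap.mulLeft ℂ (p + q) : Module.End ℂ (MvPolynomial σ ℂ)) =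
        LinearMap.mulLeft ℂ p + LinearMap.mulLeft ℂ q := by
      apply LinearMap.ext
      intro G
      simp only [LinearMap.mulLeft_apply, LinearMap.add_apply, add_mul]
    rw [this]
    exact (weylS σ).add_mem hp hq
  | mul_X p j hp =>
    have : (LinearMap.mulLeft ℂ (p * X j) : Module.End ℂ (MvPolynomial σ ℂ)) =
        LinearMap.mulLeft ℂ p * LinearMap.mulLeft ℂ (X j) := by
      apply LinearMap.ext
      intro G
      simp only [LinearMap.mulLeft_apply, Module.End.mul_apply, mul_assoc]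
    rw [this]
    exact (weylS σ).mul_mem hp (Algebra.subset_adjoin (Or.inl ⟨j, rfl⟩))

/-- **A functional equation of `F ^ m` gives one of `F`**, with `b(s / m)`. -/
theorem isB_root (F : MvPolynomial σ ℂ) (hF0 : F ≠ 0) (m : ℕ) (hm : 1 ≤ m) (b : Polynomial ℂ)
    (hb : IsBFunction (F ^ m) b) :
    IsBFunction F (b.comp (Polynomial.C ((m : ℂ)⁻¹) * Polynomial.X)) := by
  classical
  have hm0 : (m : ℂ) ≠ 0 := Nat.cast_ne_zero.2 (by omega)
  obtain ⟨P, hP⟩ := hb
  choose k r hr using fun i : ℕ => act_pow F (P i).1 (P i).2 (fun n => F ^ n)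
    ⟨0, 1, fun n => by simp⟩
  set K := ∑ i ∈ P.support, k i with hK
  have hkK : ∀ i ∈ P.support, k i ≤ K := fun i hi =>
    Finset.single_le_sum (f := k) (fun _ _ => Nat.zero_le _) hi
  -- the polynomial identity
  set T : Polynomial (MvPolynomial σ ℂ) :=
    Polynomial.C (F ^ K) * ((b.map C).comp (Polynomial.C (C (m : ℂ)⁻¹) * Polynomial.X)) -
      ∑ i ∈ P.support, (Polynomial.C (C (m : ℂ)⁻¹) * Polynomial.X) ^ i *
        (Polynomial.C (F ^ (K - k i)) * ((r i).comp (Polynomial.X + Polynomial.C (m : MvPolynomial σ ℂ)) *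
          Polynomial.C (F ^ m))) with hT
  have hTn : ∀ n : ℕ, F ^ K * (C (b.eval ((m : ℂ)⁻¹ * n)) * F ^ n -
      ∑ i ∈ P.support, ((m : ℂ)⁻¹ * n) ^ i • (P i : Module.End ℂ (MvPolynomial σ ℂ)) (F ^ (n + m))) =
        F ^ n * T.eval (n : MvPolynomial σ ℂ) := by
    intro n
    have hnC : (n : MvPolynomial σ ℂ) = C (n : ℂ) := by simp
    have h1 : Polynomial.eval (n : MvPolynomial σ ℂ)
        ((b.map C).comp (Polynomial.C (C (m : ℂ)⁻¹) * Polynomial.X)) =
          C (b.eval ((m : ℂ)⁻¹ * n)) := by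
      rw [Polynomial.eval_comp, Polynomial.eval_mul, Polynomial.eval_C, Polynomial.eval_X, hnC,
        ← C_mul, Polynomial.eval_map, Polynomial.eval₂_at_apply]
    rw [hT, Polynomial.eval_sub, Polynomial.eval_mul, Polynomial.eval_C, h1,
      Polynomial.eval_finsetSum, mul_sub, mul_sub, Finset.mul_sum, Finset.mul_sum]
    congr 1
    · ring
    · refine Finset.sum_congr rfl fun i hi => ?_
      have h2 := hr i (n + m)
      beta_reduce at h2
      rw [Polynomial.eval_mul, Polynomial.eval_pow, Polynomial.eval_mul, Polynomial.eval_C,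
        Polynomial.eval_X, Polynomial.eval_mul, Polynomial.eval_C, Polynomial.eval_mul,
        Polynomial.eval_C, Polynomial.eval_comp, Polynomial.eval_add, Polynomial.eval_X,
        Polynomial.eval_C]
      have h3 : F ^ K = F ^ (K - k i) * F ^ k i := by
        rw [← pow_add, Nat.sub_add_cancel (hkK i hi)]
      have h4 : (C (m : ℂ)⁻¹ * (n : MvPolynomial σ ℂ)) ^ i = C (((m : ℂ)⁻¹ * n) ^ i) := by
        rw [hnC, ← C_mul, ← C_pow]
      push_cast at h2
      rw [h4, h3, ← C_mul']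
      have h5 : F ^ (n + m) = F ^ n * F ^ m := pow_add _ _ _
      rw [h5] at h2 ⊢
      linear_combination (C (((m : ℂ)⁻¹ * n) ^ i) * F ^ (K - k i)) * h2
  have hT0 : T = 0 := by
    apply Polynomial.eq_zero_of_infinite_isRoot
    refine Set.Infinite.mono ?_ (Set.infinite_range_of_injective
      (f := fun s : ℕ => ((m * s : ℕ) : MvPolynomial σ ℂ)) ?_)
    · rintro _ ⟨s, rfl⟩
      have h1 := hTn (m * s)
      have h2 : C (b.eval ((m : ℂ)⁻¹ * ((m * s : ℕ) : ℂ))) * F ^ (m * s) -
          ∑ i ∈ P.support, ((m : ℂ)⁻¹ * ((m * s : ℕ) : ℂ)) ^ i •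
            (P i : Module.End ℂ (MvPolynomial σ ℂ)) (F ^ (m * s + m)) = 0 := by
        have h3 : (m : ℂ)⁻¹ * ((m * s : ℕ) : ℂ) = s := by
          push_cast
          field_simp
        have h4 := hP s
        rw [← pow_mul, ← pow_mul, Nat.mul_succ, Finsupp.sum] at h4
        rw [h3, h4, sub_self]
      rw [h2, mul_zero] at h1
      exact (mul_eq_zero.1 h1.symm).resolve_left (pow_ne_zero _ hF0)
    · intro x y hxy
      have := Nat.cast_injective (R := MvPolynomial σ ℂ) hxy
      exact Nat.eq_of_mul_eq_mul_left (by omega) this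
  -- the functional equation
  set g : ℕ → weylS σ → weylS σ := fun i Q => ((m : ℂ)⁻¹ ^ i) •
    (Q * ⟨LinearMap.mulLeft ℂ (F ^ (m - 1)), mulLeft_mem _⟩) with hg
  refine ⟨∑ i ∈ P.support, Finsupp.single i (g i (P i)), fun n => ?_⟩
  have h1 := hTn n
  rw [hT0, Polynomial.eval_zero, mul_zero] at h1
  have h2 := (mul_eq_zero.1 h1).resolve_left (pow_ne_zero _ hF0)
  rw [sub_eq_zero] at h2
  have h3 : (b.comp (Polynomial.C ((m : ℂ)⁻¹) * Polynomial.X)).eval (n : ℂ) =
      b.eval ((m : ℂ)⁻¹ * n) := by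
    rw [Polynomial.eval_comp, Polynomial.eval_mul, Polynomial.eval_C, Polynomial.eval_X]
  rw [h3, h2, ← Finsupp.sum_finsetSum_index]
  · refine Finset.sum_congr rfl fun i _ => ?_
    rw [Finsupp.sum_single_index (by
      rw [ZeroMemClass.coe_zero, LinearMap.zero_apply, smul_zero]), hg]
    change _ = (n : ℂ) ^ i • ((m : ℂ)⁻¹ ^ i • (P i : Module.End ℂ (MvPolynomial σ ℂ))
      (F ^ (m - 1) * F ^ (n + 1)))
    rw [smul_smul, mul_pow, mul_comm ((m : ℂ)⁻¹ ^ i), ← pow_add]
    congr 3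
    omega
  · intro a
    rw [ZeroMemClass.coe_zero, LinearMap.zero_apply, smul_zero]
  · intro a A B
    rw [← smul_add]
    rfl

end Root

end Pool.Agent.V7H20.MF
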